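import Mathlib
set_option autoImplicit false

/-!
Algebraic identities for the maps `u ↦ u (p² u + p² - 1) / ((1 + p) u + p)` on the curves
`(1 + n) (1 + m) (1 + n + m) = t n m`.
-/

namespace Pool.Agent.R388.SX

section ring

variable {R : Type*} [CommRing R]

theorem id1 {n m w p t' : R}
    (hF : p ^ 2 * (1 + p) * (w + n) * (w + m) * (w + n + m) = (1 - p) * n * m * w)
    (ht' : (1 + p) ^ 2 * t' = -(p * (1 - p) ^ 2)) :
    (1 + p) ^ 2 * (p ^ 2 * (n + w) * (m + w) * (p * n + w) * (p * m + w) *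
      (p * (n + w) * (p * n + w) * ((1 + p) * m + p * w) +
        m * (p ^ 2 * m + (p ^ 2 - 1) * w) * ((1 + p) * n + p * w))) =
    (1 + p) ^ 2 * (t' * (n * (p ^ 2 * n + (p ^ 2 - 1) * w)) *
      (m * (p ^ 2 * m + (p ^ 2 - 1) * w)) * w * ((1 + p) * n + p * w) * ((1 + p) * m + p * w)) := by
  linear_combination (n^2*m^2*p^6 + 2*n^2*m^2*p^5 + n^2*m^2*p^4 + n^2*m*w*p^6 + 2*n^2*m*w*p^5 +
    2*n^2*m*w*p^4 + n^2*m*w*p^3 + n^2*w^2*p^5 + n^2*w^2*p^4 + n*m^2*w*p^6 + 2*n*m^2*w*p^5 +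
    2*n*m^2*w*p^4 + n*m^2*w*p^3 + n*m*w^2*p^6 + 5*n*m*w^2*p^4 + 5*n*m*w^2*p^3 - n*m*w^2*p +
    2*n*w^3*p^4 + 2*n*w^3*p^3 + m^2*w^2*p^5 + m^2*w^2*p^4 + 2*m*w^3*p^4 + 2*m*w^3*p^3 + w^4*p^3 +
    w^4*p^2) * hF - ((n * (p ^ 2 * n + (p ^ 2 - 1) * w)) *
      (m * (p ^ 2 * m + (p ^ 2 - 1) * w)) * w * ((1 + p) * n + p * w) * ((1 + p) * m + p * w)) * ht'

theorem id2 {n m p : R}
    (hF : p ^ 2 * (1 + p) * (1 + n) * (1 + m) * (1 + n + m) = (1 - p) * n * m) :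
    (1 + m) * (n - p ^ 2 * (1 + n + m)) * (1 - p) ^ 2 * ((1 + p) * m + p) *
      (n * (p ^ 2 * n + p ^ 2 - 1)) * (m * (p ^ 2 * m + p ^ 2 - 1)) =
    p ^ 3 * (1 + p) ^ 2 * (m + 1) ^ 2 * (p * m + 1) ^ 2 * (n + 1) * (p * n + 1) * (1 + n + m) *
      (p * (1 + m) + n) := by
  linear_combination (-n^2*m^3*p^5 - n^2*m^3*p^4 - n^2*m^2*p^5 - 3*n^2*m^2*p^4 - 2*n^2*m^2*p^3 -
    2*n^2*m*p^4 - 3*n^2*m*p^3 - n^2*m*p^2 - n^2*p^3 - n^2*p^2 - n*m^4*p^6 - n*m^4*p^5 -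
    3*n*m^3*p^6 - 2*n*m^3*p^5 - 3*n*m^3*p^4 - 2*n*m^3*p^3 - 3*n*m^2*p^6 - 8*n*m^2*p^4 -
    7*n*m^2*p^3 + n*m^2*p^2 - n*m^2 - n*m*p^6 + n*m*p^5 - 6*n*m*p^4 - 6*n*m*p^3 - n*m*p - n*m -
    n*p^4 - n*p^3 - n*p^2 - n*p - m^4*p^5 - m^4*p^4 - 2*m^3*p^5 - 4*m^3*p^4 - 2*m^3*p^3 -
    m^2*p^5 - 5*m^2*p^4 - 5*m^2*p^3 - m^2*p^2 - 2*m*p^4 - 4*m*p^3 - 2*m*p^2 - p^3 - p^2) * hF

theorem id3 {n m p : R}
    (hF : p ^ 2 * (1 + p) * (1 + n) * (1 + m) * (1 + n + m) = (1 - p) * n * m) :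
    -((1 - p) ^ 2 * (m * (p ^ 2 * m + p ^ 2 - 1)) * ((1 + p) * n + p) * n *
      (1 + m + p * (1 + n + m))) =
    (1 + p) ^ 2 * p ^ 2 * (m + 1) * (p * m + 1) * (n + 1) * (p * n + 1) * (1 + n + m) *
      (p * (1 + m) + n) := by
  linear_combination (-n^2*m*p^3 - n^2*m*p^2 - n^2*p^2 - n^2*p - n*m^2*p^4 - n*m^2*p^3 - n*m*p^4 -
    3*n*m*p^3 - n*m*p - n*m - n*p^3 - n*p^2 - n*p - n - m^2*p^3 - m^2*p^2 - m*p^3 - 2*m*p^2 -
    m*p - p^2 - p) * hF

theorem ring_psi1 (P u w : R) : P * (w + u) * (P * u + w) =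
    w * ((1 + P) * u + P * w) + u * (P ^ 2 * u + (P ^ 2 - 1) * w) := by
  ring

/-- The equation of the isogenous curve, in a ring. -/
theorem ring_eqn {w n m N M B0 B1 C0 C1 A0 A1 u0 u1 P T' T : R} (hw : IsUnit w) (hB0 : IsUnit B0)
    (hB1 : IsUnit B1) (hP : IsUnit (1 + P))
    (hF : (w + n) * (w + m) * (w + n + m) = T * n * m * w) (htp : T * P ^ 2 * (1 + P) = 1 - P)
    (htt : (1 + P) ^ 2 * T' = -(P * (1 - P) ^ 2))
    (hA0 : A0 = P ^ 2 * n + (P ^ 2 - 1) * w) (hA1 : A1 = P ^ 2 * m + (P ^ 2 - 1) * w)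
    (hb0 : B0 = (1 + P) * n + P * w) (hb1 : B1 = (1 + P) * m + P * w)
    (hC0 : C0 = P * n + w) (hC1 : C1 = P * m + w) (hu0 : u0 = w + n) (hu1 : u1 = w + m)
    (P0 : N * (w * B0) = n * A0) (P1 : M * (w * B1) = m * A1)
    (Q0 : (1 + N) * (w * B0) = P * u0 * C0) (Q1 : (1 + M) * (w * B1) = P * u1 * C1) :
    (1 + N) * (1 + M) * (1 + N + M) = T' * N * M := by
  have hF' : P ^ 2 * (1 + P) * (w + n) * (w + m) * (w + n + m) = (1 - P) * n * m * w := by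
    linear_combination (P ^ 2 * (1 + P)) * hF + n * m * w * htp
  have h := id1 hF' htt
  refine (((hw.pow 4).mul (hB0.pow 2)).mul ((hB1.pow 2).mul (hP.pow 2))).mul_right_cancel ?_
  have e1 : (1 + N) * (1 + M) * (1 + N + M) * (w ^ 4 * B0 ^ 2 * (B1 ^ 2 * (1 + P) ^ 2)) =
      (1 + P) ^ 2 * (((1 + N) * (w * B0)) * ((1 + M) * (w * B1)) *
        (((1 + N) * (w * B0)) * (w * B1) + (M * (w * B1)) * (w * B0))) := by
    ring
  have e2 : T' * N * M * (w ^ 4 * B0 ^ 2 * (B1 ^ 2 * (1 + P) ^ 2)) =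
      (1 + P) ^ 2 * (T' * (N * (w * B0)) * (M * (w * B1)) * w ^ 2 * B0 * B1) := by
    ring
  rw [e1, e2, P0, P1, Q0, Q1, hA0, hA1, hC0, hC1, hu0, hu1, hb0, hb1]
  linear_combination w * h

/-- The equation satisfied by the dual pair. -/
theorem ring_dual {N M N1 M1 T' S X Y : R} (hN1 : N1 = 1 + N) (hM1 : M1 = 1 + M)
    (hS : S = 1 + N + M) (h : (1 + N) * (1 + M) * (1 + N + M) = T' * N * M)
    (hSu : IsUnit S) (hX : X * S = -M1) (hY : Y * S = -N1) :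
    T' * ((1 + X) * (1 + Y) * (1 + X + Y)) = -(X * Y) := by
  refine (hSu.pow 3).mul_right_cancel ?_
  have e1 : T' * ((1 + X) * (1 + Y) * (1 + X + Y)) * S ^ 3 =
      T' * ((S + X * S) * (S + Y * S) * (S + X * S + Y * S)) := by ring
  have e2 : -(X * Y) * S ^ 3 = -((X * S) * (Y * S)) * S := by ring
  rw [e1, e2, hX, hY, hN1, hM1, hS]
  linear_combination h

end ring


section field

variable {F : Type*} [Field F]

/-- The function `u (p² u + p² - 1) / ((1 + p) u + p)`. -/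
def psi (p u : F) : F := u * (p ^ 2 * u + p ^ 2 - 1) / ((1 + p) * u + p)

/-- The parameter of the isogenous curve. -/
def tt (p : F) : F := -(p * (1 - p) ^ 2 / (1 + p) ^ 2)

/-- Nonvanishing conditions at a point. -/
structure Ok (p u : F) : Prop where
  u0 : u ≠ 0
  u1 : 1 + u ≠ 0
  a : p ^ 2 * u + p ^ 2 - 1 ≠ 0
  b : (1 + p) * u + p ≠ 0
  c : p * u + 1 ≠ 0

/-- Nonvanishing conditions on the parameter. -/
structure Okp (p : F) : Prop where
  p0 : p ≠ 0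
  p1 : 1 + p ≠ 0
  p2 : 1 - p ≠ 0

variable {t p n m : F}

theorem psi_mul (hm : Ok p m) : psi p m * ((1 + p) * m + p) = m * (p ^ 2 * m + p ^ 2 - 1) :=
  div_mul_cancel₀ _ hm.b

theorem one_add_psi_mul (hm : Ok p m) :
    (1 + psi p m) * ((1 + p) * m + p) = p * (m + 1) * (p * m + 1) := by
  rw [add_mul, one_mul, psi_mul hm]
  ring

theorem psi_ne (hm : Ok p m) : psi p m ≠ 0 := div_ne_zero (mul_ne_zero hm.u0 hm.a) hm.b

theorem one_add_psi_ne (hp : Okp p) (hm : Ok p m) : 1 + psi p m ≠ 0 := by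
  intro h
  have h1 := one_add_psi_mul hm
  rw [h, zero_mul] at h1
  have h2 : p * (m + 1) * (p * m + 1) ≠ 0 :=
    mul_ne_zero (mul_ne_zero hp.p0 (by rw [add_comm]; exact hm.u1)) hm.c
  exact h2 h1.symm

theorem tt_ne (hp : Okp p) : tt p ≠ 0 :=
  neg_ne_zero.2 (div_ne_zero (mul_ne_zero hp.p0 (pow_ne_zero 2 hp.p2)) (pow_ne_zero 2 hp.p1))

theorem tt_mul (hp : Okp p) : (1 + p) ^ 2 * tt p = -(p * (1 - p) ^ 2) := by
  have h1 := hp.p1
  unfold tt
  field_simp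

/-- the equation of the isogenous curve -/
theorem psi_eqn (hp : Okp p) (ht : t * p ^ 2 * (1 + p) = 1 - p)
    (hF : (1 + n) * (1 + m) * (1 + n + m) = t * n * m) (hn : Ok p n) (hm : Ok p m) :
    (1 + psi p n) * (1 + psi p m) * (1 + psi p n + psi p m) = tt p * psi p n * psi p m := by
  have h1 := hp.p1
  have hF' : p ^ 2 * (1 + p) * (1 + n) * (1 + m) * (1 + n + m) = (1 - p) * n * m * 1 := by
    linear_combination (p ^ 2 * (1 + p)) * hF + n * m * ht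
  have h := id1 hF' (tt_mul hp)
  have h2 := mul_left_cancel₀ (pow_ne_zero 2 h1) h
  have hbn := hn.b
  have hbm := hm.b
  have a1 := psi_mul hn
  have a2 := psi_mul hm
  have c1 := one_add_psi_mul hn
  have c2 := one_add_psi_mul hm
  refine mul_right_cancel₀ (mul_ne_zero (pow_ne_zero 2 hbn) (pow_ne_zero 2 hbm)) ?_
  generalize psi p n = N at *
  generalize psi p m = M at *
  have e1 : (1 + N) * (1 + M) * (1 + N + M) * (((1 + p) * n + p) ^ 2 * ((1 + p) * m + p) ^ 2) =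
      ((1 + N) * ((1 + p) * n + p)) * ((1 + M) * ((1 + p) * m + p)) *
        (((1 + N) * ((1 + p) * n + p)) * ((1 + p) * m + p) +
          (M * ((1 + p) * m + p)) * ((1 + p) * n + p)) := by
    ring
  have e2 : tt p * N * M * (((1 + p) * n + p) ^ 2 * ((1 + p) * m + p) ^ 2) =
      tt p * (N * ((1 + p) * n + p)) * (M * ((1 + p) * m + p)) *
        (((1 + p) * n + p) * ((1 + p) * m + p)) := by
    ring
  rw [e1, e2, a1, a2, c1, c2]
  linear_combination h2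

/-- the sum `1 + N + M` does not vanish -/
theorem sum_ne {N M : F} (h : (1 + N) * (1 + M) * (1 + N + M) = t * N * M) (ht : t ≠ 0)
    (hN : N ≠ 0) (hM : M ≠ 0) : 1 + N + M ≠ 0 := by
  intro h0
  rw [h0, mul_zero] at h
  exact mul_ne_zero (mul_ne_zero ht hN) hM h.symm

/-- The key nonvanishing. -/
theorem key_ne (hp : Okp p) (hF : p ^ 2 * (1 + p) * (1 + n) * (1 + m) * (1 + n + m) =
    (1 - p) * n * m) (hn : Ok p n) (hm : Ok p m) (hg : 1 + p - p ^ 2 ≠ 0) :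
    p * (1 + m) + n ≠ 0 := by
  intro h
  have h2 := id2 hF
  rw [h, mul_zero] at h2
  have h3 : n - p ^ 2 * (1 + n + m) = 0 := by
    have e : (1 + m) * (n - p ^ 2 * (1 + n + m)) * (1 - p) ^ 2 * ((1 + p) * m + p) *
      (n * (p ^ 2 * n + p ^ 2 - 1)) * (m * (p ^ 2 * m + p ^ 2 - 1)) =
      (n - p ^ 2 * (1 + n + m)) * ((1 + m) * (1 - p) ^ 2 * ((1 + p) * m + p) *
      (n * (p ^ 2 * n + p ^ 2 - 1)) * (m * (p ^ 2 * m + p ^ 2 - 1))) := by ring
    rw [e] at h2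
    exact (mul_eq_zero.1 h2).resolve_right (mul_ne_zero (mul_ne_zero (mul_ne_zero (mul_ne_zero
      hm.u1 (pow_ne_zero 2 hp.p2)) hm.b) (mul_ne_zero hn.u0 hn.a)) (mul_ne_zero hm.u0 hm.a))
  have h4 : -(p * (1 + m) * (1 + p - p ^ 2)) = 0 := by
    linear_combination h3 - (1 - p ^ 2) * h
  rw [neg_eq_zero] at h4
  exact mul_ne_zero (mul_ne_zero hp.p0 hm.u1) hg h4

theorem key_ne3 (hp : Okp p) (hF : p ^ 2 * (1 + p) * (1 + n) * (1 + m) * (1 + n + m) =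
    (1 - p) * n * m) (hn : Ok p n) (hm : Ok p m) (hg : 1 + p - p ^ 2 ≠ 0) (hS : 1 + n + m ≠ 0) :
    1 + m + p * (1 + n + m) ≠ 0 := by
  intro h
  have h2 := id3 hF
  rw [h, mul_zero, neg_zero] at h2
  have hn1 : n + 1 ≠ 0 := by rw [add_comm]; exact hn.u1
  have hm1 : m + 1 ≠ 0 := by rw [add_comm]; exact hm.u1
  exact mul_ne_zero (mul_ne_zero (mul_ne_zero (mul_ne_zero (mul_ne_zero (mul_ne_zero
    (mul_ne_zero (pow_ne_zero 2 hp.p1) (pow_ne_zero 2 hp.p0)) hm1) hm.c) hn1) hn.c) hS)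
      (key_ne hp hF hn hm hg) h2.symm

theorem key_ne2 (hp : Okp p) (hF : p ^ 2 * (1 + p) * (1 + n) * (1 + m) * (1 + n + m) =
    (1 - p) * n * m) (hn : Ok p n) (hm : Ok p m) (hg : 1 + p - p ^ 2 ≠ 0) (hS : 1 + n + m ≠ 0) :
    n - p ^ 2 * (1 + n + m) ≠ 0 := by
  intro h
  have h2 := id2 hF
  rw [h, mul_zero] at h2
  simp only [zero_mul] at h2
  have hn1 : n + 1 ≠ 0 := by rw [add_comm]; exact hn.u1
  have hm1 : m + 1 ≠ 0 := by rw [add_comm]; exact hm.u1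
  exact mul_ne_zero (mul_ne_zero (mul_ne_zero (mul_ne_zero (mul_ne_zero (mul_ne_zero
    (mul_ne_zero (pow_ne_zero 3 hp.p0) (pow_ne_zero 2 hp.p1)) (pow_ne_zero 2 hm1))
      (pow_ne_zero 2 hm.c)) hn1) hn.c) hS) (key_ne hp hF hn hm hg) h2.symm

/-- the dual coordinate -/
def dl (n m : F) : F := -((1 + m) / (1 + n + m))

/-- the dual parameter -/
def dp (p : F) : F := -(1 / p)

theorem okp_dual (hp : Okp p) : Okp (dp p) := by
  have h0 := hp.p0
  have h1 := hp.p1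
  have h2 := hp.p2
  refine ⟨?_, ?_, ?_⟩
  · unfold dp
    exact neg_ne_zero.2 (one_div_ne_zero h0)
  · have e : 1 + dp p = -((1 - p) / p) := by
      unfold dp
      field_simp
      ring
    rw [e]
    exact neg_ne_zero.2 (div_ne_zero h2 h0)
  · have e : 1 - dp p = (1 + p) / p := by
      unfold dp
      field_simp
      ring
    rw [e]
    exact div_ne_zero h1 h0

section dual

variable (hp : Okp p) (hF : p ^ 2 * (1 + p) * (1 + n) * (1 + m) * (1 + n + m) =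
    (1 - p) * n * m) (hn : Ok p n) (hm : Ok p m) (hg : 1 + p - p ^ 2 ≠ 0) (hS : 1 + n + m ≠ 0)

include hp hF hn hm hg hS

theorem ok_dual : Ok (dp p) (dl n m) := by
  have h0 := hp.p0
  have k1 := key_ne hp hF hn hm hg
  have k2 := key_ne2 hp hF hn hm hg hS
  have k3 := key_ne3 hp hF hn hm hg hS
  have m1 := hm.u1
  have n0 := hn.u0
  refine ⟨?_, ?_, ?_, ?_, ?_⟩
  · exact neg_ne_zero.2 (div_ne_zero m1 hS)
  · have e : 1 + dl n m = n / (1 + n + m) := by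
      unfold dl
      field_simp
      ring
    rw [e]
    exact div_ne_zero n0 hS
  · have e : dp p ^ 2 * dl n m + dp p ^ 2 - 1 = (n - p ^ 2 * (1 + n + m)) /
        (p ^ 2 * (1 + n + m)) := by
      unfold dl dp
      field_simp
      ring
    rw [e]
    exact div_ne_zero k2 (mul_ne_zero (pow_ne_zero 2 h0) hS)
  · have e : (1 + dp p) * dl n m + dp p = -((p * (1 + m) + n) / (p * (1 + n + m))) := by
      unfold dl dp
      field_simp
      ring
    rw [e]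
    exact neg_ne_zero.2 (div_ne_zero k1 (mul_ne_zero h0 hS))
  · have e : dp p * dl n m + 1 = (1 + m + p * (1 + n + m)) / (p * (1 + n + m)) := by
      unfold dl dp
      field_simp
    rw [e]
    exact div_ne_zero k3 (mul_ne_zero h0 hS)

/-- compatibility of the duality with the isogeny -/
theorem psi_dual (hN : (1 + psi p n) * (1 + psi p m) * (1 + psi p n + psi p m) =
    tt p * psi p n * psi p m) : psi (dp p) (dl n m) = dl (psi p n) (psi p m) := by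
  have h0 := hp.p0
  have h1 := hp.p1
  have h2 := hp.p2
  have hs := sum_ne hN (tt_ne hp) (psi_ne hn) (psi_ne hm)
  have k1 := key_ne hp hF hn hm hg
  have e1 : psi (dp p) (dl n m) = (1 + m) * (n - p ^ 2 * (1 + n + m)) /
      (p * (1 + n + m) * (p * (1 + m) + n)) := by
    have e3 : dp p ^ 2 * dl n m + dp p ^ 2 - 1 = (n - p ^ 2 * (1 + n + m)) /
        (p ^ 2 * (1 + n + m)) := by
      unfold dl dp
      field_simp
      ring
    have e4 : (1 + dp p) * dl n m + dp p = -((p * (1 + m) + n) / (p * (1 + n + m))) := by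
      unfold dl dp
      field_simp
      ring
    unfold psi
    rw [e3, e4]
    unfold dl
    generalize p * (1 + m) + n = k at *
    generalize n - p ^ 2 * (1 + n + m) = l at *
    field_simp
  have e2 : dl (psi p n) (psi p m) = -((1 + psi p m) ^ 2 * (1 + psi p n) /
      (tt p * psi p n * psi p m)) := by
    unfold dl
    rw [neg_inj, div_eq_div_iff hs (mul_ne_zero (mul_ne_zero (tt_ne hp) (psi_ne hn))
      (psi_ne hm)), ← hN]
    ring
  rw [e1, e2, ← neg_div, div_eq_div_iff (mul_ne_zero (mul_ne_zero h0 hS) k1)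
    (mul_ne_zero (mul_ne_zero (tt_ne hp) (psi_ne hn)) (psi_ne hm))]
  have hbn := hn.b
  have hbm := hm.b
  have a1 := psi_mul hn
  have a2 := psi_mul hm
  have c1 := one_add_psi_mul hn
  have c2 := one_add_psi_mul hm
  have ht := tt_mul hp
  refine mul_right_cancel₀ (mul_ne_zero (mul_ne_zero hbn (pow_ne_zero 2 hbm))
    (mul_ne_zero (pow_ne_zero 2 h1) h0)) ?_
  generalize psi p n = N at *
  generalize psi p m = M at *
  generalize tt p = T at *
  have f1 : (1 + m) * (n - p ^ 2 * (1 + n + m)) * (T * N * M) *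
      (((1 + p) * n + p) * ((1 + p) * m + p) ^ 2 * ((1 + p) ^ 2 * p)) =
      (1 + m) * (n - p ^ 2 * (1 + n + m)) * (((1 + p) ^ 2 * T) * (N * ((1 + p) * n + p)) *
        (M * ((1 + p) * m + p))) * ((1 + p) * m + p) * p := by
    ring
  have f2 : -((1 + M) ^ 2 * (1 + N)) * (p * (1 + n + m) * (p * (1 + m) + n)) *
      (((1 + p) * n + p) * ((1 + p) * m + p) ^ 2 * ((1 + p) ^ 2 * p)) =
      -(((1 + M) * ((1 + p) * m + p)) ^ 2 * ((1 + N) * ((1 + p) * n + p))) *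
        (p * (1 + n + m) * (p * (1 + m) + n)) * ((1 + p) ^ 2 * p) := by
    ring
  rw [f1, f2, a1, a2, c1, c2, ht]
  linear_combination (-p ^ 2) * id2 hF

end dual

end field

end Pool.Agent.R388.SX
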