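import Pool.Agent.R388.CU.Par
import Pool.Agent.R388.SX.Alg
set_option autoImplicit false

/-!
The functions on the loops around the cusps.
-/

namespace Pool.Agent.R388.SX

open MeasureTheory Set Filter Topology

open Pool.Agent.TH826.UH

open Pool.Agent.TH826.MK (circ norm_circ contDiff_circ circ_add_one one_lin wd)

open Pool.Agent.TH690.UR (wn)

open Pool.Agent.R388.CU

open scoped Real

/-- the coordinate `m` on the circle of radius `1/4` -/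
noncomputable def mm (θ : ℝ) : ℂ := circ (1 / 4) θ

theorem norm_mm (θ : ℝ) : ‖mm θ‖ = 1 / 4 := norm_circ (by norm_num) θ

theorem mm_add_one (θ : ℝ) : mm (θ + 1) = mm θ := circ_add_one _ θ

/-- lower bounds for norms of sums -/
theorem low {a b : ℂ} {A B : ℝ} (ha : A ≤ ‖a‖) (hb : ‖b‖ ≤ B) : A - B ≤ ‖a + b‖ := by
  have h := norm_sub_norm_le a (-b)
  rw [norm_neg, sub_neg_eq_add] at h
  linarith

theorem ne_of_low {a : ℂ} {A : ℝ} (hA : 0 < A) (h : A ≤ ‖a‖) : a ≠ 0 := by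
  rw [← norm_pos_iff]
  linarith

theorem low_m1 (θ : ℝ) : 3 / 4 ≤ ‖1 + mm θ‖ := by
  have h := low (a := 1) (b := mm θ) (A := 1) (B := 1 / 4) (by rw [norm_one]) (norm_mm θ).le
  linarith

theorem up_m1 (θ : ℝ) : ‖1 + mm θ‖ ≤ 5 / 4 := by
  refine (norm_add_le _ _).trans ?_
  rw [norm_one, norm_mm]
  norm_num

theorem mm_ne (θ : ℝ) : mm θ ≠ 0 := ne_of_low (A := 1 / 4) (by norm_num) (norm_mm θ).ge

theorem m1_ne (θ : ℝ) : 1 + mm θ ≠ 0 := ne_of_low (by norm_num) (low_m1 θ)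

/-- the discriminant divided by `m²` -/
noncomputable def bq (τ : ℂ) (θ : ℝ) : ℂ :=
  1 + (-(2 * τ * ((2 + mm θ) / (mm θ * (1 + mm θ)))) + τ ^ 2 * ((1 + mm θ) ^ 2)⁻¹)

/-- its square root -/
noncomputable def bs (τ : ℂ) (θ : ℝ) : ℂ := Complex.exp (Complex.log (bq τ θ) / 2)

/-- the coordinate `n` -/
noncomputable def nn (τ : ℂ) (θ : ℝ) : ℂ :=
  (-((2 + mm θ) - τ * (mm θ * (1 + mm θ)⁻¹)) - mm θ * bs τ θ) / 2

section bounds

variable {τ : ℂ} (hτ : ‖τ‖ < 1 / 100) (θ : ℝ)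

include hτ

theorem bq_small : ‖bq τ θ - 1‖ < 1 / 4 := by
  have e : bq τ θ - 1 = -(2 * τ * ((2 + mm θ) / (mm θ * (1 + mm θ)))) +
    τ ^ 2 * ((1 + mm θ) ^ 2)⁻¹ := by
    unfold bq
    ring
  rw [e]
  refine (norm_add_le _ _).trans_lt ?_
  rw [norm_neg, norm_mul, norm_mul, norm_div, norm_mul, norm_mul, norm_inv, norm_pow, norm_pow,
    norm_mm, Complex.norm_ofNat]
  have h1 : ‖2 + mm θ‖ ≤ 9 / 4 := by
    refine (norm_add_le _ _).trans ?_
    rw [Complex.norm_ofNat, norm_mm]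
    norm_num
  have h2 := low_m1 θ
  have h3 : ‖2 + mm θ‖ / (1 / 4 * ‖1 + mm θ‖) ≤ 12 := by
    rw [div_le_iff₀ (by linarith)]
    linarith
  have h4 : (‖1 + mm θ‖ ^ 2)⁻¹ ≤ 2 := by
    rw [inv_le_comm₀ (by positivity) (by norm_num)]
    nlinarith
  have h5 : ‖τ‖ ^ 2 ≤ 1 / 10000 := by
    have := pow_le_pow_left₀ (norm_nonneg τ) hτ.le 2
    norm_num at this
    exact this
  have h6 : 2 * ‖τ‖ * (‖2 + mm θ‖ / (1 / 4 * ‖1 + mm θ‖)) ≤ 2 * (1 / 100) * 12 :=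
    mul_le_mul (by linarith) h3 (by positivity) (by norm_num)
  have h7 : ‖τ‖ ^ 2 * (‖1 + mm θ‖ ^ 2)⁻¹ ≤ 1 / 10000 * 2 :=
    mul_le_mul h5 h4 (by positivity) (by norm_num)
  linarith

theorem bq_slit : bq τ θ ∈ Complex.slitPlane := by
  have e : bq τ θ = 1 + (bq τ θ - 1) := by ring
  rw [e]
  exact Complex.mem_slitPlane_of_norm_lt_one ((bq_small hτ θ).trans (by norm_num))

theorem bs_sq : bs τ θ ^ 2 = bq τ θ := by
  unfold bs
  rw [← Complex.exp_nat_mul]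
  push_cast
  rw [mul_div_cancel₀ _ (two_ne_zero), Complex.exp_log (Complex.slitPlane_ne_zero (bq_slit hτ θ))]

theorem bs_re : 0 < (bs τ θ).re := by
  unfold bs
  rw [Complex.exp_re]
  refine mul_pos (Real.exp_pos _) (Real.cos_pos_of_mem_Ioo ?_)
  have h1 : (Complex.log (bq τ θ) / 2).im = (Complex.log (bq τ θ)).im / 2 := by
    simp
  have h3 : (bq τ θ).arg < π := by
    refine lt_of_le_of_ne (Complex.arg_le_pi _) ?_
    exact Complex.slitPlane_arg_ne_pi (bq_slit hτ θ)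
  have h4 := Complex.neg_pi_lt_arg (bq τ θ)
  rw [h1, Complex.log_im]
  constructor <;> linarith

theorem bs_close : ‖1 - bs τ θ‖ ≤ 1 / 4 := by
  have h1 : (1 - bs τ θ) * (1 + bs τ θ) = -(bq τ θ - 1) := by
    rw [← bs_sq hτ]
    ring
  have h2 : 1 ≤ ‖1 + bs τ θ‖ := by
    have h3 := (Complex.abs_re_le_norm (1 + bs τ θ))
    rw [Complex.add_re, Complex.one_re] at h3
    have h4 := bs_re hτ θ
    exact (by linarith : (1 : ℝ) ≤ 1 + (bs τ θ).re).trans ((le_abs_self _).trans h3)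
  have h3 := congrArg norm h1
  rw [norm_mul, norm_neg] at h3
  have h4 := bq_small hτ θ
  have h5 : ‖1 - bs τ θ‖ * 1 ≤ ‖1 - bs τ θ‖ * ‖1 + bs τ θ‖ :=
    mul_le_mul_of_nonneg_left h2 (norm_nonneg _)
  linarith

/-- the equation of the curve -/
theorem nn_eqn : (1 + nn τ θ) * (1 + mm θ) * (1 + nn τ θ + mm θ) = τ * nn τ θ * mm θ := by
  have h1 := bs_sq hτ θ
  have hm := mm_ne θ
  have hm1 := m1_ne θ
  have h2 : mm θ ^ 2 * (1 + mm θ) ^ 2 * bq τ θ = mm θ ^ 2 * (1 + mm θ) ^ 2 -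
      2 * τ * (2 + mm θ) * mm θ * (1 + mm θ) + τ ^ 2 * mm θ ^ 2 := by
    unfold bq
    field_simp
    ring
  have h3 : 2 * (1 + mm θ) * nn τ θ = -((2 + mm θ) * (1 + mm θ) - τ * mm θ) -
      mm θ * (1 + mm θ) * bs τ θ := by
    unfold nn
    field_simp
  have h4 : 4 * (1 + mm θ) ^ 2 * ((1 + nn τ θ) * (1 + mm θ) * (1 + nn τ θ + mm θ) -
      τ * nn τ θ * mm θ) = 0 := by
    have e : 4 * (1 + mm θ) ^ 2 * ((1 + nn τ θ) * (1 + mm θ) * (1 + nn τ θ + mm θ) -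
      τ * nn τ θ * mm θ) = (1 + mm θ) * ((2 * (1 + mm θ) * nn τ θ) ^ 2 +
        2 * ((2 + mm θ) * (1 + mm θ) - τ * mm θ) * (2 * (1 + mm θ) * nn τ θ) +
          4 * (1 + mm θ) ^ 3) := by
      ring
    rw [e, h3]
    linear_combination ((1 + mm θ)) * h2 + (1 + mm θ) * mm θ ^ 2 * (1 + mm θ) ^ 2 * h1
  have h5 := (mul_eq_zero.1 h4).resolve_left (mul_ne_zero (by norm_num) (pow_ne_zero 2 hm1))
  exact sub_eq_zero.1 h5

theorem nn_close : ‖1 + nn τ θ + mm θ‖ ≤ 1 / 25 := by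
  have e : 1 + nn τ θ + mm θ = mm θ / 2 * (τ * (1 + mm θ)⁻¹ + (1 - bs τ θ)) := by
    unfold nn
    ring
  rw [e, norm_mul, norm_div, norm_mm, Complex.norm_ofNat]
  have h1 := bs_close hτ θ
  have h2 : ‖τ * (1 + mm θ)⁻¹‖ ≤ 1 / 50 := by
    rw [norm_mul, norm_inv]
    have h3 := low_m1 θ
    have h4 : ‖1 + mm θ‖⁻¹ ≤ 2 := by
      rw [inv_le_comm₀ (by linarith) (by norm_num)]
      linarith
    have h5 : ‖τ‖ * ‖1 + mm θ‖⁻¹ ≤ 1 / 100 * 2 :=
      mul_le_mul hτ.le h4 (by positivity) (by norm_num)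
    linarith
  have h3 := norm_add_le (τ * (1 + mm θ)⁻¹) (1 - bs τ θ)
  linarith

end bounds

end Pool.Agent.R388.SX
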