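import Pool.Agent.R388.SX.Sext
set_option autoImplicit false

/-!
The embeddings of the sextic fields.
-/

namespace Pool.Agent.R388.SX

open Polynomial NumberField Set

open scoped ComplexConjugate

section dual

variable {F : Type*} [Field F] {m x : F}

/-- the three numbers -/
def w3 (m x : F) : Fin 3 → F := ![x, qf m x, rf m x]

theorem EQ.rel (h2 : (2 : F) ≠ 0) (h : EQ m x) (hm : m ≠ 0) : Rel (w3 m x) := by
  obtain ⟨h3, h4⟩ := h.qr_ne h2 hm
  refine ⟨fun i => ?_, h.sum h2 hm, h.inv h2 hm⟩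
  fin_cases i
  · exact h.x_ne
  · exact h3
  · exact h4

/-- the permutation -/
def sw : Fin 3 → Fin 3 := ![0, 2, 1]

theorem sw_ne {i j : Fin 3} (h : j ≠ i) : sw j ≠ sw i := by
  fin_cases i <;> fin_cases j <;> first | exact absurd rfl h | decide

theorem EQ.dual (h : EQ m x) : EQ m (-x⁻¹) := by
  have h1 := h
  have h0 := h.x_ne
  unfold EQ at h1 ⊢
  have e : (-x⁻¹) ^ 6 + 8 * (-x⁻¹) ^ 5 + (17 - 4 * m ^ 2) * (-x⁻¹) ^ 4 -
      (17 - 4 * m ^ 2) * (-x⁻¹) ^ 2 + 8 * (-x⁻¹) - 1 = -(x⁻¹ ^ 6 * (x ^ 6 + 8 * x ^ 5 +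
        (17 - 4 * m ^ 2) * x ^ 4 - (17 - 4 * m ^ 2) * x ^ 2 + 8 * x - 1)) := by
    field_simp
    ring
  rw [e, h1]
  ring

theorem qA_dual (h0 : x ≠ 0) : qA (-x⁻¹) = -(qA x / x ^ 2) := by
  unfold qA
  field_simp
  ring

theorem EQ.w3_dual (h2 : (2 : F) ≠ 0) (h : EQ m x) (hm : m ≠ 0) (j : Fin 3) :
    w3 m (-x⁻¹) j = -(w3 m x (sw j))⁻¹ := by
  have h0 := h.x_ne
  have hA := h.A_ne h2 hm
  obtain ⟨hn1, hn2⟩ := h.ne h2 hm
  have hk := h.key
  have h1 := h.one_add h2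
  fin_cases j
  · rfl
  · show qf m (-x⁻¹) = -(rf m x)⁻¹
    unfold qf rf
    rw [qA_dual h0, inv_neg, neg_neg, inv_div]
    generalize qA x = A at *
    have e : (1 + -x⁻¹) * (2 * m * -x⁻¹ - -(A / x ^ 2)) / (2 * -(A / x ^ 2)) =
        (x - 1) * (2 * m * x - A) / (2 * A * x) := by
      field_simp
      ring
    rw [e, div_eq_div_iff (mul_ne_zero (mul_ne_zero h2 hA) h0) (mul_ne_zero h1 hn2)]
    linear_combination hk
  · show rf m (-x⁻¹) = -(qf m x)⁻¹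
    unfold qf rf
    rw [qA_dual h0, inv_div, neg_inj]
    generalize qA x = A at *
    have e : (1 + -x⁻¹) * (2 * m * -x⁻¹ + -(A / x ^ 2)) / (2 * -(A / x ^ 2)) =
        (x - 1) * (2 * m * x + A) / (2 * A * x) := by
      field_simp
      ring
    rw [e, div_eq_div_iff (mul_ne_zero (mul_ne_zero h2 hA) h0) (mul_ne_zero h1 hn1)]
    linear_combination hk

theorem w3_map {G : Type*} [Field G] (s : F →+* G) (m x : F) (j : Fin 3) :
    s (w3 m x j) = w3 (s m) (s x) j := by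
  fin_cases j
  · rfl
  · show s (qf m x) = qf (s m) (s x)
    unfold qf qA
    simp only [map_div₀, map_mul, map_add, map_sub, map_one, map_ofNat, map_pow]
  · show s (rf m x) = rf (s m) (s x)
    unfold rf qA
    simp only [map_div₀, map_mul, map_add, map_sub, map_one, map_ofNat, map_pow, map_neg]

theorem EQ.map {G : Type*} [Field G] (s : F →+* G) (h : EQ m x) : EQ (s m) (s x) := by
  have h1 := congrArg s h
  unfold EQ
  simpa only [map_mul, map_add, map_sub, map_one, map_ofNat, map_pow, map_zero] using h1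

theorem EQ.of_form (h : (x ^ 2 + 4 * x - 1) * (x ^ 2 + 2 * x - 1) ^ 2 -
    4 * m ^ 2 * x ^ 2 * (x ^ 2 - 1) = 0) : EQ m x := by
  unfold EQ
  linear_combination h

end dual

section real

/-- the real function -/
def ff (m x : ℝ) : ℝ := (x ^ 2 + 4 * x - 1) * (x ^ 2 + 2 * x - 1) ^ 2 -
    4 * m ^ 2 * x ^ 2 * (x ^ 2 - 1)

theorem continuous_ff (m : ℝ) : Continuous (ff m) := by
  unfold ff
  fun_prop

variable {m c : ℝ}

theorem root0 (hm : 11 ≤ m) (hc : 3 * c + 5 ≤ m) : ∃ x : ℝ, EQ m x ∧ 0 < x ∧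
    c ≤ |qf m x| ∧ c ≤ |rf m x| := by
  have h1 : 0 ≤ ff m 1 := by
    unfold ff
    norm_num
  have h2 : ff m (3 / 2) ≤ 0 := by
    unfold ff
    nlinarith
  obtain ⟨x, ⟨hx1, hx2⟩, hx⟩ := intermediate_value_Icc' (by norm_num : (1 : ℝ) ≤ 3 / 2)
    (continuous_ff m).continuousOn ⟨h2, h1⟩
  have hA1 : 2 ≤ qA x := by
    unfold qA
    nlinarith
  have hA2 : qA x ≤ 17 / 4 := by
    unfold qA
    nlinarith
  refine ⟨x, EQ.of_form hx, by linarith, ?_, ?_⟩
  · refine le_trans ?_ (le_abs_self _)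
    unfold qf
    rw [le_div_iff₀ (by linarith)]
    have h3 : 2 * m - 17 / 4 ≤ 2 * m * x - qA x := by nlinarith
    have h4 : 2 * (2 * m - 17 / 4) ≤ (1 + x) * (2 * m * x - qA x) :=
      mul_le_mul (by linarith) h3 (by linarith) (by linarith)
    rcases le_or_gt c 0 with h5 | h5
    · have h6 : c * (2 * qA x) ≤ 0 := mul_nonpos_of_nonpos_of_nonneg h5 (by linarith)
      linarith
    · have h6 : c * (2 * qA x) ≤ c * (17 / 2) := by
        refine mul_le_mul_of_nonneg_left (by linarith) h5.le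
      linarith
  · unfold rf
    rw [abs_neg]
    refine le_trans ?_ (le_abs_self _)
    rw [le_div_iff₀ (by linarith)]
    have h3 : 2 * m ≤ 2 * m * x + qA x := by nlinarith
    have h4 : 2 * (2 * m) ≤ (1 + x) * (2 * m * x + qA x) :=
      mul_le_mul (by linarith) h3 (by linarith) (by linarith)
    rcases le_or_gt c 0 with h5 | h5
    · have h6 : c * (2 * qA x) ≤ 0 := mul_nonpos_of_nonpos_of_nonneg h5 (by linarith)
      linarith
    · have h6 : c * (2 * qA x) ≤ c * (17 / 2) := by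
        refine mul_le_mul_of_nonneg_left (by linarith) h5.le
      linarith

theorem root1 (hm : 11 ≤ m) (hc : 3 * c + 5 ≤ m) (hc0 : 0 ≤ c) : ∃ x : ℝ, EQ m x ∧ 0 < x ∧
    c ≤ |x| ∧ c ≤ |rf m x| := by
  have h1 : ff m (2 * m - 5) ≤ 0 := by
    obtain ⟨y, hy⟩ : ∃ y, y = 2 * m - 5 := ⟨_, rfl⟩
    have hm' : 4 * m ^ 2 = (y + 5) ^ 2 := by rw [hy]; ring
    have hy2 : 17 ≤ y := by linarith
    unfold ff
    rw [← hy, hm']
    have e : (y ^ 2 + 4 * y - 1) * (y ^ 2 + 2 * y - 1) ^ 2 -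
      (y + 5) ^ 2 * y ^ 2 * (y ^ 2 - 1) = -(2 * y ^ 5 + 7 * y ^ 4 - 10 * y ^ 3 - 8 * y ^ 2 -
        8 * y + 1) := by ring
    rw [e, Left.neg_nonpos_iff]
    have a1 : 0 ≤ y ^ 3 * (y ^ 2 - 5) := mul_nonneg (by positivity) (by nlinarith)
    have a2 : 0 ≤ y ^ 2 * (y ^ 2 - 8) := mul_nonneg (by positivity) (by nlinarith)
    have a3 : 0 ≤ y * (y ^ 3 - 8) := mul_nonneg (by positivity) (by nlinarith [mul_nonneg (by positivity : (0:ℝ) ≤ y) (by nlinarith : (0:ℝ) ≤ y ^ 2 - 8)])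
    nlinarith [pow_nonneg (by positivity : (0:ℝ) ≤ y) 4, pow_nonneg (by positivity : (0:ℝ) ≤ y) 5]
  have h2 : 0 ≤ ff m (2 * m) := by
    unfold ff
    have h3 : (2 * m) ^ 2 - 1 ≤ (2 * m) ^ 2 + 4 * (2 * m) - 1 := by linarith
    have h4 : ((2 * m) ^ 2) ^ 2 ≤ ((2 * m) ^ 2 + 2 * (2 * m) - 1) ^ 2 :=
      pow_le_pow_left₀ (by positivity) (by linarith) 2
    have h5 : ((2 * m) ^ 2 - 1) * ((2 * m) ^ 2) ^ 2 ≤
        ((2 * m) ^ 2 + 4 * (2 * m) - 1) * ((2 * m) ^ 2 + 2 * (2 * m) - 1) ^ 2 :=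
      mul_le_mul h3 h4 (by positivity) (by nlinarith)
    linarith
  obtain ⟨x, ⟨hx1, hx2⟩, hx⟩ := intermediate_value_Icc (by linarith : 2 * m - 5 ≤ 2 * m)
    (continuous_ff m).continuousOn ⟨h1, h2⟩
  have hA : 0 < qA x := by
    unfold qA
    nlinarith
  refine ⟨x, EQ.of_form hx, by linarith, (by linarith : c ≤ x).trans (le_abs_self _), ?_⟩
  unfold rf
  rw [abs_neg]
  refine le_trans ?_ (le_abs_self _)
  rw [le_div_iff₀ (by linarith)]
  have h3 : qA x ≤ 2 * m * x + qA x := by nlinarith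
  have h4 : (2 * c) * qA x ≤ (1 + x) * (2 * m * x + qA x) :=
    mul_le_mul (by linarith) h3 hA.le (by linarith)
  linarith

theorem root2 (hm : 11 ≤ m) (hc : 3 * c + 5 ≤ m) (hc0 : 0 ≤ c) : ∃ x : ℝ, EQ m x ∧ x < 0 ∧
    c ≤ |x| ∧ c ≤ |qf m x| := by
  have h1 : 0 ≤ ff m (-(2 * m) - 5) := by
    obtain ⟨y, hy⟩ : ∃ y, y = 2 * m + 5 := ⟨_, rfl⟩
    have hm' : 4 * m ^ 2 = (y - 5) ^ 2 := by rw [hy]; ring
    have hy1 : -(2 * m) - 5 = -y := by rw [hy]; ring
    have hy2 : 27 ≤ y := by linarith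
    unfold ff
    rw [hy1, hm']
    have e : ((-y) ^ 2 + 4 * -y - 1) * ((-y) ^ 2 + 2 * -y - 1) ^ 2 -
      (y - 5) ^ 2 * (-y) ^ 2 * ((-y) ^ 2 - 1) = y ^ 4 * (2 * y - 7) - 10 * y ^ 3 + 8 * y ^ 2 -
        8 * y - 1 := by ring
    rw [e]
    have a1 : y ^ 4 * 47 ≤ y ^ 4 * (2 * y - 7) := mul_le_mul_of_nonneg_left (by linarith)
      (by positivity)
    have a2 : 0 ≤ y ^ 3 * (y - 10) := mul_nonneg (by positivity) (by linarith)
    have a3 : 0 ≤ y ^ 2 - 8 * y - 1 := by nlinarith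
    have a4 : 0 ≤ y ^ 4 := by positivity
    have a5 : 0 ≤ y ^ 2 := by positivity
    nlinarith
  have h2 : ff m (-(2 * m)) ≤ 0 := by
    unfold ff
    have h3 : (-(2 * m)) ^ 2 + 4 * -(2 * m) - 1 ≤ (2 * m) ^ 2 - 1 := by nlinarith
    have h4 : ((-(2 * m)) ^ 2 + 2 * -(2 * m) - 1) ^ 2 ≤ ((2 * m) ^ 2) ^ 2 :=
      pow_le_pow_left₀ (by nlinarith) (by nlinarith) 2
    have h5 : ((-(2 * m)) ^ 2 + 4 * -(2 * m) - 1) * ((-(2 * m)) ^ 2 + 2 * -(2 * m) - 1) ^ 2 ≤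
        ((2 * m) ^ 2 - 1) * ((2 * m) ^ 2) ^ 2 :=
      mul_le_mul h3 h4 (by positivity) (by nlinarith)
    linarith
  obtain ⟨x, ⟨hx1, hx2⟩, hx⟩ := intermediate_value_Icc' (by linarith : -(2 * m) - 5 ≤ -(2 * m))
    (continuous_ff m).continuousOn ⟨h2, h1⟩
  have hA : 0 < qA x := by
    unfold qA
    nlinarith
  refine ⟨x, EQ.of_form hx, by linarith, ?_, ?_⟩
  · rw [abs_of_neg (by linarith)]
    linarith
  · unfold qf
    refine le_trans ?_ (le_abs_self _)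
    rw [le_div_iff₀ (by linarith)]
    have h3 : qA x ≤ -(2 * m * x - qA x) := by nlinarith
    have h4 : (2 * c) * qA x ≤ (-(1 + x)) * (-(2 * m * x - qA x)) :=
      mul_le_mul (by linarith) h3 hA.le (by linarith)
    linarith

end real

section embeddings

variable {K : Type*} [Field K]

/-- injectivity of the family of embeddings -/
theorem inj_of {c : ℝ} (hc : 3 < c) {p : Fin 3 → K} (hp : Rel p)
    {s : Fin 3 × Fin 2 → (K →+* ℂ)} (hB : ∀ i j, j ≠ i → c ≤ ‖s (i, 0) (p j)‖)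
    (hA : ∀ i j, j ≠ i → c * ‖s (i, 1) (p j)‖ ≤ 1) : Function.Injective s := by
  have hc0 : 0 < c := by linarith
  have third : ∀ i j : Fin 3, ∃ k, k ≠ i ∧ k ≠ j := by decide
  have mix : ∀ i j : Fin 3, s (i, 0) ≠ s (j, 1) := by
    intro i j h
    obtain ⟨k, hk1, hk2⟩ := third i j
    have h1 := hB i k hk1
    have h2 := hA j k hk2
    rw [← h] at h2
    nlinarith
  have other : ∀ i j : Fin 3, i ≠ j → ∀ k, k ≠ i ∨ k ≠ j := by decide
  have casB : ∀ i j : Fin 3, s (i, 0) = s (j, 0) → i = j := by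
    intro i j h
    by_contra hij
    have h1 : ∀ k, c ≤ ‖s (i, 0) (p k)‖ := by
      intro k
      rcases other i j hij k with h2 | h2
      · exact hB i k h2
      · rw [h]
        exact hB j k h2
    have h2 : ∀ k, ‖(s (i, 0) (p k))⁻¹‖ ≤ 1 / c := by
      intro k
      rw [norm_inv, one_div]
      exact inv_anti₀ hc0 (h1 k)
    have h3 := (hp.map (s (i, 0))).inv
    have h4 := congrArg norm h3
    rw [norm_one] at h4
    have h5 := norm_add_le ((s (i, 0) (p 0))⁻¹ + (s (i, 0) (p 1))⁻¹) (s (i, 0) (p 2))⁻¹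
    have h6 := norm_add_le ((s (i, 0) (p 0))⁻¹) (s (i, 0) (p 1))⁻¹
    have h7 := h2 0
    have h8 := h2 1
    have h9 := h2 2
    have h10 : 1 / c < 1 / 3 := one_div_lt_one_div_of_lt (by norm_num) hc
    linarith
  have casA : ∀ i j : Fin 3, s (i, 1) = s (j, 1) → i = j := by
    intro i j h
    by_contra hij
    have h1 : ∀ k, c * ‖s (i, 1) (p k)‖ ≤ 1 := by
      intro k
      rcases other i j hij k with h2 | h2
      · exact hA i k h2
      · rw [h]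
        exact hA j k h2
    have h3 := (hp.map (s (i, 1))).sum
    have h4 := congrArg norm h3
    rw [norm_neg, norm_one] at h4
    have h5 := norm_add_le (s (i, 1) (p 0) + s (i, 1) (p 1)) (s (i, 1) (p 2))
    have h6 := norm_add_le (s (i, 1) (p 0)) (s (i, 1) (p 1))
    have h7 := h1 0
    have h8 := h1 1
    have h9 := h1 2
    have h10 : 1 ≤ ‖s (i, 1) (p 0)‖ + ‖s (i, 1) (p 1)‖ + ‖s (i, 1) (p 2)‖ := by
      rw [← h4]
      linarith
    nlinarith
  rintro ⟨i, a⟩ ⟨j, b⟩ h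
  fin_cases a <;> fin_cases b
  · have h1 := casB i j h
    rw [h1]
  · exact absurd h (mix i j)
  · exact absurd h.symm (mix j i)
  · have h1 := casA i j h
    rw [h1]

/-- the minimal polynomial -/
theorem minpoly_eq [NumberField K] {m : ℤ} (hm : 11 ≤ m) {x : K} (h : EQ (m : K) x) :
    minpoly ℚ x = Qm m := by
  refine (minpoly.eq_of_irreducible_of_monic (Qm_irred hm) ?_ (Qm_monic m)).symm
  rw [aeval_Qm]
  exact h

/-- existence of embeddings -/
theorem exists_emb [NumberField K] {m : ℤ} (hm : 11 ≤ m) {x : K} (h : EQ (m : K) x) {z : ℂ}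
    (hz : EQ (m : ℂ) z) : ∃ s : K →+* ℂ, s x = z := by
  have h1 := NumberField.Embeddings.range_eval_eq_rootSet_minpoly K ℂ x
  have h2 : z ∈ (minpoly ℚ x).rootSet ℂ := by
    rw [minpoly_eq hm h, mem_rootSet]
    refine ⟨(Qm_monic m).ne_zero, ?_⟩
    rw [aeval_Qm]
    exact hz
  rw [← h1] at h2
  exact h2

theorem ofReal_w3 (m x : ℝ) (j : Fin 3) : ‖w3 (m : ℂ) (x : ℂ) j‖ = |w3 m x j| := by
  have h := w3_map Complex.ofRealHom m x j
  have h1 : ((w3 m x j : ℝ) : ℂ) = w3 (m : ℂ) (x : ℂ) j := h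
  rw [← h1, Complex.norm_real, Real.norm_eq_abs]

/-- the three real roots -/
theorem exists_roots {c m : ℝ} (hm : 11 ≤ m) (hc : 3 * c + 5 ≤ m) (hc0 : 0 ≤ c) :
    ∃ z : Fin 3 → ℝ, (∀ i, EQ m (z i)) ∧ ∀ i j, j ≠ i → c ≤ |w3 m (z i) j| := by
  obtain ⟨x0, a1, -, a3, a4⟩ := root0 hm hc
  obtain ⟨x1, b1, -, b3, b4⟩ := root1 hm hc hc0
  obtain ⟨x2, c1, -, c3, c4⟩ := root2 hm hc hc0
  refine ⟨![x0, x1, x2], ?_, ?_⟩
  · intro i
    fin_cases i
    · exact a1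
    · exact b1
    · exact c1
  · intro i j hij
    fin_cases i <;> fin_cases j
    · exact absurd rfl hij
    · exact a3
    · exact a4
    · exact b3
    · exact absurd rfl hij
    · exact b4
    · exact c3
    · exact c4
    · exact absurd rfl hij

/-- The embeddings of the sextic field. -/
theorem exists_s [NumberField K] {m : ℤ} (hm : 11 ≤ m) {c : ℝ} (hc : 3 * c + 5 ≤ m)
    (hc0 : 0 < c) {x : K} (h : EQ (m : K) x) :
    ∃ s : Fin 3 × Fin 2 → (K →+* ℂ), (∀ y, ∃ r : ℝ, s y x = r) ∧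
      (∀ i j, j ≠ i → c ≤ ‖s (i, 0) (w3 (m : K) x j)‖) ∧
      (∀ i j, j ≠ i → c * ‖s (i, 1) (w3 (m : K) x j)‖ ≤ 1) := by
  have hmr : (11 : ℝ) ≤ (m : ℝ) := by exact_mod_cast hm
  obtain ⟨z, hz1, hz2⟩ := exists_roots hmr hc hc0.le
  have hm0 : (m : ℂ) ≠ 0 := by
    have : m ≠ 0 := by omega
    exact_mod_cast this
  have hzc : ∀ i, EQ (m : ℂ) (z i : ℂ) := by
    intro i
    have h1 := (hz1 i).map Complex.ofRealHom
    simpa using h1
  choose sB hsB using fun i => exists_emb hm h (hzc i)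
  choose sA hsA using fun i => exists_emb hm h (hzc (sw i)).dual
  refine ⟨fun y => if y.2 = 0 then sB y.1 else sA y.1, ?_, ?_, ?_⟩
  · rintro ⟨i, a⟩
    fin_cases a
    · exact ⟨z i, hsB i⟩
    · refine ⟨-(z (sw i))⁻¹, ?_⟩
      show sA i x = _
      rw [hsA]
      push_cast
      rfl
  · intro i j hij
    show c ≤ ‖sB i (w3 (m : K) x j)‖
    rw [w3_map, hsB, map_intCast]
    have h1 := ofReal_w3 (m : ℝ) (z i) j
    have h2 := hz2 i j hij
    rw [← h1] at h2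
    simpa using h2
  · intro i j hij
    show c * ‖sA i (w3 (m : K) x j)‖ ≤ 1
    rw [w3_map, hsA, map_intCast, (hzc (sw i)).w3_dual two_ne_zero hm0, norm_neg, norm_inv]
    have h1 := ofReal_w3 (m : ℝ) (z (sw i)) (sw j)
    have h2 := hz2 (sw i) (sw j) (sw_ne hij)
    rw [← h1] at h2
    have h3 : c ≤ ‖w3 (m : ℂ) (z (sw i) : ℂ) (sw j)‖ := by simpa using h2
    rw [mul_inv_le_iff₀ (hc0.trans_le h3), one_mul]
    exact h3

end embeddings

end Pool.Agent.R388.SX
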