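import Pool.Agent.R388.SX.Cusp
set_option autoImplicit false

/-!
Families of functions on the loops.
-/

namespace Pool.Agent.R388.SX

open MeasureTheory Set Filter Topology

open Pool.Agent.TH826.UH

open Pool.Agent.TH826.MK (circ norm_circ contDiff_circ circ_add_one one_lin wd)

open Pool.Agent.TH690.UR (wn)

open Pool.Agent.R388.CU

open scoped Real

/-- the radius of the disc of parameters -/
noncomputable def rr : ℝ := 1 / 100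

theorem rr_pos : 0 < rr := by unfold rr; norm_num

/-- smooth families of functions -/
def Sm (u : ℂ → ℝ → ℂ) : Prop :=
  ∀ κ : ℂ, ‖κ‖ < rr → ∀ θ : ℝ, ContDiffAt ℝ 2 (fun p : ℂ × ℝ => u p.1 p.2) (κ, θ)

theorem sm_mm : Sm fun _ θ => mm θ := fun κ _ θ =>
  ((contDiff_circ (1 / 4)).comp contDiff_snd).contDiffAt

/-- the conditions on a parametrisation of `t` -/
structure TOk (T : ℂ → ℂ) : Prop where
  lt : ∀ κ : ℂ, ‖κ‖ < rr → ‖T κ‖ < 1 / 100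
  smooth : ∀ κ : ℂ, ‖κ‖ < rr → ContDiffAt ℝ 2 T κ

theorem sm_of {f : ℂ → ℂ} (hf : ∀ κ : ℂ, ‖κ‖ < rr → ContDiffAt ℝ 2 f κ) : Sm fun κ _ => f κ :=
  fun κ hκ θ => ContDiffAt.comp (κ, θ) (g := f) (f := fun p : ℂ × ℝ => p.1) (hf κ hκ)
    contDiffAt_fst

theorem sm_mul {u v : ℂ → ℝ → ℂ} (hu : Sm u) (hv : Sm v) : Sm fun κ θ => u κ θ * v κ θ :=
  fun κ hκ θ => (hu κ hκ θ).mul (hv κ hκ θ)

theorem sm_add {u v : ℂ → ℝ → ℂ} (hu : Sm u) (hv : Sm v) : Sm fun κ θ => u κ θ + v κ θ :=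
  fun κ hκ θ => (hu κ hκ θ).add (hv κ hκ θ)

theorem sm_sub {u v : ℂ → ℝ → ℂ} (hu : Sm u) (hv : Sm v) : Sm fun κ θ => u κ θ - v κ θ :=
  fun κ hκ θ => (hu κ hκ θ).sub (hv κ hκ θ)

theorem sm_neg {u : ℂ → ℝ → ℂ} (hu : Sm u) : Sm fun κ θ => -u κ θ :=
  fun κ hκ θ => (hu κ hκ θ).neg

theorem sm_inv {u : ℂ → ℝ → ℂ} (hu : Sm u) (h : ∀ κ : ℂ, ‖κ‖ < rr → ∀ θ, u κ θ ≠ 0) :
    Sm fun κ θ => (u κ θ)⁻¹ :=
  fun κ hκ θ => (hu κ hκ θ).inv (h κ hκ θ)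

theorem sm_const (c : ℂ) : Sm fun _ _ => c := fun _ _ _ => contDiffAt_const

theorem sm_id : Sm fun κ _ => κ := fun _ _ _ => contDiffAt_fst

theorem sm_one_mm : Sm fun _ θ => 1 + mm θ := sm_add (sm_const 1) sm_mm

theorem sm_nn {T : ℂ → ℂ} (hT : TOk T) : Sm fun κ θ => nn (T κ) θ := by
  have h1 : Sm fun κ _ => T κ := sm_of hT.smooth
  have hinv : Sm fun _ θ => (1 + mm θ)⁻¹ := sm_inv sm_one_mm fun _ _ θ => m1_ne θ
  have hbq : Sm fun κ θ => bq (T κ) θ := by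
    unfold bq
    refine sm_add (sm_const 1) (sm_add (sm_neg (sm_mul (sm_mul (sm_const 2) h1) ?_))
      (sm_mul ?_ ?_))
    · simp only [div_eq_mul_inv]
      exact sm_mul (sm_add (sm_const 2) sm_mm) (sm_inv (sm_mul sm_mm sm_one_mm)
        fun _ _ θ => mul_ne_zero (mm_ne θ) (m1_ne θ))
    · simp only [pow_two]
      exact sm_mul h1 h1
    · refine sm_inv ?_ fun _ _ θ => pow_ne_zero 2 (m1_ne θ)
      simp only [pow_two]
      exact sm_mul sm_one_mm sm_one_mm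
  have hbs : Sm fun κ θ => bs (T κ) θ := by
    intro κ hκ θ
    unfold bs
    have h2 : ContDiffAt ℝ 2 Complex.log (bq (T κ) θ) :=
      (Complex.contDiffAt_log (bq_slit (hT.lt κ hκ) θ)).restrict_scalars ℝ
    have h3 : ContDiffAt ℝ 2 (fun p : ℂ × ℝ => Complex.log (bq (T p.1) p.2)) (κ, θ) :=
      ContDiffAt.comp (κ, θ) (g := Complex.log) (f := fun p : ℂ × ℝ => bq (T p.1) p.2) h2
        (hbq κ hκ θ)
    exact (h3.div_const 2).cexp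
  unfold nn
  intro κ hκ θ
  exact ((((sm_add (sm_const 2) sm_mm) κ hκ θ).sub ((sm_mul h1 (sm_mul sm_mm hinv)) κ hκ θ)).neg.sub
    ((sm_mul sm_mm hbs) κ hκ θ)).div_const 2

theorem fam_of {u : ℂ → ℝ → ℂ} (hu : Sm u) (h : ∀ κ : ℂ, ‖κ‖ < rr → ∀ θ, u κ θ ≠ 0) :
    Fam rr u := ⟨hu, h⟩

theorem one_add_psi_ne' {F : Type*} [Field F] {p m : F} (hp : p ≠ 0) (hm : Ok p m) :
    1 + psi p m ≠ 0 := by
  intro h
  have h1 := one_add_psi_mul hm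
  rw [h, zero_mul] at h1
  have h2 : p * (m + 1) * (p * m + 1) ≠ 0 :=
    mul_ne_zero (mul_ne_zero hp (by rw [add_comm]; exact hm.u1)) hm.c
  exact h2 h1.symm

section psifam

variable {Q : ℂ → ℂ} (hQ : ∀ κ : ℂ, ‖κ‖ < rr → ContDiffAt ℝ 2 Q κ) {u : ℂ → ℝ → ℂ} (hu : Sm u)
  (hok : ∀ κ : ℂ, ‖κ‖ < rr → ∀ θ, Ok (Q κ) (u κ θ))

include hQ hu hok in
theorem sm_psi : Sm fun κ θ => psi (Q κ) (u κ θ) := by
  have h1 : Sm fun κ _ => Q κ := sm_of hQ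
  unfold psi
  simp only [div_eq_mul_inv, pow_two]
  exact sm_mul (sm_mul hu (sm_sub (sm_add (sm_mul (sm_mul h1 h1) hu) (sm_mul h1 h1)) (sm_const 1)))
    (sm_inv (sm_add (sm_mul (sm_add (sm_const 1) h1) hu) h1) fun κ hκ θ => (hok κ hκ θ).b)

include hQ hu hok in
theorem fam_psi : Fam rr fun κ θ => psi (Q κ) (u κ θ) :=
  fam_of (sm_psi hQ hu hok) fun κ hκ θ => psi_ne (hok κ hκ θ)

include hQ hu hok in
theorem fam_psi1 (h0 : ∀ κ : ℂ, ‖κ‖ < rr → Q κ ≠ 0) : Fam rr fun κ θ => 1 + psi (Q κ) (u κ θ) :=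
  fam_of (sm_add (sm_const 1) (sm_psi hQ hu hok)) fun κ hκ θ =>
    one_add_psi_ne' (h0 κ hκ) (hok κ hκ θ)

end psifam

section typeOne

/-- the parameter `t` in terms of `κ = 1 - p` -/
noncomputable def T1 (κ : ℂ) : ℂ := κ * ((1 - κ) ^ 2 * (2 - κ))⁻¹

theorem low1 {κ : ℂ} (hκ : ‖κ‖ < rr) : 99 / 100 ≤ ‖1 - κ‖ := by
  have h := low (a := 1) (b := -κ) (A := 1) (B := 1 / 100) (by rw [norm_one])
    (by rw [norm_neg]; exact hκ.le)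
  rw [sub_eq_add_neg]
  linarith

theorem low2 {κ : ℂ} (hκ : ‖κ‖ < rr) : 199 / 100 ≤ ‖2 - κ‖ := by
  have h := low (a := 2) (b := -κ) (A := 2) (B := 1 / 100) (by rw [Complex.norm_ofNat])
    (by rw [norm_neg]; exact hκ.le)
  rw [sub_eq_add_neg]
  linarith

theorem ne1 {κ : ℂ} (hκ : ‖κ‖ < rr) : 1 - κ ≠ 0 := ne_of_low (by norm_num) (low1 hκ)

theorem ne2 {κ : ℂ} (hκ : ‖κ‖ < rr) : 2 - κ ≠ 0 := ne_of_low (by norm_num) (low2 hκ)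

theorem tok1 : TOk T1 := by
  refine ⟨fun κ hκ => ?_, fun κ hκ => ?_⟩
  · unfold T1
    rw [norm_mul, norm_inv, norm_mul, norm_pow]
    have h1 := low1 hκ
    have h2 := low2 hκ
    have h3 : ‖κ‖ < 1 / 100 := hκ
    have h4 : 1 ≤ ‖1 - κ‖ ^ 2 * ‖2 - κ‖ := by
      have h5 : (99 / 100 : ℝ) ^ 2 ≤ ‖1 - κ‖ ^ 2 := pow_le_pow_left₀ (by norm_num) h1 2
      have h6 : (99 / 100 : ℝ) ^ 2 * (199 / 100) ≤ ‖1 - κ‖ ^ 2 * ‖2 - κ‖ :=
        mul_le_mul h5 h2 (by norm_num) (by positivity)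
      norm_num at h6 ⊢
      linarith
    have h5 : (‖1 - κ‖ ^ 2 * ‖2 - κ‖)⁻¹ ≤ 1 := inv_le_one_of_one_le₀ h4
    have h6 : ‖κ‖ * (‖1 - κ‖ ^ 2 * ‖2 - κ‖)⁻¹ ≤ ‖κ‖ * 1 :=
      mul_le_mul_of_nonneg_left h5 (norm_nonneg _)
    linarith
  · unfold T1
    exact contDiffAt_id.mul ((((contDiffAt_const.sub contDiffAt_id).pow 2).mul
      (contDiffAt_const.sub contDiffAt_id)).inv (mul_ne_zero (pow_ne_zero 2 (ne1 hκ)) (ne2 hκ)))

theorem sm_sub_id : ∀ κ : ℂ, ‖κ‖ < rr → ContDiffAt ℝ 2 (fun κ : ℂ => 1 - κ) κ :=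
  fun _ _ => contDiffAt_const.sub contDiffAt_id

/-- `|(1 - κ)² - 1| ≤ 1 / 40` -/
theorem sq_sub_one {κ : ℂ} (hκ : ‖κ‖ < rr) : ‖(1 - κ) ^ 2 - 1‖ ≤ 1 / 40 := by
  have e : (1 - κ) ^ 2 - 1 = κ * (κ - 2) := by ring
  rw [e, norm_mul]
  have h1 : ‖κ‖ < 1 / 100 := hκ
  have h2 : ‖κ - 2‖ ≤ 201 / 100 := by
    refine (norm_sub_le _ _).trans ?_
    rw [Complex.norm_ofNat]
    linarith
  have h3 : ‖κ‖ * ‖κ - 2‖ ≤ 1 / 100 * (201 / 100) :=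
    mul_le_mul h1.le h2 (norm_nonneg _) (by norm_num)
  linarith

theorem ok_mm1 {κ : ℂ} (hκ : ‖κ‖ < rr) (θ : ℝ) : Ok (1 - κ) (mm θ) := by
  have h0 := norm_mm θ
  have hk : ‖κ‖ < 1 / 100 := hκ
  have hs := sq_sub_one hκ
  refine ⟨mm_ne θ, m1_ne θ, ?_, ?_, ?_⟩
  · have e : (1 - κ) ^ 2 * mm θ + (1 - κ) ^ 2 - 1 = mm θ + ((1 - κ) ^ 2 - 1) * (1 + mm θ) := by
      ring
    rw [e]
    refine ne_of_low (A := 1 / 4 - 1 / 40 * (5 / 4)) (by norm_num) (low h0.ge ?_)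
    rw [norm_mul]
    exact mul_le_mul hs (up_m1 θ) (norm_nonneg _) (by norm_num)
  · have e : (1 + (1 - κ)) * mm θ + (1 - κ) = 1 + (2 * mm θ + -(κ * (1 + mm θ))) := by ring
    rw [e]
    refine ne_of_low (A := 1 - (1 / 2 + 1 / 100 * (5 / 4))) (by norm_num)
      (low (by rw [norm_one]) ?_)
    refine (norm_add_le _ _).trans ?_
    rw [norm_neg, norm_mul, norm_mul, Complex.norm_ofNat, h0]
    have := mul_le_mul hk.le (up_m1 θ) (norm_nonneg _) (by norm_num)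
    linarith
  · have e : (1 - κ) * mm θ + 1 = 1 + (mm θ + -(κ * mm θ)) := by ring
    rw [e]
    refine ne_of_low (A := 1 - (1 / 4 + 1 / 100 * (1 / 4))) (by norm_num)
      (low (by rw [norm_one]) ?_)
    refine (norm_add_le _ _).trans ?_
    rw [norm_neg, norm_mul, h0]
    linarith

theorem ok_nn1 {κ τ : ℂ} (hκ : ‖κ‖ < rr) (hτ : ‖τ‖ < 1 / 100) (θ : ℝ) : Ok (1 - κ) (nn τ θ) := by
  have h0 := norm_mm θ
  have hk : ‖κ‖ < 1 / 100 := hκ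
  have hs := sq_sub_one hκ
  have hc := nn_close hτ θ
  have hm1 := up_m1 θ
  have hl1 := low_m1 θ
  set δ := 1 + nn τ θ + mm θ with hδ
  have en : nn τ θ = -(1 + mm θ) + δ := by rw [hδ]; ring
  have en1 : 1 + nn τ θ = -mm θ + δ := by rw [hδ]; ring
  have u1 : ‖1 + nn τ θ‖ ≤ 1 / 4 + 1 / 25 := by
    rw [en1]
    refine (norm_add_le _ _).trans ?_
    rw [norm_neg, h0]
    linarith
  have u0 : ‖nn τ θ‖ ≤ 5 / 4 + 1 / 25 := by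
    rw [en]
    refine (norm_add_le _ _).trans ?_
    rw [norm_neg]
    linarith
  have l0 : 3 / 4 - 1 / 25 ≤ ‖nn τ θ‖ := by
    rw [en]
    exact low (by rw [norm_neg]; exact hl1) hc
  have l1 : 1 / 4 - 1 / 25 ≤ ‖1 + nn τ θ‖ := by
    rw [en1]
    exact low (by rw [norm_neg, h0]) hc
  refine ⟨ne_of_low (by norm_num) l0, ne_of_low (by norm_num) l1, ?_, ?_, ?_⟩
  · have e : (1 - κ) ^ 2 * nn τ θ + (1 - κ) ^ 2 - 1 =
        nn τ θ + ((1 - κ) ^ 2 - 1) * (1 + nn τ θ) := by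
      ring
    rw [e]
    refine ne_of_low (A := 3 / 4 - 1 / 25 - 1 / 40 * (1 / 4 + 1 / 25)) (by norm_num) (low l0 ?_)
    rw [norm_mul]
    exact mul_le_mul hs u1 (norm_nonneg _) (by norm_num)
  · have e : (1 + (1 - κ)) * nn τ θ + (1 - κ) =
        -1 + (2 * (1 + nn τ θ) + -(κ * (1 + nn τ θ))) := by ring
    rw [e]
    refine ne_of_low (A := 1 - (2 * (1 / 4 + 1 / 25) + 1 / 100 * (1 / 4 + 1 / 25))) (by norm_num)
      (low (by rw [norm_neg, norm_one]) ?_)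
    refine (norm_add_le _ _).trans ?_
    rw [norm_neg, norm_mul, norm_mul, Complex.norm_ofNat]
    have := mul_le_mul hk.le u1 (norm_nonneg _) (by norm_num)
    linarith
  · have e : (1 - κ) * nn τ θ + 1 = (1 + nn τ θ) + -(κ * nn τ θ) := by ring
    rw [e]
    refine ne_of_low (A := 1 / 4 - 1 / 25 - 1 / 100 * (5 / 4 + 1 / 25)) (by norm_num)
      (low l1 ?_)
    rw [norm_neg, norm_mul]
    exact mul_le_mul hk.le u0 (norm_nonneg _) (by norm_num)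

/-- the families for `p → 1` -/
noncomputable def M1 (κ : ℂ) (θ : ℝ) : ℂ := psi (1 - κ) (mm θ)

/-- see `M1` -/
noncomputable def N1 (κ : ℂ) (θ : ℝ) : ℂ := psi (1 - κ) (nn (T1 κ) θ)

theorem fam_M1 : Fam rr M1 :=
  fam_psi (Q := fun κ => 1 - κ) sm_sub_id sm_mm fun _ hκ θ => ok_mm1 hκ θ

theorem fam_N1 : Fam rr N1 :=
  fam_psi (Q := fun κ => 1 - κ) sm_sub_id (sm_nn tok1) fun κ hκ θ => ok_nn1 hκ (tok1.lt κ hκ) θ

theorem fam_M11 : Fam rr fun κ θ => 1 + M1 κ θ :=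
  fam_psi1 (Q := fun κ => 1 - κ) sm_sub_id sm_mm (fun _ hκ θ => ok_mm1 hκ θ) fun _ hκ => ne1 hκ

theorem fam_N11 : Fam rr fun κ θ => 1 + N1 κ θ :=
  fam_psi1 (Q := fun κ => 1 - κ) sm_sub_id (sm_nn tok1)
    (fun κ hκ θ => ok_nn1 hκ (tok1.lt κ hκ) θ) fun _ hκ => ne1 hκ

/-- the entries of the dual symbol, multiplied by `t'` -/
noncomputable def X1 (κ : ℂ) (θ : ℝ) : ℂ :=
  -((1 + M1 κ θ) * (1 + M1 κ θ) * (1 + N1 κ θ) / (N1 κ θ * M1 κ θ))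

/-- see `X1` -/
noncomputable def Y1 (κ : ℂ) (θ : ℝ) : ℂ :=
  -((1 + N1 κ θ) * (1 + N1 κ θ) * (1 + M1 κ θ) / (N1 κ θ * M1 κ θ))

theorem fam_X1 : Fam rr X1 :=
  (((fam_M11.mul fam_M11).mul fam_N11).div (fam_N1.mul fam_M1)).neg

theorem fam_Y1 : Fam rr Y1 :=
  (((fam_N11.mul fam_N11).mul fam_M11).div (fam_N1.mul fam_M1)).neg

end typeOne

section typeTwo

/-- the parameter `t` in terms of `κ = 1 / p` -/
noncomputable def T2 (κ : ℂ) : ℂ := κ ^ 2 * (κ - 1) * (1 + κ)⁻¹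

theorem low1' {κ : ℂ} (hκ : ‖κ‖ < rr) : 99 / 100 ≤ ‖1 + κ‖ := by
  have h := low (a := 1) (b := κ) (A := 1) (B := 1 / 100) (by rw [norm_one]) hκ.le
  linarith

theorem ne1' {κ : ℂ} (hκ : ‖κ‖ < rr) : 1 + κ ≠ 0 := ne_of_low (by norm_num) (low1' hκ)

theorem tok2 : TOk T2 := by
  refine ⟨fun κ hκ => ?_, fun κ hκ => ?_⟩
  · unfold T2
    rw [norm_mul, norm_mul, norm_inv, norm_pow]
    have h1 := low1' hκ
    have h3 : ‖κ‖ < 1 / 100 := hκ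
    have h2 : ‖κ - 1‖ ≤ 101 / 100 := by
      refine (norm_sub_le _ _).trans ?_
      rw [norm_one]
      linarith
    have h4 : ‖1 + κ‖⁻¹ ≤ 2 := by
      rw [inv_le_comm₀ (by linarith) (by norm_num)]
      linarith
    have h5 : ‖κ‖ ^ 2 ≤ (1 / 100) ^ 2 := pow_le_pow_left₀ (norm_nonneg _) h3.le 2
    have h6 : ‖κ‖ ^ 2 * ‖κ - 1‖ ≤ (1 / 100) ^ 2 * (101 / 100) :=
      mul_le_mul h5 h2 (norm_nonneg _) (by norm_num)
    have h7 : ‖κ‖ ^ 2 * ‖κ - 1‖ * ‖1 + κ‖⁻¹ ≤ (1 / 100) ^ 2 * (101 / 100) * 2 :=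
      mul_le_mul h6 h4 (by positivity) (by norm_num)
    refine h7.trans_lt ?_
    norm_num
  · unfold T2
    exact ((contDiffAt_id.pow 2).mul (contDiffAt_id.sub contDiffAt_const)).mul
      ((contDiffAt_const.add contDiffAt_id).inv (ne1' hκ))

/-- Nonvanishing conditions for large `p = 1 / κ`. -/
structure Ok2 (κ u : ℂ) : Prop where
  u0 : u ≠ 0
  u1 : 1 + u ≠ 0
  a : u + 1 - κ ^ 2 ≠ 0
  b : (1 + κ) * u + 1 ≠ 0
  c : u + κ ≠ 0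

theorem Ok2.ok {κ u : ℂ} (h : Ok2 κ u) (hκ : κ ≠ 0) : Ok κ⁻¹ u := by
  refine ⟨h.u0, h.u1, ?_, ?_, ?_⟩
  · have e : κ⁻¹ ^ 2 * u + κ⁻¹ ^ 2 - 1 = (u + 1 - κ ^ 2) / κ ^ 2 := by
      field_simp
    rw [e]
    exact div_ne_zero h.a (pow_ne_zero 2 hκ)
  · have e : (1 + κ⁻¹) * u + κ⁻¹ = ((1 + κ) * u + 1) / κ := by
      field_simp
      ring
    rw [e]
    exact div_ne_zero h.b hκ
  · have e : κ⁻¹ * u + 1 = (u + κ) / κ := by
      field_simp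
    rw [e]
    exact div_ne_zero h.c hκ

/-- `κ ψ_{1/κ} (u)` -/
noncomputable def g2 (κ u : ℂ) : ℂ := u * (u + 1 - κ ^ 2) / ((1 + κ) * u + 1)

/-- `κ (1 + ψ_{1/κ} (u))` -/
noncomputable def h2 (κ u : ℂ) : ℂ := (1 + u) * (u + κ) / ((1 + κ) * u + 1)

theorem psi_g2 {κ u : ℂ} (h : Ok2 κ u) (hκ : κ ≠ 0) : psi κ⁻¹ u = κ⁻¹ * g2 κ u := by
  have h1 := h.b
  have e2 : κ⁻¹ ^ 2 * u + κ⁻¹ ^ 2 - 1 = (u + 1 - κ ^ 2) / κ ^ 2 := by
    field_simp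
  have e1 : (1 + κ⁻¹) * u + κ⁻¹ = ((1 + κ) * u + 1) / κ := by
    field_simp
    ring
  unfold psi g2
  rw [e1, e2]
  generalize (1 + κ) * u + 1 = b at *
  field_simp

theorem psi_h2 {κ u : ℂ} (h : Ok2 κ u) (hκ : κ ≠ 0) : 1 + psi κ⁻¹ u = κ⁻¹ * h2 κ u := by
  have h1 := h.b
  rw [psi_g2 h hκ]
  unfold g2 h2
  have e : (κ * ((1 + κ) * u + 1) + u * (u + 1 - κ ^ 2)) = (1 + u) * (u + κ) := by ring
  rw [← e]
  generalize (1 + κ) * u + 1 = b at *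
  field_simp

theorem ok2_mm {κ : ℂ} (hκ : ‖κ‖ < rr) (θ : ℝ) : Ok2 κ (mm θ) := by
  have h0 := norm_mm θ
  have hk : ‖κ‖ < 1 / 100 := hκ
  have hk2 : ‖κ ^ 2‖ ≤ 1 / 10000 := by
    rw [norm_pow]
    have := pow_le_pow_left₀ (norm_nonneg κ) hk.le 2
    norm_num at this
    exact this
  refine ⟨mm_ne θ, m1_ne θ, ?_, ?_, ?_⟩
  · have e : mm θ + 1 - κ ^ 2 = (1 + mm θ) + -κ ^ 2 := by ring
    rw [e]
    exact ne_of_low (A := 3 / 4 - 1 / 10000) (by norm_num) (low (low_m1 θ)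
      (by rw [norm_neg]; exact hk2))
  · have e : (1 + κ) * mm θ + 1 = (1 + mm θ) + κ * mm θ := by ring
    rw [e]
    refine ne_of_low (A := 3 / 4 - 1 / 100 * (1 / 4)) (by norm_num) (low (low_m1 θ) ?_)
    rw [norm_mul, h0]
    linarith
  · exact ne_of_low (A := 1 / 4 - 1 / 100) (by norm_num) (low h0.ge hk.le)

theorem ok2_nn {κ τ : ℂ} (hκ : ‖κ‖ < rr) (hτ : ‖τ‖ < 1 / 100) (θ : ℝ) : Ok2 κ (nn τ θ) := by
  have h0 := norm_mm θ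
  have hk : ‖κ‖ < 1 / 100 := hκ
  have hk2 : ‖κ ^ 2‖ ≤ 1 / 10000 := by
    rw [norm_pow]
    have := pow_le_pow_left₀ (norm_nonneg κ) hk.le 2
    norm_num at this
    exact this
  have hc := nn_close hτ θ
  have hm1 := up_m1 θ
  have hl1 := low_m1 θ
  set δ := 1 + nn τ θ + mm θ with hδ
  have en : nn τ θ = -(1 + mm θ) + δ := by rw [hδ]; ring
  have en1 : 1 + nn τ θ = -mm θ + δ := by rw [hδ]; ring
  have u0 : ‖nn τ θ‖ ≤ 5 / 4 + 1 / 25 := by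
    rw [en]
    refine (norm_add_le _ _).trans ?_
    rw [norm_neg]
    linarith
  have l0 : 3 / 4 - 1 / 25 ≤ ‖nn τ θ‖ := by
    rw [en]
    exact low (by rw [norm_neg]; exact hl1) hc
  have l1 : 1 / 4 - 1 / 25 ≤ ‖1 + nn τ θ‖ := by
    rw [en1]
    exact low (by rw [norm_neg, h0]) hc
  refine ⟨ne_of_low (by norm_num) l0, ne_of_low (by norm_num) l1, ?_, ?_, ?_⟩
  · have e : nn τ θ + 1 - κ ^ 2 = (1 + nn τ θ) + -κ ^ 2 := by ring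
    rw [e]
    exact ne_of_low (A := 1 / 4 - 1 / 25 - 1 / 10000) (by norm_num) (low l1
      (by rw [norm_neg]; exact hk2))
  · have e : (1 + κ) * nn τ θ + 1 = (1 + nn τ θ) + κ * nn τ θ := by ring
    rw [e]
    refine ne_of_low (A := 1 / 4 - 1 / 25 - 1 / 100 * (5 / 4 + 1 / 25)) (by norm_num) (low l1 ?_)
    rw [norm_mul]
    exact mul_le_mul hk.le u0 (norm_nonneg _) (by norm_num)
  · exact ne_of_low (A := 3 / 4 - 1 / 25 - 1 / 100) (by norm_num) (low l0 hk.le)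

section g2fam

variable {u : ℂ → ℝ → ℂ} (hu : Sm u) (hok : ∀ κ : ℂ, ‖κ‖ < rr → ∀ θ, Ok2 κ (u κ θ))

include hu hok

theorem fam_g2 : Fam rr fun κ θ => g2 κ (u κ θ) := by
  refine fam_of ?_ fun κ hκ θ => div_ne_zero (mul_ne_zero (hok κ hκ θ).u0 (hok κ hκ θ).a)
    (hok κ hκ θ).b
  unfold g2
  simp only [div_eq_mul_inv, pow_two]
  exact sm_mul (sm_mul hu (sm_sub (sm_add hu (sm_const 1)) (sm_mul sm_id sm_id)))
    (sm_inv (sm_add (sm_mul (sm_add (sm_const 1) sm_id) hu) (sm_const 1))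
      fun κ hκ θ => (hok κ hκ θ).b)

theorem fam_h2 : Fam rr fun κ θ => h2 κ (u κ θ) := by
  refine fam_of ?_ fun κ hκ θ => div_ne_zero (mul_ne_zero (hok κ hκ θ).u1 (hok κ hκ θ).c)
    (hok κ hκ θ).b
  unfold h2
  simp only [div_eq_mul_inv]
  exact sm_mul (sm_mul (sm_add (sm_const 1) hu) (sm_add hu sm_id))
    (sm_inv (sm_add (sm_mul (sm_add (sm_const 1) sm_id) hu) (sm_const 1))
      fun κ hκ θ => (hok κ hκ θ).b)

end g2fam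

/-- the families for `p → ∞` -/
noncomputable def M2 (κ : ℂ) (θ : ℝ) : ℂ := g2 κ (mm θ)

/-- see `M2` -/
noncomputable def N2 (κ : ℂ) (θ : ℝ) : ℂ := g2 κ (nn (T2 κ) θ)

/-- see `M2` -/
noncomputable def M22 (κ : ℂ) (θ : ℝ) : ℂ := h2 κ (mm θ)

/-- see `M2` -/
noncomputable def N22 (κ : ℂ) (θ : ℝ) : ℂ := h2 κ (nn (T2 κ) θ)

theorem fam_M2 : Fam rr M2 := fam_g2 sm_mm fun _ hκ θ => ok2_mm hκ θ

theorem fam_N2 : Fam rr N2 := fam_g2 (sm_nn tok2) fun κ hκ θ => ok2_nn hκ (tok2.lt κ hκ) θ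

theorem fam_M22 : Fam rr M22 := fam_h2 sm_mm fun _ hκ θ => ok2_mm hκ θ

theorem fam_N22 : Fam rr N22 := fam_h2 (sm_nn tok2) fun κ hκ θ => ok2_nn hκ (tok2.lt κ hκ) θ

/-- the constant factor -/
noncomputable def c2 (κ : ℂ) : ℂ := (1 + κ) ^ 2 / (1 - κ) ^ 2

theorem fam_c2 : Fam rr fun κ _ => c2 κ := by
  refine fam_of ?_ fun κ hκ _ => div_ne_zero (pow_ne_zero 2 (ne1' hκ)) (pow_ne_zero 2 (ne1 hκ))
  unfold c2
  simp only [div_eq_mul_inv, pow_two]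
  exact sm_mul (sm_mul (sm_add (sm_const 1) sm_id) (sm_add (sm_const 1) sm_id))
    (sm_inv (sm_mul (sm_sub (sm_const 1) sm_id) (sm_sub (sm_const 1) sm_id))
      fun κ hκ _ => mul_ne_zero (ne1 hκ) (ne1 hκ))

/-- the entries of the dual symbol -/
noncomputable def X2 (κ : ℂ) (θ : ℝ) : ℂ :=
  c2 κ * (M22 κ θ * M22 κ θ * N22 κ θ / (N2 κ θ * M2 κ θ))

/-- see `X2` -/
noncomputable def Y2 (κ : ℂ) (θ : ℝ) : ℂ :=
  c2 κ * (N22 κ θ * N22 κ θ * M22 κ θ / (N2 κ θ * M2 κ θ))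

theorem fam_X2 : Fam rr X2 :=
  fam_c2.mul (((fam_M22.mul fam_M22).mul fam_N22).div (fam_N2.mul fam_M2))

theorem fam_Y2 : Fam rr Y2 :=
  fam_c2.mul (((fam_N22.mul fam_N22).mul fam_M22).div (fam_N2.mul fam_M2))

end typeTwo

end Pool.Agent.R388.SX
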