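import Pool.Agent.R388.SX.Emb
set_option autoImplicit false

/-!
The main results on elliptic curves over sextic fields.
-/

namespace Pool.Agent.R388.SX

open Polynomial NumberField Set

open scoped ComplexConjugate

open Pool.Agent.TH826.MK (KQ symb Unramified Torus)

section unramified

variable {K : Type*} [Field K]

theorem del_ne {t : Kˣ} {p : Fin 3 → Kˣ} (h : Nonempty (Opn (t : K) (cf p) →+* ℂ)) :
    del (t : K) (cf p) ≠ 0 := by
  obtain ⟨e⟩ := h
  intro h0
  have h1 := (isUnit_del (t : K) (cf p)).map e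
  have h2 : e (toO (t : K) (cf p) (del (t : K) (cf p))) = 0 := by
    have h3 : toO (t : K) (cf p) (del (t : K) (cf p)) = toO (t : K) (cf p) 0 :=
      congrArg (toO (t : K) (cf p)) h0
    rw [h3, map_zero, map_zero]
  exact h1.ne_zero h2

/-- the embedding into the function field -/
theorem exists_hom {t : Kˣ} {p : Fin 3 → Kˣ} (h : Nonempty (Opn (t : K) (cf p) →+* ℂ))
    {L : Type*} [Field L] [Algebra (CR (t : K)) L] [IsFractionRing (CR (t : K)) L] :
    ∃ f : Opn (t : K) (cf p) →+* L, ∀ b, f (toO (t : K) (cf p) b) = algebraMap (CR (t : K)) L b := by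
  have hinj : Function.Injective (algebraMap (CR (t : K)) L) := IsFractionRing.injective _ _
  have hne : algebraMap (CR (t : K)) L (del (t : K) (cf p)) ≠ 0 := by
    rw [Ne, map_eq_zero_iff _ hinj]
    exact del_ne h
  exact ⟨IsLocalization.Away.lift (del (t : K) (cf p)) (isUnit_iff_ne_zero.2 hne),
    fun b => IsLocalization.Away.lift_eq (del (t : K) (cf p)) (isUnit_iff_ne_zero.2 hne) b⟩

theorem unram [NumberField K] {p : Fin 3 → Kˣ} {t : Kˣ} (hp : Rel (cf p)) (ht : (t : K) = tp (cf p))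
    (hi : ∀ i, IsIntegral ℤ (p i : K)) (hi' : ∀ i, IsIntegral ℤ ((p i : K)⁻¹))
    {L : Type*} [Field L] (f : Opn (t : K) (cf p) →+* L) (i : Fin 3) (c : Fin 2) :
    KQ.map 2 f (symb (ent t p i c)) ∈ Unramified L 2 := by
  have ht1 : IsIntegral ℤ (t : K) := by
    rw [ht]
    unfold tp
    rw [mul_inv, mul_inv]
    exact ((hi' 0).mul (hi' 1)).mul (hi' 2)
  have ht2 : IsIntegral ℤ (t : K)⁻¹ := by
    rw [ht]
    unfold tp
    rw [inv_inv]
    exact ((hi 0).mul (hi 1)).mul (hi 2)
  refine symb_unramified f i c (hp.okp two_ne_zero i) (by rw [ht]; exact hp.ht i) ?_ ?_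
  · unfold tu
    push_cast
    exact (((hi i).pow 5).mul (ht1.pow 2)).neg
  · unfold tu
    push_cast
    rw [inv_neg, mul_inv, ← inv_pow, ← inv_pow]
    exact (((hi' i).pow 5).mul (ht2.pow 2)).neg

theorem disc_ne {t : Kˣ} (s : K →+* ℂ) (h : ‖s (t : K)‖ < 1 / 100) : (crv (t : K)).Δ ≠ 0 := by
  rw [disc_crv]
  refine mul_ne_zero (pow_ne_zero 5 t.ne_zero) fun h0 => ?_
  have h1 := congrArg s h0
  rw [map_zero, map_sub, map_sub, map_mul, map_one, map_ofNat, map_pow] at h1
  have h2 : s (t : K) ^ 2 + -(11 * s (t : K)) = 1 := by linear_combination h1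
  have h3 := congrArg norm h2
  rw [norm_one] at h3
  have h4 := norm_add_le (s (t : K) ^ 2) (-(11 * s (t : K)))
  rw [norm_neg, norm_mul, norm_pow, Complex.norm_ofNat, h3] at h4
  have h5 : ‖s (t : K)‖ ^ 2 ≤ (1 / 100) ^ 2 := pow_le_pow_left₀ (norm_nonneg _) h.le 2
  linarith

end unramified

section sextic

variable {K : Type*} [Field K] [NumberField K]

/-- all embeddings are determined by the value at `x` -/
theorem emb_ext {m : ℤ} (hm : 11 ≤ m) {x : K} (h : EQ (m : K) x)
    (hd : Module.finrank ℚ K = 6) {s s' : K →+* ℂ} (hs : s x = s' x) : s = s' := by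
  have h1 : IntermediateField.adjoin ℚ {x} = ⊤ := by
    rw [Field.primitive_element_iff_minpoly_natDegree_eq, minpoly_eq hm h, Qm_natDegree, hd]
  have h2 := (Field.primitive_element_iff_algHom_eq_of_eval' ℚ ℂ
    (fun _ => IsAlgClosed.splits _) x).1 h1
  have h3 : s.toRatAlgHom = s'.toRatAlgHom := h2 hs
  ext y
  exact DFunLike.congr_fun h3 y

theorem bij_of {s : Fin 3 × Fin 2 → (K →+* ℂ)} (hs : Function.Injective s)
    (hd : Module.finrank ℚ K = 6) : Function.Bijective s := by
  classical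
  rw [Fintype.bijective_iff_injective_and_card]
  refine ⟨hs, ?_⟩
  rw [NumberField.Embeddings.card K ℂ, hd]
  decide

end sextic

end Pool.Agent.R388.SX
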