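import Mathlib
set_option autoImplicit false

/-!
Irreducibility of the sextic polynomials.
-/

namespace Pool.Agent.R388.SX

open Polynomial

/-- The polynomial `X⁶ + 8 X⁵ + (17 - 4 m²) X⁴ - (17 - 4 m²) X² + 8 X - 1`. -/
noncomputable def Pm (m : ℤ) : ℤ[X] :=
  X ^ 6 + C 8 * X ^ 5 + C (17 - 4 * m ^ 2) * X ^ 4 - C (17 - 4 * m ^ 2) * X ^ 2 + C 8 * X - 1

variable (m : ℤ)

theorem Pm_natDegree : (Pm m).natDegree = 6 := by
  unfold Pm
  compute_degree!

theorem Pm_monic : (Pm m).Monic := by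
  unfold Pm
  monicity!

theorem Pm_coeff0 : (Pm m).coeff 0 = -1 := by
  simp [Pm, coeff_X, coeff_one]

theorem Pm_coeff1 : (Pm m).coeff 1 = 8 := by
  simp only [Pm, coeff_add, coeff_sub, coeff_C_mul, coeff_X_pow, coeff_X, coeff_one]
  norm_num

theorem Pm_coeff2 : (Pm m).coeff 2 = -(17 - 4 * m ^ 2) := by
  simp only [Pm, coeff_add, coeff_sub, coeff_C_mul, coeff_X_pow, coeff_X, coeff_one]
  norm_num

theorem Pm_coeff3 : (Pm m).coeff 3 = 0 := by
  simp only [Pm, coeff_add, coeff_sub, coeff_C_mul, coeff_X_pow, coeff_X, coeff_one]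
  norm_num

theorem Pm_coeff4 : (Pm m).coeff 4 = 17 - 4 * m ^ 2 := by
  simp only [Pm, coeff_add, coeff_sub, coeff_C_mul, coeff_X_pow, coeff_X, coeff_one]
  norm_num

theorem Pm_coeff5 : (Pm m).coeff 5 = 8 := by
  simp only [Pm, coeff_add, coeff_sub, coeff_C_mul, coeff_X_pow, coeff_X, coeff_one]
  norm_num

theorem cmul (f g : ℤ[X]) (k : ℕ) :
    (f * g).coeff k = ∑ i ∈ Finset.range (k + 1), f.coeff i * g.coeff (k - i) := by
  rw [coeff_mul, Finset.Nat.sum_antidiagonal_eq_sum_range_succ (fun i j => f.coeff i * g.coeff j)]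

theorem case1 {c f0 f1 f2 f3 f4 g0 : ℤ} (k0 : f0 * g0 = -1) (k1 : f0 + f1 * g0 = 8)
    (k2 : f1 + f2 * g0 = -c) (k3 : f2 + f3 * g0 = 0) (k4 : f3 + f4 * g0 = c)
    (k5 : f4 + g0 = 8) : False := by
  rcases Int.mul_eq_neg_one_iff_eq_one_or_neg_one.1 k0 with ⟨rfl, rfl⟩ | ⟨rfl, rfl⟩
  · omega
  · omega

theorem case2 {M f0 f1 f2 f3 g0 g1 m : ℤ} (hm : 11 ≤ m) (hM : M = m ^ 2) (k0 : f0 * g0 = -1)
    (k1 : f0 * g1 + f1 * g0 = 8) (k2 : f0 + f1 * g1 + f2 * g0 = -(17 - 4 * M))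
    (k3 : f1 + f2 * g1 + f3 * g0 = 0) (k4 : f2 + f3 * g1 + g0 = 17 - 4 * M)
    (k5 : f3 + g1 = 8) : False := by
  have hM2 : 121 ≤ M := by
    rw [hM]
    nlinarith
  rcases Int.mul_eq_neg_one_iff_eq_one_or_neg_one.1 k0 with ⟨rfl, rfl⟩ | ⟨rfl, rfl⟩
  · -- `g0 = -1`
    have h3 : f3 = 8 - g1 := by linarith
    have h1 : f1 = g1 - 8 := by linarith
    have h2 : f2 = 17 - 4 * M + 1 - (8 - g1) * g1 := by rw [h3] at k4; linarith
    have h4 : g1 * (g1 ^ 2 - 8 * g1 + (20 - 4 * M)) = 16 := by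
      rw [h1, h2, h3] at k3
      linear_combination k3
    have hd : g1 ∣ 16 := ⟨_, h4.symm⟩
    have hle : g1 ≤ 16 := Int.le_of_dvd (by norm_num) hd
    have hge : -16 ≤ g1 := by
      have := Int.le_of_dvd (by norm_num) ((neg_dvd (a := g1)).2 hd)
      linarith
    interval_cases g1 <;> omega
  · have h3 : f3 = 8 - g1 := by linarith
    have h1 : f1 = 8 + g1 := by linarith
    have h2 : f2 = 17 - 4 * M - 1 - (8 - g1) * g1 := by rw [h3] at k4; linarith
    have h4 : g1 ^ 2 = 4 * M - 16 := by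
      rw [h1, h2] at k2
      linarith
    have h5 : g1 ^ 2 < (2 * m) ^ 2 := by
      rw [h4, hM]
      linarith
    have h6 : (2 * m - 1) ^ 2 < g1 ^ 2 := by
      rw [h4, hM]
      linarith
    have h7 := abs_lt_of_sq_lt_sq h5 (by linarith)
    have h8 := sq_lt_sq.1 h6
    rw [abs_of_pos (by linarith : 0 < 2 * m - 1)] at h8
    omega

theorem case3 {M f0 f1 f2 g0 g1 g2 : ℤ} (k0 : f0 * g0 = -1) (k1 : f0 * g1 + f1 * g0 = 8)
    (k2 : f0 * g2 + f1 * g1 + f2 * g0 = -(17 - 4 * M)) (k3 : f0 + f1 * g2 + f2 * g1 + g0 = 0)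
    (k4 : f1 + f2 * g2 + g1 = 17 - 4 * M) (k5 : f2 + g2 = 8) : False := by
  rcases Int.mul_eq_neg_one_iff_eq_one_or_neg_one.1 k0 with ⟨rfl, rfl⟩ | ⟨rfl, rfl⟩
  · have h1 : f1 = g1 - 8 := by linarith
    have h2 : f2 = 8 - g2 := by linarith
    have h3 : g2 = g1 := by
      rw [h1, h2] at k3
      linarith
    rw [h1, h2, h3] at k2 k4
    have h4 : g1 = 4 := by linarith
    rw [h4] at k4
    omega
  · have h1 : f1 = g1 + 8 := by linarith
    have h2 : f2 = 8 - g2 := by linarith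
    have h3 : g2 = -g1 := by
      rw [h1, h2] at k3
      linarith
    rw [h1, h2, h3] at k2 k4
    have h4 : g1 = -4 := by linarith
    rw [h4] at k4
    omega

variable {m}

/-- irreducibility over the integers -/
theorem Pm_irred (hm : 11 ≤ m) : Irreducible (Pm m) := by
  rw [(Pm_monic m).irreducible_iff_natDegree']
  refine ⟨fun h => ?_, fun f g hf hg hfg hmem => ?_⟩
  · have := Pm_natDegree m
    rw [h, natDegree_one] at this
    omega
  · have hdeg := hf.natDegree_mul hg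
    rw [hfg, Pm_natDegree] at hdeg
    rw [Pm_natDegree, Finset.mem_Ioc] at hmem
    have c0 := cmul f g 0
    have c1 := cmul f g 1
    have c2 := cmul f g 2
    have c3 := cmul f g 3
    have c4 := cmul f g 4
    have c5 := cmul f g 5
    rw [hfg] at c0 c1 c2 c3 c4 c5
    rw [Pm_coeff0] at c0
    rw [Pm_coeff1] at c1
    rw [Pm_coeff2] at c2
    rw [Pm_coeff3] at c3
    rw [Pm_coeff4] at c4
    rw [Pm_coeff5] at c5
    simp only [Finset.sum_range_succ, Finset.sum_range_zero, zero_add, Nat.sub_zero, Nat.sub_self,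
      Nat.reduceSub] at c0 c1 c2 c3 c4 c5
    have hgz : ∀ k, g.natDegree < k → g.coeff k = 0 := fun k hk => coeff_eq_zero_of_natDegree_lt hk
    have hfz : ∀ k, f.natDegree < k → f.coeff k = 0 := fun k hk => coeff_eq_zero_of_natDegree_lt hk
    have hg1 : g.coeff g.natDegree = 1 := hg.coeff_natDegree
    have hf1 : f.coeff f.natDegree = 1 := hf.coeff_natDegree
    obtain ⟨h1, h2⟩ := hmem
    have h3 : g.natDegree = 1 ∨ g.natDegree = 2 ∨ g.natDegree = 3 := by omega
    rcases h3 with h3 | h3 | h3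
    · have h4 : f.natDegree = 5 := by omega
      rw [h3] at hg1 hgz
      rw [h4] at hf1 hfz
      rw [hg1, hgz 2 (by norm_num)] at c2
      rw [hg1] at c1
      rw [hg1, hgz 2 (by norm_num), hgz 3 (by norm_num)] at c3
      rw [hg1, hgz 2 (by norm_num), hgz 3 (by norm_num), hgz 4 (by norm_num)] at c4
      rw [hg1, hgz 2 (by norm_num), hgz 3 (by norm_num), hgz 4 (by norm_num),
        hgz 5 (by norm_num), hf1] at c5
      exact case1 (f0 := f.coeff 0) (g0 := g.coeff 0) (f1 := f.coeff 1) (f2 := f.coeff 2)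
        (f3 := f.coeff 3) (f4 := f.coeff 4) (c := 17 - 4 * m ^ 2) (by linarith) (by linarith)
        (by linarith) (by linarith) (by linarith) (by linarith)
    · have h4 : f.natDegree = 4 := by omega
      rw [h3] at hg1 hgz
      rw [h4] at hf1 hfz
      rw [hg1] at c2
      rw [hg1, hgz 3 (by norm_num)] at c3
      rw [hg1, hgz 3 (by norm_num), hgz 4 (by norm_num), hf1] at c4
      rw [hg1, hgz 3 (by norm_num), hgz 4 (by norm_num),
        hgz 5 (by norm_num), hf1, hfz 5 (by norm_num)] at c5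
      exact case2 (f0 := f.coeff 0) (g0 := g.coeff 0) (f1 := f.coeff 1) (f2 := f.coeff 2)
        (f3 := f.coeff 3) (g1 := g.coeff 1) hm rfl (by linarith) (by linarith)
        (by linarith) (by linarith) (by linarith) (by linarith)
    · have h4 : f.natDegree = 3 := by omega
      rw [h3] at hg1 hgz
      rw [h4] at hf1 hfz
      rw [hg1, hf1] at c3
      rw [hg1, hgz 4 (by norm_num), hf1, hfz 4 (by norm_num)] at c4
      rw [hg1, hgz 4 (by norm_num),
        hgz 5 (by norm_num), hf1, hfz 4 (by norm_num), hfz 5 (by norm_num)] at c5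
      exact case3 (f0 := f.coeff 0) (g0 := g.coeff 0) (f1 := f.coeff 1) (f2 := f.coeff 2)
        (g2 := g.coeff 2) (g1 := g.coeff 1) (M := m ^ 2) (by linarith) (by linarith)
        (by linarith) (by linarith) (by linarith) (by linarith)

/-- The polynomial over the rational numbers. -/
noncomputable def Qm (m : ℤ) : ℚ[X] := (Pm m).map (Int.castRingHom ℚ)

theorem Qm_monic (m : ℤ) : (Qm m).Monic := (Pm_monic m).map _

theorem Qm_natDegree (m : ℤ) : (Qm m).natDegree = 6 := by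
  unfold Qm
  rw [(Pm_monic m).natDegree_map, Pm_natDegree]

theorem Qm_irred (hm : 11 ≤ m) : Irreducible (Qm m) :=
  ((Pm_monic m).irreducible_iff_irreducible_map_fraction_map (K := ℚ)).1 (Pm_irred hm)

theorem aeval_Qm {F : Type*} [Field F] [Algebra ℚ F] (m : ℤ) (x : F) : aeval x (Qm m) =
    x ^ 6 + 8 * x ^ 5 + (17 - 4 * m ^ 2) * x ^ 4 - (17 - 4 * m ^ 2) * x ^ 2 + 8 * x - 1 := by
  simp [Qm, Pm, map_ofNat]

end Pool.Agent.R388.SX
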