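import Pool.Agent.R388.SX.Fams
set_option autoImplicit false

/-!
The regulators near the cusps.
-/

namespace Pool.Agent.R388.SX

open MeasureTheory Set Filter Topology

open Pool.Agent.TH826.UH

open Pool.Agent.TH826.MK (circ norm_circ contDiff_circ circ_add_one one_lin wd)

open Pool.Agent.TH690.UR (wn)

open Pool.Agent.R388.CU (Fam)

open scoped Real

/-- the regulator of the dual symbol -/
noncomputable def R0 (q t : ℂ) : ℝ :=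
  pr (fun θ => dl (psi q (nn t θ)) (psi q (mm θ))) (fun θ => dl (psi q (mm θ)) (psi q (nn t θ)))

/-- the regulator of the symbol -/
noncomputable def R1 (q t : ℂ) : ℝ :=
  pr (fun θ => psi q (nn t θ)) (fun θ => psi q (mm θ))

section zero

theorem nn_zero (θ : ℝ) : nn 0 θ = -(1 + mm θ) := by
  have h1 : bq 0 θ = 1 := by
    unfold bq
    ring
  have h2 : bs 0 θ = 1 := by
    unfold bs
    rw [h1, Complex.log_one, zero_div, Complex.exp_zero]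
  unfold nn
  rw [h2]
  ring

theorem T1_zero : T1 0 = 0 := by
  unfold T1
  rw [zero_mul]

theorem T2_zero : T2 0 = 0 := by
  unfold T2
  ring

theorem two_m_ne (θ : ℝ) : 1 + 2 * mm θ ≠ 0 := by
  refine ne_of_low (A := 1 - 1 / 2) (by norm_num) (low (by rw [norm_one]) ?_)
  rw [norm_mul, Complex.norm_ofNat, norm_mm]
  norm_num

theorem M1_zero (θ : ℝ) : M1 0 θ = mm θ ^ 2 / (1 + 2 * mm θ) := by
  unfold M1 psi
  congr 1 <;> ring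

theorem N1_zero (θ : ℝ) : N1 0 θ = -((1 + mm θ) ^ 2 / (1 + 2 * mm θ)) := by
  have h1 := two_m_ne θ
  unfold N1 psi
  rw [T1_zero, nn_zero]
  have e : (1 + (1 - 0)) * -(1 + mm θ) + (1 - 0) = -(1 + 2 * mm θ) := by ring
  rw [e, div_neg]
  congr 2
  ring

theorem X1_zero (θ : ℝ) : X1 0 θ = N1 0 θ := by
  have h1 := two_m_ne θ
  have h2 := mm_ne θ
  have h3 := m1_ne θ
  have e1 : 1 + mm θ ^ 2 / (1 + 2 * mm θ) = (1 + mm θ) ^ 2 / (1 + 2 * mm θ) := by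
    rw [eq_div_iff h1, add_mul, div_mul_cancel₀ _ h1]
    ring
  have e2 : 1 + -((1 + mm θ) ^ 2 / (1 + 2 * mm θ)) = -(mm θ ^ 2 / (1 + 2 * mm θ)) := by
    rw [← neg_div, ← neg_div, eq_div_iff h1, add_mul, div_mul_cancel₀ _ h1]
    ring
  unfold X1
  rw [N1_zero, M1_zero, e1, e2]
  field_simp

theorem Y1_zero (θ : ℝ) : Y1 0 θ = M1 0 θ := by
  have h1 := two_m_ne θ
  have h2 := mm_ne θ
  have h3 := m1_ne θ
  have e1 : 1 + mm θ ^ 2 / (1 + 2 * mm θ) = (1 + mm θ) ^ 2 / (1 + 2 * mm θ) := by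
    rw [eq_div_iff h1, add_mul, div_mul_cancel₀ _ h1]
    ring
  have e2 : 1 + -((1 + mm θ) ^ 2 / (1 + 2 * mm θ)) = -(mm θ ^ 2 / (1 + 2 * mm θ)) := by
    rw [← neg_div, ← neg_div, eq_div_iff h1, add_mul, div_mul_cancel₀ _ h1]
    ring
  unfold Y1
  rw [N1_zero, M1_zero, e1, e2]
  field_simp

theorem M2_zero (θ : ℝ) : M2 0 θ = mm θ := by
  have h3 := m1_ne θ
  unfold M2 g2
  have e1 : mm θ * (mm θ + 1 - 0 ^ 2) / ((1 + 0) * mm θ + 1) =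
      mm θ * (1 + mm θ) / (1 + mm θ) := by
    congr 1 <;> ring
  rw [e1, mul_div_cancel_right₀ _ h3]

theorem N2_zero (θ : ℝ) : N2 0 θ = -(1 + mm θ) := by
  have h2 := mm_ne θ
  unfold N2 g2
  rw [T2_zero, nn_zero]
  have e1 : -(1 + mm θ) * (-(1 + mm θ) + 1 - 0 ^ 2) / ((1 + 0) * -(1 + mm θ) + 1) =
      -(1 + mm θ) * (-mm θ) / (-mm θ) := by
    congr 1 <;> ring
  rw [e1, mul_div_cancel_right₀ _ (neg_ne_zero.2 h2)]

/-- winding numbers around points outside of the circle -/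
theorem wn_out {R : ℝ} (hR : 0 < R) {β : ℂ} (hβ : R < ‖β‖) :
    wn (fun s => circ R s - β) = 0 := by
  have h1 := (one_lin hR hβ.ne').wind
  have hnz := nz_circ_sub hR hβ.ne'
  rw [integral_Icc_eq_integral_Ioc, ← intervalIntegral.integral_of_le zero_le_one] at h1
  have h2 := Complex.imCLM.intervalIntegral_comp_comm
    (hnz.cont_ld.intervalIntegrable (μ := volume) 0 1)
  rw [h1] at h2
  unfold wn
  refine h2.trans ?_
  unfold wd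
  rw [if_neg (not_lt.2 hβ.le)]
  simp

theorem wn_c (c : ℂ) : wn (fun _ : ℝ => c) = 0 := by
  unfold wn
  simp

theorem nz_mm : NZ mm := nz_circ (by norm_num)

theorem wn_mm : wn mm = 2 * π := Pool.Agent.TH690.UE.wn_circ (by norm_num)

theorem nz_m1 : NZ fun θ => 1 + mm θ := by
  have h := nz_circ_sub (R := 1 / 4) (by norm_num) (c := -1) (by rw [norm_neg, norm_one]; norm_num)
  have e : (fun s => circ (1 / 4) s - (-1)) = fun θ => 1 + mm θ := by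
    funext s
    unfold mm
    ring
  rw [← e]
  exact h

theorem wn_m1 : wn (fun θ => 1 + mm θ) = 0 := by
  have h := wn_out (R := 1 / 4) (by norm_num) (β := -1) (by rw [norm_neg, norm_one]; norm_num)
  have e : (fun s => circ (1 / 4) s - (-1)) = fun θ => 1 + mm θ := by
    funext s
    unfold mm
    ring
  rw [← e]
  exact h

theorem nz_m2 : NZ fun θ => 1 + 2 * mm θ := by
  have h := nz_circ_sub (R := 1 / 4) (by norm_num) (c := -(1 / 2))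
    (by rw [norm_neg, norm_div, norm_one, Complex.norm_ofNat]; norm_num)
  have h2 := Pool.Agent.TH690.UR.nz_mul_const (c := 2) (by norm_num) h
  have e : (fun s => 2 * (circ (1 / 4) s - (-(1 / 2)))) = fun θ => 1 + 2 * mm θ := by
    funext s
    unfold mm
    ring
  rw [← e]
  exact h2

theorem wn_m2 : wn (fun θ => 1 + 2 * mm θ) = 0 := by
  have hb : (1 / 4 : ℝ) < ‖(-(1 / 2) : ℂ)‖ := by
    rw [norm_neg, norm_div, norm_one, Complex.norm_ofNat]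
    norm_num
  have h := wn_out (R := 1 / 4) (by norm_num) hb
  have hn := nz_circ_sub (R := 1 / 4) (by norm_num) hb.ne'
  have h2 := Pool.Agent.TH690.UE.wn_mul (Pool.Agent.TH690.UR.nz_const (c := 2) (by norm_num)) hn
  rw [h, wn_c, add_zero] at h2
  have e : (fun s => 2 * (circ (1 / 4) s - (-(1 / 2)))) = fun θ => 1 + 2 * mm θ := by
    funext s
    unfold mm
    ring
  rw [← e]
  exact h2

theorem wn_div {G H : ℝ → ℂ} (hG : NZ G) (hH : NZ H) :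
    wn (fun θ => G θ / H θ) = wn G - wn H := by
  have h := Pool.Agent.TH690.UE.wn_mul (hG.div hH) hH
  have e : (fun s => G s / H s * H s) = G := by
    funext s
    rw [div_mul_cancel₀ _ (hH.ne_zero s)]
  rw [e] at h
  linarith

theorem wn_sq {G : ℝ → ℂ} (hG : NZ G) : wn (fun θ => G θ ^ 2) = 2 * wn G := by
  have h := Pool.Agent.TH690.UE.wn_mul hG hG
  have e : (fun s => G s * G s) = fun s => G s ^ 2 := by
    funext s
    ring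
  rw [e] at h
  linarith

theorem nz_sq {G : ℝ → ℂ} (hG : NZ G) : NZ (fun θ => G θ ^ 2) :=
  ⟨hG.smooth.pow 2, fun θ => pow_ne_zero 2 (hG.ne_zero θ)⟩

theorem wn_neg {G : ℝ → ℂ} (hG : NZ G) : wn (fun θ => -G θ) = wn G := by
  have h := Pool.Agent.TH690.UE.wn_mul (Pool.Agent.TH690.UR.nz_const (c := -1) (by norm_num)) hG
  have e : (fun s => -1 * G s) = fun s => -G s := by
    funext s
    ring
  rw [e, wn_c, zero_add] at h
  exact h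

theorem wn_X1 : wn (X1 0) = 0 := by
  have e : X1 0 = fun θ => -((1 + mm θ) ^ 2 / (1 + 2 * mm θ)) := by
    funext θ
    rw [X1_zero, N1_zero]
  rw [e, wn_neg ((nz_sq nz_m1).div nz_m2), wn_div (nz_sq nz_m1) nz_m2, wn_sq nz_m1, wn_m1, wn_m2]
  ring

theorem wn_Y1 : wn (Y1 0) = 4 * π := by
  have e : Y1 0 = fun θ => mm θ ^ 2 / (1 + 2 * mm θ) := by
    funext θ
    rw [Y1_zero, M1_zero]
  rw [e, wn_div (nz_sq nz_mm) nz_m2, wn_sq nz_mm, wn_mm, wn_m2]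
  ring

theorem wn_M2 : wn (M2 0) = 2 * π := by
  have e : M2 0 = mm := by
    funext θ
    rw [M2_zero]
  rw [e, wn_mm]

theorem wn_N2 : wn (N2 0) = 0 := by
  have e : N2 0 = fun θ => -(1 + mm θ) := by
    funext θ
    rw [N2_zero]
  rw [e, wn_neg nz_m1, wn_m1]

end zero

section general

/-- the minus logarithm of the parameter -/
noncomputable def Lg (T : ℂ → ℂ) (κ : ℂ) : ℝ := -Real.log ‖T κ‖

theorem tendsto_Lg {T : ℂ → ℂ} (hT : ContinuousAt T 0) (h0 : T 0 = 0)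
    (hne : ∀ᶠ κ in 𝓝[≠] (0 : ℂ), T κ ≠ 0) : Tendsto (Lg T) (𝓝[≠] 0) atTop := by
  have h1 : Tendsto (fun κ : ℂ => ‖T κ‖) (𝓝[≠] 0) (𝓝[>] 0) := by
    refine tendsto_nhdsWithin_iff.2 ⟨?_, ?_⟩
    · have h2 : Tendsto (fun κ : ℂ => ‖T κ‖) (𝓝 0) (𝓝 ‖T 0‖) := hT.norm
      rw [h0, norm_zero] at h2
      exact h2.mono_left nhdsWithin_le_nhds
    · filter_upwards [hne] with κ hκ
      exact norm_pos_iff.2 hκ
  exact tendsto_neg_atBot_atTop.comp (Real.tendsto_log_nhdsGT_zero.comp h1)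

theorem ev_lt : ∀ᶠ κ in 𝓝[≠] (0 : ℂ), ‖κ‖ < rr := by
  have : ∀ᶠ κ in 𝓝 (0 : ℂ), ‖κ‖ < rr := by
    have h6 : ContinuousAt (fun κ : ℂ => ‖κ‖) 0 := continuous_norm.continuousAt
    have h7 : ‖(0 : ℂ)‖ < rr := by rw [norm_zero]; exact rr_pos
    exact h6.eventually (gt_mem_nhds h7)
  exact this.filter_mono nhdsWithin_le_nhds

variable {G H : ℂ → ℝ → ℂ} {T : ℂ → ℂ}

theorem tendsto_bdd (hG : Fam rr G) (hH : Fam rr H) (hT : Tendsto (Lg T) (𝓝[≠] 0) atTop) :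
    Tendsto (fun κ => pr (G κ) (H κ) / Lg T κ) (𝓝[≠] 0) (𝓝 0) := by
  have h1 : Tendsto (fun κ => pr (G κ) (H κ)) (𝓝[≠] 0) (𝓝 (pr (G 0) (H 0))) :=
    (hG.pr_continuousAt rr_pos hH).tendsto.mono_left nhdsWithin_le_nhds
  exact h1.div_atTop hT

theorem tendsto_gen (hG : Fam rr G) (hH : Fam rr H) (hT : Tendsto (Lg T) (𝓝[≠] 0) atTop)
    {c : ℂ → ℂ} {e : ℂ → ℝ} {a : ℝ} (he : ContinuousAt e 0)
    (hc : ∀ᶠ κ in 𝓝[≠] (0 : ℂ), c κ ≠ 0 ∧ Real.log ‖c κ‖ = a * Real.log ‖T κ‖ + e κ) :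
    Tendsto (fun κ => pr (fun θ => (c κ)⁻¹ * G κ θ) (fun θ => (c κ)⁻¹ * H κ θ) / Lg T κ)
      (𝓝[≠] 0) (𝓝 (-a * (wn (G 0) - wn (H 0)))) := by
  have hW : ContinuousAt (fun κ => wn (G κ) - wn (H κ)) 0 :=
    (hG.wn_continuousAt rr_pos).sub (hH.wn_continuousAt rr_pos)
  have h1 : ContinuousAt (fun κ => pr (G κ) (H κ) + e κ * (wn (G κ) - wn (H κ))) 0 :=
    (hG.pr_continuousAt rr_pos hH).add (he.mul hW)
  have h2 : Tendsto (fun κ => (pr (G κ) (H κ) + e κ * (wn (G κ) - wn (H κ))) / Lg T κ) (𝓝[≠] 0)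
      (𝓝 0) := (h1.tendsto.mono_left nhdsWithin_le_nhds).div_atTop hT
  have h3 : Tendsto (fun κ => -a * (wn (G κ) - wn (H κ))) (𝓝[≠] 0)
      (𝓝 (-a * (wn (G 0) - wn (H 0)))) :=
    (hW.const_mul (-a)).tendsto.mono_left nhdsWithin_le_nhds
  have h4 := h2.add h3
  rw [zero_add] at h4
  refine h4.congr' ?_
  filter_upwards [hc, ev_lt, hT.eventually_gt_atTop 0] with κ h5 h6 h7
  rw [Pool.Agent.R388.CU.pr_scale (hG.nz h6) (hH.nz h6) h5.1, h5.2]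
  have h8 : Lg T κ ≠ 0 := h7.ne'
  have h9 : Real.log ‖T κ‖ = -Lg T κ := by
    unfold Lg
    rw [neg_neg]
  rw [h9]
  field_simp
  ring

end general

section typeOne

theorem okp1 {κ : ℂ} (hκ : ‖κ‖ < rr) (h0 : κ ≠ 0) : Okp (1 - κ) := by
  refine ⟨ne1 hκ, ?_, ?_⟩
  · have e : 1 + (1 - κ) = 2 - κ := by ring
    rw [e]
    exact ne2 hκ
  · have e : 1 - (1 - κ) = κ := by ring
    rw [e]
    exact h0

theorem T1_mul {κ : ℂ} (hκ : ‖κ‖ < rr) :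
    T1 κ * (1 - κ) ^ 2 * (1 + (1 - κ)) = 1 - (1 - κ) := by
  have h1 := ne1 hκ
  have h2 := ne2 hκ
  have e : 1 + (1 - κ) = 2 - κ := by ring
  unfold T1
  rw [e]
  field_simp
  ring

theorem T1_ne {κ : ℂ} (hκ : ‖κ‖ < rr) (h0 : κ ≠ 0) : T1 κ ≠ 0 :=
  mul_ne_zero h0 (inv_ne_zero (mul_ne_zero (pow_ne_zero 2 (ne1 hκ)) (ne2 hκ)))

theorem tendsto_T1 : Tendsto (Lg T1) (𝓝[≠] 0) atTop := by
  refine tendsto_Lg ((tok1.smooth 0 (by rw [norm_zero]; exact rr_pos)).continuousAt) T1_zero ?_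
  filter_upwards [ev_lt, self_mem_nhdsWithin] with κ h1 h2
  exact T1_ne h1 h2

/-- formula for the dual symbol -/
theorem dl_eq {N M t : ℂ} (h : (1 + N) * (1 + M) * (1 + N + M) = t * N * M) (ht : t ≠ 0)
    (hN : N ≠ 0) (hM : M ≠ 0) :
    dl N M = t⁻¹ * -((1 + M) * (1 + M) * (1 + N) / (N * M)) := by
  have hS := sum_ne h ht hN hM
  unfold dl
  rw [mul_neg, neg_inj, inv_mul_eq_div, div_div, div_eq_div_iff hS
    (mul_ne_zero (mul_ne_zero hN hM) ht)]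
  linear_combination (-(1 + M)) * h

theorem dl_X1 {κ : ℂ} (hκ : ‖κ‖ < rr) (h0 : κ ≠ 0) (θ : ℝ) :
    dl (N1 κ θ) (M1 κ θ) = (tt (1 - κ))⁻¹ * X1 κ θ ∧
    dl (M1 κ θ) (N1 κ θ) = (tt (1 - κ))⁻¹ * Y1 κ θ := by
  have hp := okp1 hκ h0
  have hn := ok_nn1 hκ (tok1.lt κ hκ) θ
  have hm := ok_mm1 hκ θ
  have h1 := psi_eqn hp (T1_mul hκ) (nn_eqn (tok1.lt κ hκ) θ) hn hm
  have h2 : (1 + M1 κ θ) * (1 + N1 κ θ) * (1 + M1 κ θ + N1 κ θ) =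
      tt (1 - κ) * M1 κ θ * N1 κ θ := by
    unfold M1 N1
    linear_combination h1
  constructor
  · exact dl_eq h1 (tt_ne hp) (psi_ne hn) (psi_ne hm)
  · rw [dl_eq h2 (tt_ne hp) (psi_ne hm) (psi_ne hn)]
    unfold Y1
    rw [mul_comm (M1 κ θ) (N1 κ θ)]

theorem R0_one {κ : ℂ} (hκ : ‖κ‖ < rr) (h0 : κ ≠ 0) : R0 (1 - κ) (T1 κ) =
    pr (fun θ => (tt (1 - κ))⁻¹ * X1 κ θ) (fun θ => (tt (1 - κ))⁻¹ * Y1 κ θ) := by
  have e1 : (fun θ => dl (psi (1 - κ) (nn (T1 κ) θ)) (psi (1 - κ) (mm θ))) =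
      fun θ => (tt (1 - κ))⁻¹ * X1 κ θ := funext fun θ => (dl_X1 hκ h0 θ).1
  have e2 : (fun θ => dl (psi (1 - κ) (mm θ)) (psi (1 - κ) (nn (T1 κ) θ))) =
      fun θ => (tt (1 - κ))⁻¹ * Y1 κ θ := funext fun θ => (dl_X1 hκ h0 θ).2
  unfold R0
  rw [e1, e2]

theorem log_tt {κ : ℂ} (hκ : ‖κ‖ < rr) (h0 : κ ≠ 0) :
    Real.log ‖tt (1 - κ)‖ = 2 * Real.log ‖T1 κ‖ + 5 * Real.log ‖1 - κ‖ := by
  have h1 := ne1 hκ
  have h2 := ne2 hκ
  have e : tt (1 - κ) = -((1 - κ) ^ 5 * T1 κ ^ 2) := by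
    have e1 : 1 + (1 - κ) = 2 - κ := by ring
    unfold tt T1
    rw [e1]
    field_simp
    ring
  rw [e, norm_neg, norm_mul, norm_pow, norm_pow, Real.log_mul (pow_ne_zero _ (norm_ne_zero_iff.2 h1))
    (pow_ne_zero _ (norm_ne_zero_iff.2 (T1_ne hκ h0))), Real.log_pow, Real.log_pow]
  push_cast
  ring

theorem tendsto_R0_one :
    Tendsto (fun κ => R0 (1 - κ) (T1 κ) / Lg T1 κ) (𝓝[≠] 0) (𝓝 (8 * π)) := by
  have he : ContinuousAt (fun κ : ℂ => 5 * Real.log ‖1 - κ‖) 0 := by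
    refine continuousAt_const.mul (ContinuousAt.log ?_ ?_)
    · exact (continuousAt_const.sub continuousAt_id).norm
    · rw [sub_zero, norm_one]
      exact one_ne_zero
  have h := tendsto_gen (c := fun κ => tt (1 - κ)) (a := 2) fam_X1 fam_Y1 tendsto_T1 he (by
    filter_upwards [ev_lt, self_mem_nhdsWithin] with κ h1 h2
    exact ⟨tt_ne (okp1 h1 h2), log_tt h1 h2⟩)
  rw [wn_X1, wn_Y1] at h
  have e : -2 * (0 - 4 * π) = 8 * π := by ring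
  rw [e] at h
  refine h.congr' ?_
  filter_upwards [ev_lt, self_mem_nhdsWithin] with κ h1 h2
  rw [R0_one h1 h2]

theorem tendsto_R1_one :
    Tendsto (fun κ => R1 (1 - κ) (T1 κ) / Lg T1 κ) (𝓝[≠] 0) (𝓝 0) :=
  tendsto_bdd fam_N1 fam_M1 tendsto_T1

end typeOne

section typeTwo

theorem okp2 {κ : ℂ} (hκ : ‖κ‖ < rr) (h0 : κ ≠ 0) : Okp κ⁻¹ := by
  have h1 := ne1 hκ
  have h2 := ne1' hκ
  refine ⟨inv_ne_zero h0, ?_, ?_⟩
  · have e : 1 + κ⁻¹ = (1 + κ) / κ := by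
      field_simp
      ring
    rw [e]
    exact div_ne_zero h2 h0
  · have e : 1 - κ⁻¹ = -((1 - κ) / κ) := by
      field_simp
      ring
    rw [e]
    exact neg_ne_zero.2 (div_ne_zero h1 h0)

theorem T2_mul {κ : ℂ} (hκ : ‖κ‖ < rr) (h0 : κ ≠ 0) :
    T2 κ * κ⁻¹ ^ 2 * (1 + κ⁻¹) = 1 - κ⁻¹ := by
  have h2 := ne1' hκ
  have e : 1 + κ⁻¹ = (1 + κ) / κ := by
    field_simp
    ring
  unfold T2
  rw [e]
  field_simp

theorem T2_ne {κ : ℂ} (hκ : ‖κ‖ < rr) (h0 : κ ≠ 0) : T2 κ ≠ 0 := by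
  have h1 := ne1 hκ
  have h2 := ne1' hκ
  refine mul_ne_zero (mul_ne_zero (pow_ne_zero 2 h0) ?_) (inv_ne_zero h2)
  intro h
  exact h1 (by linear_combination -h)

theorem tendsto_T2 : Tendsto (Lg T2) (𝓝[≠] 0) atTop := by
  refine tendsto_Lg ((tok2.smooth 0 (by rw [norm_zero]; exact rr_pos)).continuousAt) T2_zero ?_
  filter_upwards [ev_lt, self_mem_nhdsWithin] with κ h1 h2
  exact T2_ne h1 h2

theorem tt_inv {κ : ℂ} (hκ : ‖κ‖ < rr) (h0 : κ ≠ 0) :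
    tt κ⁻¹ = -(κ⁻¹ * (1 - κ) ^ 2 / (1 + κ) ^ 2) := by
  have h2 := ne1' hκ
  have e : 1 + κ⁻¹ = (1 + κ) / κ := by
    field_simp
    ring
  unfold tt
  rw [e]
  field_simp
  ring

theorem dl_X2 {κ : ℂ} (hκ : ‖κ‖ < rr) (h0 : κ ≠ 0) (θ : ℝ) :
    dl (psi κ⁻¹ (nn (T2 κ) θ)) (psi κ⁻¹ (mm θ)) = X2 κ θ ∧
    dl (psi κ⁻¹ (mm θ)) (psi κ⁻¹ (nn (T2 κ) θ)) = Y2 κ θ := by
  have hp := okp2 hκ h0
  have hn2 := ok2_nn hκ (tok2.lt κ hκ) θ
  have hm2 := ok2_mm hκ θ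
  have hn := hn2.ok h0
  have hm := hm2.ok h0
  have h1 := psi_eqn hp (T2_mul hκ h0) (nn_eqn (tok2.lt κ hκ) θ) hn hm
  have h2 : (1 + psi κ⁻¹ (mm θ)) * (1 + psi κ⁻¹ (nn (T2 κ) θ)) *
      (1 + psi κ⁻¹ (mm θ) + psi κ⁻¹ (nn (T2 κ) θ)) =
      tt κ⁻¹ * psi κ⁻¹ (mm θ) * psi κ⁻¹ (nn (T2 κ) θ) := by
    linear_combination h1
  have a1 := ne1 hκ
  have a2 := ne1' hκ
  have b1 : M2 κ θ ≠ 0 := fam_M2.ne κ hκ θ
  have b2 : N2 κ θ ≠ 0 := fam_N2.ne κ hκ θ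
  constructor
  · rw [dl_eq h1 (tt_ne hp) (psi_ne hn) (psi_ne hm), psi_h2 hn2 h0, psi_h2 hm2 h0, psi_g2 hn2 h0,
      psi_g2 hm2 h0, tt_inv hκ h0]
    show (-(κ⁻¹ * (1 - κ) ^ 2 / (1 + κ) ^ 2))⁻¹ * -(κ⁻¹ * M22 κ θ * (κ⁻¹ * M22 κ θ) *
      (κ⁻¹ * N22 κ θ) / (κ⁻¹ * N2 κ θ * (κ⁻¹ * M2 κ θ))) = _
    unfold X2 c2
    generalize M2 κ θ = u at *
    generalize N2 κ θ = v at *
    generalize 1 + κ = b at *
    generalize 1 - κ = c at *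
    field_simp
  · rw [dl_eq h2 (tt_ne hp) (psi_ne hm) (psi_ne hn), psi_h2 hn2 h0, psi_h2 hm2 h0, psi_g2 hn2 h0,
      psi_g2 hm2 h0, tt_inv hκ h0]
    show (-(κ⁻¹ * (1 - κ) ^ 2 / (1 + κ) ^ 2))⁻¹ * -(κ⁻¹ * N22 κ θ * (κ⁻¹ * N22 κ θ) *
      (κ⁻¹ * M22 κ θ) / (κ⁻¹ * M2 κ θ * (κ⁻¹ * N2 κ θ))) = _
    unfold Y2 c2
    generalize M2 κ θ = u at *
    generalize N2 κ θ = v at *
    generalize 1 + κ = b at *
    generalize 1 - κ = c at *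
    field_simp

theorem R0_two {κ : ℂ} (hκ : ‖κ‖ < rr) (h0 : κ ≠ 0) : R0 κ⁻¹ (T2 κ) = pr (X2 κ) (Y2 κ) := by
  have e1 : (fun θ => dl (psi κ⁻¹ (nn (T2 κ) θ)) (psi κ⁻¹ (mm θ))) = X2 κ :=
    funext fun θ => (dl_X2 hκ h0 θ).1
  have e2 : (fun θ => dl (psi κ⁻¹ (mm θ)) (psi κ⁻¹ (nn (T2 κ) θ))) = Y2 κ :=
    funext fun θ => (dl_X2 hκ h0 θ).2
  unfold R0
  rw [e1, e2]

theorem R1_two {κ : ℂ} (hκ : ‖κ‖ < rr) (h0 : κ ≠ 0) : R1 κ⁻¹ (T2 κ) =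
    pr (fun θ => κ⁻¹ * N2 κ θ) (fun θ => κ⁻¹ * M2 κ θ) := by
  have e1 : (fun θ => psi κ⁻¹ (nn (T2 κ) θ)) = fun θ => κ⁻¹ * N2 κ θ :=
    funext fun θ => psi_g2 (ok2_nn hκ (tok2.lt κ hκ) θ) h0
  have e2 : (fun θ => psi κ⁻¹ (mm θ)) = fun θ => κ⁻¹ * M2 κ θ :=
    funext fun θ => psi_g2 (ok2_mm hκ θ) h0
  unfold R1
  rw [e1, e2]

theorem log_T2 {κ : ℂ} (hκ : ‖κ‖ < rr) (h0 : κ ≠ 0) :
    Real.log ‖κ‖ = 1 / 2 * Real.log ‖T2 κ‖ +
      (Real.log ‖1 + κ‖ - Real.log ‖κ - 1‖) / 2 := by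
  have h1 := ne1 hκ
  have h2 := ne1' hκ
  have h3 : κ - 1 ≠ 0 := fun h => h1 (by linear_combination -h)
  unfold T2
  rw [norm_mul, norm_mul, norm_pow, norm_inv, Real.log_mul
    (mul_ne_zero (pow_ne_zero _ (norm_ne_zero_iff.2 h0)) (norm_ne_zero_iff.2 h3))
    (inv_ne_zero (norm_ne_zero_iff.2 h2)), Real.log_mul (pow_ne_zero _ (norm_ne_zero_iff.2 h0))
    (norm_ne_zero_iff.2 h3), Real.log_inv, Real.log_pow]
  push_cast
  ring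

theorem tendsto_R1_two :
    Tendsto (fun κ => R1 κ⁻¹ (T2 κ) / Lg T2 κ) (𝓝[≠] 0) (𝓝 π) := by
  have he : ContinuousAt (fun κ : ℂ => (Real.log ‖1 + κ‖ - Real.log ‖κ - 1‖) / 2) 0 := by
    refine ((ContinuousAt.log ?_ ?_).sub (ContinuousAt.log ?_ ?_)).div_const 2
    · exact (continuousAt_const.add continuousAt_id).norm
    · rw [add_zero, norm_one]
      exact one_ne_zero
    · exact (continuousAt_id.sub continuousAt_const).norm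
    · rw [zero_sub, norm_neg, norm_one]
      exact one_ne_zero
  have h := tendsto_gen (c := fun κ => κ) (a := 1 / 2) fam_N2 fam_M2 tendsto_T2 he (by
    filter_upwards [ev_lt, self_mem_nhdsWithin] with κ h1 h2
    exact ⟨h2, log_T2 h1 h2⟩)
  rw [wn_N2, wn_M2] at h
  have e : -(1 / 2) * (0 - 2 * π) = π := by ring
  rw [e] at h
  refine h.congr' ?_
  filter_upwards [ev_lt, self_mem_nhdsWithin] with κ h1 h2
  rw [R1_two h1 h2]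

theorem tendsto_R0_two :
    Tendsto (fun κ => R0 κ⁻¹ (T2 κ) / Lg T2 κ) (𝓝[≠] 0) (𝓝 0) := by
  refine (tendsto_bdd fam_X2 fam_Y2 tendsto_T2).congr' ?_
  filter_upwards [ev_lt, self_mem_nhdsWithin] with κ h1 h2
  rw [R0_two h1 h2]

end typeTwo

/-- all estimates near the cusp -/
theorem exists_del : ∃ δ > 0, δ ≤ rr ∧ ∀ κ : ℂ, κ ≠ 0 → ‖κ‖ < δ →
    (0 < Lg T1 κ ∧ 7 * π * Lg T1 κ ≤ R0 (1 - κ) (T1 κ) ∧
      |R1 (1 - κ) (T1 κ)| ≤ 5 / 4 * π * Lg T1 κ) ∧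
    (|R0 κ⁻¹ (T2 κ)| ≤ 5 / 4 * π * Lg T2 κ ∧ |R1 κ⁻¹ (T2 κ)| ≤ 5 / 4 * π * Lg T2 κ) := by
  have hpi := Real.pi_pos
  have h1 := tendsto_T1.eventually_gt_atTop 0
  have h2 := tendsto_T2.eventually_gt_atTop 0
  have h3 : ∀ᶠ κ in 𝓝[≠] (0 : ℂ), 7 * π < R0 (1 - κ) (T1 κ) / Lg T1 κ :=
    tendsto_R0_one.eventually (lt_mem_nhds (by linarith))
  have aux : ∀ {f : ℂ → ℝ} {l : ℝ}, Tendsto f (𝓝[≠] 0) (𝓝 l) → |l| ≤ π →
      ∀ᶠ κ in 𝓝[≠] (0 : ℂ), |f κ| < 5 / 4 * π := by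
    intro f l hf hl
    exact hf.abs.eventually (gt_mem_nhds (by linarith))
  have h4 := aux tendsto_R1_one (by rw [abs_zero]; exact hpi.le)
  have h5 := aux tendsto_R0_two (by rw [abs_zero]; exact hpi.le)
  have h6 := aux tendsto_R1_two (by rw [abs_of_pos hpi])
  have h7 := h1.and (h2.and (h3.and (h4.and (h5.and h6))))
  rw [eventually_nhdsWithin_iff, Metric.eventually_nhds_iff] at h7
  obtain ⟨ε, hε, h8⟩ := h7
  refine ⟨min ε rr, lt_min hε rr_pos, min_le_right _ _, fun κ hκ hlt => ?_⟩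
  have h9 : dist κ 0 < ε := by
    rw [dist_zero_right]
    exact hlt.trans_le (min_le_left _ _)
  obtain ⟨a1, a2, a3, a4, a5, a6⟩ := h8 h9 hκ
  have aux2 : ∀ {x L : ℝ}, 0 < L → |x / L| < 5 / 4 * π → |x| ≤ 5 / 4 * π * L := by
    intro x L hL hx
    rw [abs_div, abs_of_pos hL, div_lt_iff₀ hL] at hx
    exact hx.le
  refine ⟨⟨a1, ?_, aux2 a1 a4⟩, aux2 a2 a5, aux2 a2 a6⟩
  rw [lt_div_iff₀ a1] at a3
  exact a3.le

end Pool.Agent.R388.SX
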