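import Pool.Agent.R388.SX.Ring
import Pool.Agent.R388.CU.Par
set_option autoImplicit false

/-!
Loops in the complex points of the curves and the regulators of the symbols.
-/

namespace Pool.Agent.R388.SX

open Polynomial

open Pool.Agent.TH826.MK (KQ symb Torus pairing)

open Pool.Agent.TH826.UH

variable {K : Type*} [Field K]

/-- the complex points of the open part of the curve, in terms of the coordinates `n` and `m` -/
structure Pt (s : K →+* ℂ) (t : K) (p : Fin 3 → K) (n m : ℂ) : Prop where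
  eq : (1 + n) * (1 + m) * (1 + n + m) = s t * n * m
  okn : ∀ i, Ok (s (p i)) n
  okm : ∀ i, Ok (s (p i)) m

/-- the coordinate `X` -/
noncomputable def xc (n m : ℂ) : ℂ := -((1 + n) * (1 + m))

/-- the value of `X - t` -/
noncomputable def wc (n m : ℂ) : ℂ := -(xc n m ^ 2 / (n * m))

section points

variable {s : K →+* ℂ} {t : K} {p : Fin 3 → K} {n m : ℂ}

theorem Pt.xc_ne (h : Pt s t p n m) : xc n m ≠ 0 :=
  neg_ne_zero.2 (mul_ne_zero (h.okn 0).u1 (h.okm 0).u1)

theorem Pt.wc_ne (h : Pt s t p n m) : wc n m ≠ 0 :=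
  neg_ne_zero.2 (div_ne_zero (pow_ne_zero 2 h.xc_ne) (mul_ne_zero (h.okn 0).u0 (h.okm 0).u0))

theorem Pt.w_eq (h : Pt s t p n m) : wc n m = xc n m - s t := by
  have h1 := h.eq
  have hn := (h.okn 0).u0
  have hm := (h.okm 0).u0
  unfold wc
  rw [← neg_div, div_eq_iff (mul_ne_zero hn hm)]
  unfold xc
  linear_combination -h1

theorem Pt.s_eq (h : Pt s t p n m) : (1 + n + m) * wc n m = s t * xc n m := by
  have h1 := h.eq
  have hn := (h.okn 0).u0
  have hm := (h.okm 0).u0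
  unfold wc
  rw [← neg_div, mul_div_assoc', div_eq_iff (mul_ne_zero hn hm)]
  unfold xc
  linear_combination (-(1 + n) * (1 + m)) * h1

theorem Pt.nm_eq (h : Pt s t p n m) : n * m * wc n m = -xc n m ^ 2 := by
  have hn := (h.okn 0).u0
  have hm := (h.okm 0).u0
  unfold wc
  field_simp

theorem Pt.eval_eq (h : Pt s t p n m) :
    (WeierstrassCurve.Affine.polynomial (crv t)).eval₂ (Polynomial.eval₂RingHom s (xc n m))
      (m * wc n m) = 0 := by
  have h1 := h.w_eq
  have h2 := h.s_eq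
  have h3 := h.nm_eq
  unfold WeierstrassCurve.Affine.polynomial crv
  simp only [map_add, map_mul, map_zero, map_neg, map_sub, map_one, zero_mul, add_zero,
    Polynomial.eval₂_add, Polynomial.eval₂_neg, Polynomial.eval₂_one,
    Polynomial.eval₂_sub, Polynomial.eval₂_pow, Polynomial.eval₂_X, Polynomial.eval₂_mul,
    Polynomial.eval₂_C, Polynomial.coe_eval₂RingHom]
  generalize xc n m = x at *
  generalize wc n m = w at *
  linear_combination (m * w) * h2 - w * h3 + (-(m * w) + x ^ 2) * h1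

/-- evaluation of the regular functions on the curve -/
noncomputable def Pt.evB (h : Pt s t p n m) : CR t →+* ℂ :=
  AdjoinRoot.lift (Polynomial.eval₂RingHom s (xc n m)) (m * wc n m) h.eval_eq

theorem Pt.evB_mk (h : Pt s t p n m) (q : K[X][X]) :
    h.evB (WeierstrassCurve.Affine.CoordinateRing.mk (crv t) q) =
      q.eval₂ (Polynomial.eval₂RingHom s (xc n m)) (m * wc n m) :=
  AdjoinRoot.lift_mk h.eval_eq q

theorem Pt.evB_cX (h : Pt s t p n m) : h.evB (cX t) = xc n m := by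
  unfold cX
  rw [h.evB_mk]
  simp

theorem Pt.evB_cY (h : Pt s t p n m) : h.evB (cY t) = m * wc n m := by
  unfold cY
  rw [h.evB_mk]
  simp

theorem Pt.evB_cst (h : Pt s t p n m) (k : K) : h.evB (cst t k) = s k := by
  unfold cst
  rw [RingHom.comp_apply, h.evB_mk]
  simp

theorem Pt.evB_fw (h : Pt s t p n m) : h.evB (fw t) = wc n m := by
  unfold fw
  rw [map_sub, h.evB_cX, h.evB_cst, h.w_eq]

theorem Pt.evB_fu (h : Pt s t p n m) (b : Bool) : h.evB (fu t b) = cond b m n * wc n m := by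
  cases b
  · show h.evB (fn t) = n * wc n m
    unfold fn
    have h1 := h.w_eq
    have h2 := h.s_eq
    rw [map_neg, map_sub, map_add, map_mul, h.evB_cX, h.evB_cst, h.evB_cst, h.evB_cY, map_sub,
      map_one]
    linear_combination h1 - h2
  · exact h.evB_cY

theorem Pt.ok (h : Pt s t p n m) (i : Fin 3) (b : Bool) : Ok (s (p i)) (cond b m n) := by
  cases b
  · exact h.okn i
  · exact h.okm i

theorem Pt.evB_lA (h : Pt s t p n m) (q : K) (b : Bool) :
    h.evB (lA t q (fu t b)) =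
      (s q ^ 2 * cond b m n + s q ^ 2 - 1) * wc n m := by
  unfold lA
  rw [map_add, map_mul, map_mul, h.evB_cst, h.evB_cst, h.evB_fu, h.evB_fw, map_sub, map_one,
    map_pow]
  ring

theorem Pt.evB_lB (h : Pt s t p n m) (q : K) (b : Bool) :
    h.evB (lB t q (fu t b)) = ((1 + s q) * cond b m n + s q) * wc n m := by
  unfold lB
  rw [map_add, map_mul, map_mul, h.evB_cst, h.evB_cst, h.evB_fu, h.evB_fw, map_add, map_one]
  ring

theorem Pt.evB_lC (h : Pt s t p n m) (q : K) (b : Bool) :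
    h.evB (lC t q (fu t b)) = (s q * cond b m n + 1) * wc n m := by
  unfold lC
  rw [map_add, map_mul, h.evB_cst, h.evB_fu, h.evB_fw]
  ring

theorem Pt.evB_del (h : Pt s t p n m) : IsUnit (h.evB (del t p)) := by
  refine isUnit_iff_ne_zero.2 ?_
  have hw := h.wc_ne
  unfold del
  rw [map_mul, map_mul, map_prod, map_prod]
  refine mul_ne_zero (mul_ne_zero ?_ ?_) ?_
  · rw [h.evB_fw]
    exact hw
  · refine Finset.prod_ne_zero_iff.2 fun b _ => ?_
    rw [map_mul, map_add, h.evB_fw, h.evB_fu]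
    refine mul_ne_zero (mul_ne_zero (h.ok 0 b).u0 hw) ?_
    have e : wc n m + cond b m n * wc n m = (1 + cond b m n) * wc n m := by ring
    rw [e]
    exact mul_ne_zero (h.ok 0 b).u1 hw
  · refine Finset.prod_ne_zero_iff.2 fun x _ => ?_
    rw [map_mul, map_mul, h.evB_lA, h.evB_lB, h.evB_lC]
    exact mul_ne_zero (mul_ne_zero (mul_ne_zero (h.ok x.1 x.2).a hw)
      (mul_ne_zero (h.ok x.1 x.2).b hw)) (mul_ne_zero (h.ok x.1 x.2).c hw)

/-- evaluation of the regular functions on the open part -/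
noncomputable def Pt.evA (h : Pt s t p n m) : Opn t p →+* ℂ :=
  IsLocalization.Away.lift (del t p) h.evB_del

theorem Pt.evA_toO (h : Pt s t p n m) (r : CR t) : h.evA (toO t p r) = h.evB r :=
  IsLocalization.Away.lift_eq (del t p) h.evB_del r

theorem Pt.evA_cO (h : Pt s t p n m) (k : K) : h.evA (cO t p k) = s k := by
  unfold cO
  rw [RingHom.comp_apply, h.evA_toO, h.evB_cst]

theorem Pt.evA_congr {n' m' : ℂ} (h : Pt s t p n m) (h' : Pt s t p n' m') (e : n = n')
    (e' : m = m') : h.evA = h'.evA := by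
  subst e
  subst e'
  rfl

theorem contDiff_evA {n m : (Fin 1 → ℝ) → ℂ} (hn : ContDiff ℝ 2 n)
    (hm : ContDiff ℝ 2 m) (hP : ∀ θ, Pt s t p (n θ) (m θ)) (h : Opn t p) :
    ContDiff ℝ 2 fun θ => (hP θ).evA h := by
  have hx : ContDiff ℝ 2 fun θ => xc (n θ) (m θ) :=
    ((contDiff_const.add hn).mul (contDiff_const.add hm)).neg
  have hw : ContDiff ℝ 2 fun θ => wc (n θ) (m θ) := by
    unfold wc
    simp only [div_eq_mul_inv]
    exact ((hx.pow 2).mul ((hn.mul hm).inv fun θ =>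
      mul_ne_zero ((hP θ).okn 0).u0 ((hP θ).okm 0).u0)).neg
  have hpol : ∀ q : K[X], ContDiff ℝ 2 fun θ => q.eval₂ s (xc (n θ) (m θ)) := by
    intro q
    have e : (fun θ => q.eval₂ s (xc (n θ) (m θ))) = fun θ =>
        ∑ i ∈ Finset.range (q.natDegree + 1), s (q.coeff i) * (xc (n θ) (m θ)) ^ i := by
      funext θ
      rw [Polynomial.eval₂_eq_sum_range]
    rw [e]
    exact ContDiff.sum fun i _ => contDiff_const.mul (hx.pow i)
  have hB : ∀ r : CR t, ContDiff ℝ 2 fun θ => (hP θ).evB r := by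
    intro r
    obtain ⟨q, hq⟩ := AdjoinRoot.mk_surjective (g := WeierstrassCurve.Affine.polynomial (crv t)) r
    have e : (fun θ => (hP θ).evB r) = fun θ =>
        ∑ i ∈ Finset.range (q.natDegree + 1), (q.coeff i).eval₂ s (xc (n θ) (m θ)) *
          (m θ * wc (n θ) (m θ)) ^ i := by
      funext θ
      have h1 := (hP θ).evB_mk q
      rw [Polynomial.eval₂_eq_sum_range] at h1
      rw [← hq]
      exact h1
    rw [e]
    exact ContDiff.sum fun i _ => (hpol _).mul ((hm.mul hw).pow i)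
  obtain ⟨r, d, hd⟩ := IsLocalization.exists_mk'_eq (Submonoid.powers (del t p)) h
  have hne : ∀ θ, (hP θ).evB (d : CR t) ≠ 0 := by
    intro θ
    obtain ⟨k, hk⟩ := d.2
    rw [← hk]
    simp only [map_pow]
    exact pow_ne_zero _ (hP θ).evB_del.ne_zero
  have e : (fun θ => (hP θ).evA h) = fun θ => (hP θ).evB r / (hP θ).evB (d : CR t) := by
    funext θ
    rw [eq_div_iff (hne θ), ← hd, ← (hP θ).evA_toO, ← (hP θ).evA_toO, ← map_mul]
    congr 1
    exact IsLocalization.mk'_spec _ r d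
  rw [e]
  simp only [div_eq_mul_inv]
  exact (hB r).mul ((hB _).inv hne)

/-- A loop in the open part of the curve. -/
noncomputable def mkL {n m : ℝ → ℂ} (hn : ContDiff ℝ 2 n) (hm : ContDiff ℝ 2 m)
    (hn1 : ∀ x, n (x + 1) = n x) (hm1 : ∀ x, m (x + 1) = m x)
    (hP : ∀ x, Pt s t p (n x) (m x)) : Torus (Opn t p) 1 where
  e θ := (hP (θ 0)).evA
  smooth h := contDiff_evA (n := fun θ => n (θ 0)) (m := fun θ => m (θ 0))
    (hn.comp (contDiff_apply ℝ ℝ 0)) (hm.comp (contDiff_apply ℝ ℝ 0)) (fun θ => hP (θ 0)) h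
  periodic θ i := by
    have h0 : (θ + Pi.single i 1 : Fin 1 → ℝ) 0 = θ 0 + 1 := by
      rw [Pi.add_apply, Subsingleton.elim i 0, Pi.single_eq_same]
    refine Pt.evA_congr _ _ ?_ ?_
    · rw [h0, hn1]
    · rw [h0, hm1]

end points

section reg

variable {s : K →+* ℂ} {t : Kˣ} {p : Fin 3 → Kˣ} {n m : ℂ}

theorem Pt.evA_Psi (h : Pt s (t : K) (cf p) n m) (i : Fin 3) (b : Bool) :
    h.evA (Psi t p i b : Opn (t : K) (cf p)) = psi (s (p i)) (cond b m n) := by
  have h1 := congrArg h.evA (Psi_mul (t := t) (p := p) i b)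
  have hw := h.wc_ne
  have hok := h.ok i b
  rw [map_mul, map_mul, map_mul, coe_uW, coe_uB, coe_uU, coe_uA, h.evA_toO, h.evA_toO, h.evA_toO,
    h.evA_toO, h.evB_fw, h.evB_lB, h.evB_fu, h.evB_lA] at h1
  have h2 := psi_mul hok
  have hb := hok.b
  have hc : s (cf p i) = s (p i) := rfl
  rw [hc] at h1 h2 hb
  refine mul_right_cancel₀ (mul_ne_zero hw (mul_ne_zero hb hw)) ?_
  linear_combination h1 - (wc n m) ^ 2 * h2

theorem Pt.evA_Psi1 (h : Pt s (t : K) (cf p) n m) (i : Fin 3) (b : Bool) :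
    h.evA (Psi1 t p i b : Opn (t : K) (cf p)) = 1 + psi (s (p i)) (cond b m n) := by
  rw [coe_Psi1, map_add, map_one, h.evA_Psi]

theorem okp_map {q : K} (h : Okp q) : Okp (s q) := by
  refine ⟨(map_ne_zero s).2 h.p0, ?_, ?_⟩
  · rw [← map_one s, ← map_add]
    exact (map_ne_zero s).2 h.p1
  · rw [← map_one s, ← map_sub]
    exact (map_ne_zero s).2 h.p2

theorem Pt.Sne (h : Pt s (t : K) (cf p) n m) (i : Fin 3) (hp : Okp (p i : K))
    (ht : (t : K) * (p i : K) ^ 2 * (1 + p i) = 1 - p i) :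
    1 + psi (s (p i)) n + psi (s (p i)) m ≠ 0 := by
  have ht' := congrArg s ht
  rw [map_mul, map_mul, map_pow, map_add, map_sub, map_one] at ht'
  exact sum_ne (psi_eqn (okp_map hp) ht' h.eq (h.okn i) (h.okm i)) (tt_ne (okp_map hp))
    (psi_ne (h.okn i)) (psi_ne (h.okm i))

theorem Pt.evA_X (h : Pt s (t : K) (cf p) n m) (i : Fin 3) (hp : Okp (p i : K))
    (ht : (t : K) * (p i : K) ^ 2 * (1 + p i) = 1 - p i) :
    h.evA (ent t p i 0 0 : Opn (t : K) (cf p)) = dl (psi (s (p i)) n) (psi (s (p i)) m) := by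
  obtain ⟨S, hS1, hS2⟩ := exists_sum i hp ht
  rw [ent_zero i hS2]
  have hX : ((-(Psi1 t p i true / S) : (Opn (t : K) (cf p))ˣ) : Opn (t : K) (cf p)) * S =
      -(Psi1 t p i true : Opn (t : K) (cf p)) := by
    rw [← Units.val_mul, neg_mul, div_mul_cancel, Units.val_neg]
  have h1 := congrArg h.evA hX
  rw [map_mul, map_neg, h.evA_Psi1, hS1, map_add, map_add, map_one, h.evA_Psi, h.evA_Psi] at h1
  have hS := h.Sne i hp ht
  refine mul_right_cancel₀ hS ?_
  refine h1.trans ?_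
  unfold dl
  rw [neg_mul, div_mul_cancel₀ _ hS]
  rfl

theorem Pt.evA_Y (h : Pt s (t : K) (cf p) n m) (i : Fin 3) (hp : Okp (p i : K))
    (ht : (t : K) * (p i : K) ^ 2 * (1 + p i) = 1 - p i) :
    h.evA (ent t p i 0 1 : Opn (t : K) (cf p)) = dl (psi (s (p i)) m) (psi (s (p i)) n) := by
  obtain ⟨S, hS1, hS2⟩ := exists_sum i hp ht
  rw [ent_zero i hS2]
  have hX : ((-(Psi1 t p i false / S) : (Opn (t : K) (cf p))ˣ) : Opn (t : K) (cf p)) * S =
      -(Psi1 t p i false : Opn (t : K) (cf p)) := by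
    rw [← Units.val_mul, neg_mul, div_mul_cancel, Units.val_neg]
  have h1 := congrArg h.evA hX
  rw [map_mul, map_neg, h.evA_Psi1, hS1, map_add, map_add, map_one, h.evA_Psi, h.evA_Psi] at h1
  have hS := h.Sne i hp ht
  refine mul_right_cancel₀ hS ?_
  refine h1.trans ?_
  unfold dl
  have e : 1 + psi (s (p i)) m + psi (s (p i)) n = 1 + psi (s (p i)) n + psi (s (p i)) m := by
    ring
  rw [e, neg_mul, div_mul_cancel₀ _ hS]
  rfl

/-- The regulator of a symbol on a loop. -/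
theorem reg_aux (Γ : Torus (Opn (t : K) (cf p)) 1) (a : Fin 2 → (Opn (t : K) (cf p))ˣ)
    {U V : ℝ → ℂ} (hU : ∀ θ, Γ.e θ (a 0 : Opn (t : K) (cf p)) = U (θ 0))
    (hV : ∀ θ, Γ.e θ (a 1 : Opn (t : K) (cf p)) = V (θ 0)) : Γ.reg (symb a) = pr U V := by
  have gU : NZ U := by
    have h1 := Γ.good (a 0)
    have h2 : (fun x : ℝ => Γ.fn (a 0 : Opn (t : K) (cf p)) (fun _ => x)) = U := by
      funext x
      exact hU _
    refine ⟨?_, fun x => ?_⟩
    · rw [← h2]
      exact h1.smooth.comp (contDiff_pi.2 fun _ => contDiff_id)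
    · rw [← h2]
      exact h1.ne_zero _
  have gV : NZ V := by
    have h1 := Γ.good (a 1)
    have h2 : (fun x : ℝ => Γ.fn (a 1 : Opn (t : K) (cf p)) (fun _ => x)) = V := by
      funext x
      exact hV _
    refine ⟨?_, fun x => ?_⟩
    · rw [← h2]
      exact h1.smooth.comp (contDiff_pi.2 fun _ => contDiff_id)
    · rw [← h2]
      exact h1.ne_zero _
  rw [← pairing_eq_pr gU gV, Torus.reg_symb]
  unfold Torus.pair
  congr 1
  funext i θ
  fin_cases i
  · exact hU θ
  · exact hV θ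

variable {n m : ℝ → ℂ} (hn : ContDiff ℝ 2 n) (hm : ContDiff ℝ 2 m)
    (hn1 : ∀ x, n (x + 1) = n x) (hm1 : ∀ x, m (x + 1) = m x)
    (hP : ∀ x, Pt s (t : K) (cf p) (n x) (m x)) (i : Fin 3) (hp : Okp (p i : K))
    (ht : (t : K) * (p i : K) ^ 2 * (1 + p i) = 1 - p i)

theorem mkL_reg1 : (mkL hn hm hn1 hm1 hP).reg (symb (ent t p i 1)) =
    pr (fun x => psi (s (p i)) (n x)) (fun x => psi (s (p i)) (m x)) :=
  reg_aux _ _ (fun θ => (hP (θ 0)).evA_Psi i false) (fun θ => (hP (θ 0)).evA_Psi i true)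

include hp ht in
theorem mkL_reg0 : (mkL hn hm hn1 hm1 hP).reg (symb (ent t p i 0)) =
    pr (fun x => dl (psi (s (p i)) (n x)) (psi (s (p i)) (m x)))
      (fun x => dl (psi (s (p i)) (m x)) (psi (s (p i)) (n x))) :=
  reg_aux _ _ (fun θ => (hP (θ 0)).evA_X i hp ht) (fun θ => (hP (θ 0)).evA_Y i hp ht)

end reg

end Pool.Agent.R388.SX
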