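import Pool.Agent.R388.SX.Lim
import Pool.Agent.R388.SX.Tor
set_option autoImplicit false

/-!
Loops near the cusps and the regulator matrix.
-/

namespace Pool.Agent.R388.SX

open Set Filter Topology

open Pool.Agent.TH826.MK (KQ symb Torus circ norm_circ contDiff_circ circ_add_one)

open Pool.Agent.TH826.UH

open scoped Real

/-- The relations `∑ p_i = -1`, `∑ 1 / p_i = 1`. -/
structure Rel {F : Type*} [Field F] (p : Fin 3 → F) : Prop where
  ne : ∀ i, p i ≠ 0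
  sum : p 0 + p 1 + p 2 = -1
  inv : (p 0)⁻¹ + (p 1)⁻¹ + (p 2)⁻¹ = 1

/-- the parameter of the curve -/
def tp {F : Type*} [Field F] (p : Fin 3 → F) : F := (p 0 * p 1 * p 2)⁻¹

section rel

variable {F : Type*} [Field F]

theorem rel_aux {a b c : F} (ha : a ≠ 0) (hb : b ≠ 0) (hc : c ≠ 0) (h1 : a + b + c = -1)
    (h2 : a⁻¹ + b⁻¹ + c⁻¹ = 1) : (a * b * c)⁻¹ * a ^ 2 * (1 + a) = 1 - a ∧
      ((2 : F) ≠ 0 → Okp a) := by
  have h3 : b * c + a * c + a * b = a * b * c := by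
    field_simp at h2
    linear_combination h2
  refine ⟨?_, fun h4 => ⟨ha, ?_, ?_⟩⟩
  · have h5 : a ^ 2 * (1 + a) = a * b * c * (1 - a) := by
      linear_combination a ^ 2 * h1 - a * h3
    rw [mul_assoc, h5, inv_mul_cancel_left₀ (mul_ne_zero (mul_ne_zero ha hb) hc)]
  · intro h
    have h5 : 2 * (b * c) = 0 := by
      linear_combination h3 + (-(b + c) + b * c) * h + h1 - h
    exact mul_ne_zero h4 (mul_ne_zero hb hc) h5
  · intro h
    have h5 : (2 : F) = 0 := by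
      linear_combination -h3 + h1 + (b * c - (b + c) + 1) * h
    exact h4 h5

variable {p : Fin 3 → F}

theorem Rel.ht (h : Rel p) (i : Fin 3) : tp p * p i ^ 2 * (1 + p i) = 1 - p i := by
  fin_cases i
  · exact (rel_aux (h.ne 0) (h.ne 1) (h.ne 2) h.sum h.inv).1
  · have h1 := (rel_aux (h.ne 1) (h.ne 0) (h.ne 2) (by linear_combination h.sum)
      (by linear_combination h.inv)).1
    rw [mul_comm (p 1) (p 0)] at h1
    exact h1
  · have h1 := (rel_aux (h.ne 2) (h.ne 0) (h.ne 1) (by linear_combination h.sum)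
      (by linear_combination h.inv)).1
    have e : p 2 * p 0 * p 1 = p 0 * p 1 * p 2 := by ring
    rw [e] at h1
    exact h1

theorem Rel.okp (h : Rel p) (h2 : (2 : F) ≠ 0) (i : Fin 3) : Okp (p i) := by
  fin_cases i
  · exact (rel_aux (h.ne 0) (h.ne 1) (h.ne 2) h.sum h.inv).2 h2
  · exact (rel_aux (h.ne 1) (h.ne 0) (h.ne 2) (by linear_combination h.sum)
      (by linear_combination h.inv)).2 h2
  · exact (rel_aux (h.ne 2) (h.ne 0) (h.ne 1) (by linear_combination h.sum)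
      (by linear_combination h.inv)).2 h2

theorem Rel.dual (h : Rel p) : Rel fun i => dp (p i) := by
  have h0 := h.ne 0
  have h1 := h.ne 1
  have h2 := h.ne 2
  refine ⟨fun i => neg_ne_zero.2 (one_div_ne_zero (h.ne i)), ?_, ?_⟩
  · have := h.inv
    simp only [dp, one_div]
    linear_combination -this
  · have := h.sum
    simp only [dp, one_div, inv_neg, inv_inv]
    linear_combination -this

theorem tp_ne (h : Rel p) : tp p ≠ 0 :=
  inv_ne_zero (mul_ne_zero (mul_ne_zero (h.ne 0) (h.ne 1)) (h.ne 2))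

theorem tp_dual (h : Rel p) : tp (fun i => dp (p i)) = -(tp p)⁻¹ := by
  have h0 := h.ne 0
  have h1 := h.ne 1
  have h2 := h.ne 2
  unfold tp dp
  field_simp

theorem Rel.map {K : Type*} [Field K] (s : K →+* F) {p : Fin 3 → K} (h : Rel p) :
    Rel fun i => s (p i) := by
  refine ⟨fun i => (map_ne_zero s).2 (h.ne i), ?_, ?_⟩
  · rw [← map_add, ← map_add, h.sum, map_neg, map_one]
  · rw [← map_inv₀, ← map_inv₀, ← map_inv₀, ← map_add, ← map_add, h.inv, map_one]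

theorem tp_map {K : Type*} [Field K] (s : K →+* F) (p : Fin 3 → K) :
    tp (fun i => s (p i)) = s (tp p) := by
  unfold tp
  rw [map_inv₀, map_mul, map_mul]

theorem dp_dp {q : F} : dp (dp q) = q := by
  unfold dp
  rw [one_div, one_div, inv_neg, neg_neg, inv_inv]

end rel

section analytic

/-- the radius -/
structure Good (δ : ℝ) : Prop where
  pos : 0 < δ
  le : δ ≤ rr
  bd : ∀ κ : ℂ, κ ≠ 0 → ‖κ‖ < δ →
    (0 < Lg T1 κ ∧ 7 * π * Lg T1 κ ≤ R0 (1 - κ) (T1 κ) ∧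
      |R1 (1 - κ) (T1 κ)| ≤ 5 / 4 * π * Lg T1 κ) ∧
    (|R0 κ⁻¹ (T2 κ)| ≤ 5 / 4 * π * Lg T2 κ ∧ |R1 κ⁻¹ (T2 κ)| ≤ 5 / 4 * π * Lg T2 κ)

theorem exists_good : ∃ δ, Good δ := by
  obtain ⟨δ, h1, h2, h3⟩ := exists_del
  exact ⟨δ, h1, h2, h3⟩

/-- closeness to the cusp -/
structure Near (δ : ℝ) (p : Fin 3 → ℂ) (i : Fin 3) : Prop where
  one : ‖1 - p i‖ < δ
  inf : ∀ j, j ≠ i → ‖(p j)⁻¹‖ < δ

variable {δ : ℝ} {p : Fin 3 → ℂ} {i : Fin 3}

theorem T1_eq (hp : Rel p) (h : ‖1 - p i‖ < rr) : T1 (1 - p i) = tp p := by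
  have h1 := T1_mul h
  have h2 := hp.ht i
  have h3 := hp.okp two_ne_zero i
  rw [sub_sub_cancel] at h1
  have h4 : p i ^ 2 * (1 + p i) ≠ 0 := mul_ne_zero (pow_ne_zero 2 h3.p0) h3.p1
  refine mul_right_cancel₀ h4 ?_
  linear_combination h1 - h2

theorem T2_eq (hp : Rel p) (h : ‖(p i)⁻¹‖ < rr) : T2 (p i)⁻¹ = tp p := by
  have h3 := hp.okp two_ne_zero i
  have h1 := T2_mul h (inv_ne_zero h3.p0)
  have h2 := hp.ht i
  rw [inv_inv] at h1
  have h4 : p i ^ 2 * (1 + p i) ≠ 0 := mul_ne_zero (pow_ne_zero 2 h3.p0) h3.p1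
  refine mul_right_cancel₀ h4 ?_
  linear_combination h1 - h2

theorem Near.bounds (hδ : Good δ) (hp : Rel p) (h : Near δ p i) :
    0 < -Real.log ‖tp p‖ ∧ 7 * π * -Real.log ‖tp p‖ ≤ R0 (p i) (tp p) ∧
      |R1 (p i) (tp p)| ≤ 5 / 4 * π * -Real.log ‖tp p‖ ∧
      ∀ j, j ≠ i → |R0 (p j) (tp p)| ≤ 5 / 4 * π * -Real.log ‖tp p‖ ∧
        |R1 (p j) (tp p)| ≤ 5 / 4 * π * -Real.log ‖tp p‖ := by
  have h1 := hδ.bd (1 - p i) (hp.okp two_ne_zero i).p2 h.one
  unfold Lg at h1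
  rw [T1_eq hp (h.one.trans_le hδ.le), sub_sub_cancel] at h1
  refine ⟨h1.1.1, h1.1.2.1, h1.1.2.2, fun j hj => ?_⟩
  have h2 := hδ.bd (p j)⁻¹ (inv_ne_zero (hp.ne j)) (h.inf j hj)
  unfold Lg at h2
  rw [T2_eq hp ((h.inf j hj).trans_le hδ.le), inv_inv] at h2
  exact h2.2

theorem Near.small (hδ : Good δ) (hp : Rel p) (h : Near δ p i) : ‖tp p‖ < 1 / 100 := by
  have h1 := tok1.lt _ (h.one.trans_le hδ.le)
  rw [T1_eq hp (h.one.trans_le hδ.le)] at h1
  exact h1

theorem Near.okn (hδ : Good δ) (hp : Rel p) (h : Near δ p i) (j : Fin 3) (θ : ℝ) :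
    Ok (p j) (nn (tp p) θ) ∧ Ok (p j) (mm θ) := by
  have hs := h.small hδ hp
  by_cases hj : j = i
  · subst hj
    have h1 := ok_nn1 (h.one.trans_le hδ.le) hs θ
    have h2 := ok_mm1 (h.one.trans_le hδ.le) θ
    rw [sub_sub_cancel] at h1 h2
    exact ⟨h1, h2⟩
  · have h0 := inv_ne_zero (hp.ne j)
    have h1 := (ok2_nn ((h.inf j hj).trans_le hδ.le) hs θ).ok h0
    have h2 := (ok2_mm ((h.inf j hj).trans_le hδ.le) θ).ok h0
    rw [inv_inv] at h1 h2
    exact ⟨h1, h2⟩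

theorem Near.gne (hδ : Good δ) (hp : Rel p) (h : Near δ p i) (j : Fin 3) :
    1 + p j - p j ^ 2 ≠ 0 := by
  by_cases hj : j = i
  · subst hj
    have h1 : ‖1 - p j‖ < 1 / 100 := h.one.trans_le hδ.le
    have e : 1 + p j - p j ^ 2 = 1 + ((1 - p j) + -((1 - p j) * (1 - p j))) := by ring
    rw [e]
    refine ne_of_low (A := 1 - (1 / 100 + 1 / 100 * (1 / 100))) (by norm_num)
      (low (by rw [norm_one]) ?_)
    refine (norm_add_le _ _).trans ?_
    rw [norm_neg, norm_mul]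
    exact add_le_add h1.le (mul_le_mul h1.le h1.le (norm_nonneg _) (by norm_num))
  · have h1 : ‖(p j)⁻¹‖ < 1 / 100 := (h.inf j hj).trans_le hδ.le
    have h0 := hp.ne j
    have e : 1 + p j - p j ^ 2 = p j ^ 2 * (-1 + ((p j)⁻¹ + (p j)⁻¹ * (p j)⁻¹)) := by
      field_simp
      ring
    rw [e]
    refine mul_ne_zero (pow_ne_zero 2 h0) ?_
    refine ne_of_low (A := 1 - (1 / 100 + 1 / 100 * (1 / 100))) (by norm_num)
      (low (by rw [norm_neg, norm_one]) ?_)
    refine (norm_add_le _ _).trans ?_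
    rw [norm_mul]
    exact add_le_add h1.le (mul_le_mul h1.le h1.le (norm_nonneg _) (by norm_num))

/-- closeness from largeness -/
theorem near_of (hδ : 0 < δ) (hδ' : δ ≤ rr) (hp : Rel p) (h : ∀ j, j ≠ i → 4 / δ ≤ ‖p j‖) :
    Near δ p i := by
  have hr : δ ≤ 1 / 100 := hδ'
  have h4 : 0 < 4 / δ := by positivity
  have h1 : ∀ j, j ≠ i → ‖(p j)⁻¹‖ ≤ δ / 4 := by
    intro j hj
    rw [norm_inv, inv_le_comm₀ (h4.trans_le (h j hj)) (by positivity), inv_div]
    exact h j hj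
  refine ⟨?_, fun j hj => (h1 j hj).trans_lt (by linarith)⟩
  have h2 : ∃ x y : ℂ, (p i)⁻¹ + x + y = 1 ∧ ‖x‖ ≤ δ / 4 ∧ ‖y‖ ≤ δ / 4 := by
    have hs := hp.inv
    fin_cases i
    · exact ⟨(p 1)⁻¹, (p 2)⁻¹, hs, h1 1 (by decide), h1 2 (by decide)⟩
    · exact ⟨(p 0)⁻¹, (p 2)⁻¹, by rw [← hs]; simp only [Fin.mk_one]; ring, h1 0 (by decide),
        h1 2 (by decide)⟩
    · refine ⟨(p 0)⁻¹, (p 1)⁻¹, ?_, h1 0 (by decide), h1 1 (by decide)⟩
      rw [← hs]
      have e : (⟨2, by decide⟩ : Fin 3) = 2 := rfl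
      rw [e]
      ring
  obtain ⟨x, y, h3, hx, hy⟩ := h2
  have h0 := hp.ne i
  have e : 1 - p i = -(p i * (x + y)) := by
    have h5 : (p i)⁻¹ = 1 - (x + y) := by linear_combination h3
    have h6 := mul_inv_cancel₀ h0
    rw [h5] at h6
    linear_combination -h6
  have hxy : ‖x + y‖ ≤ δ / 2 := by
    refine (norm_add_le _ _).trans ?_
    linarith
  have h7 : ‖p i‖ ≤ 200 / 199 := by
    have h8 : 1 - δ / 2 ≤ ‖(p i)⁻¹‖ := by
      have h9 : (p i)⁻¹ = 1 + -(x + y) := by linear_combination h3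
      rw [h9]
      exact low (by rw [norm_one]) (by rw [norm_neg]; exact hxy)
    rw [norm_inv] at h8
    have h9 : 0 < ‖p i‖ := norm_pos_iff.2 h0
    rw [le_inv_comm₀ (by linarith) h9] at h8
    refine h8.trans ?_
    rw [inv_le_comm₀ (by linarith) (by norm_num)]
    norm_num
    linarith
  rw [e, norm_neg, norm_mul]
  have h10 : ‖p i‖ * ‖x + y‖ ≤ 200 / 199 * (δ / 2) :=
    mul_le_mul h7 hxy (norm_nonneg _) (by norm_num)
  linarith

end analytic

section loops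

theorem nn_add_one (τ : ℂ) (θ : ℝ) : nn τ (θ + 1) = nn τ θ := by
  unfold nn bs bq
  rw [mm_add_one]

theorem contDiff_mm : ContDiff ℝ 2 mm := contDiff_circ _

theorem contDiff_nn {τ : ℂ} (hτ : ‖τ‖ < 1 / 100) : ContDiff ℝ 2 (nn τ) := by
  have h1 : TOk fun _ => τ := ⟨fun _ _ => hτ, fun _ _ => contDiffAt_const⟩
  have h2 := sm_nn h1
  refine contDiff_iff_contDiffAt.2 fun θ => ?_
  exact (h2 0 (by rw [norm_zero]; exact rr_pos) θ).comp θ (contDiffAt_const.prodMk contDiffAt_id)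

theorem sum_ne' {τ : ℂ} (hτ : ‖τ‖ < 1 / 100) (h0 : τ ≠ 0) {q : ℂ} {θ : ℝ} (h1 : Ok q (nn τ θ)) :
    1 + nn τ θ + mm θ ≠ 0 :=
  sum_ne (nn_eqn hτ θ) h0 h1.u0 (mm_ne θ)

variable {δ : ℝ} {K : Type*} [Field K] {s : K →+* ℂ} {p : Fin 3 → Kˣ} {t : Kˣ} {i : Fin 3}

theorem Near.pt (hδ : Good δ) (hp : Rel (cf p)) (ht : (t : K) = tp (cf p))
    (h : Near δ (fun j => s (cf p j)) i) (θ : ℝ) :
    Pt s (t : K) (cf p) (nn (s t) θ) (mm θ) := by
  have hp' := hp.map s
  have e := tp_map s (cf p)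
  rw [← ht] at e
  have hs := h.small hδ hp'
  rw [e] at hs
  refine ⟨nn_eqn hs θ, fun j => ?_, fun j => ?_⟩
  · have := (h.okn hδ hp' j θ).1
    rw [e] at this
    exact this
  · exact (h.okn hδ hp' j θ).2

/-- a loop near a cusp of the first kind -/
theorem loopB (hδ : Good δ) (hp : Rel (cf p)) (ht : (t : K) = tp (cf p))
    (h : Near δ (fun j => s (cf p j)) i) :
    ∃ Γ : Torus (Opn (t : K) (cf p)) 1, (∀ θ k, Γ.e θ (cO (t : K) (cf p) k) = s k) ∧
      ∀ j, Γ.reg (symb (ent t p j 0)) = R0 (s (p j)) (s t) ∧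
        Γ.reg (symb (ent t p j 1)) = R1 (s (p j)) (s t) := by
  have hp' := hp.map s
  have e := tp_map s (cf p)
  rw [← ht] at e
  have hs := h.small hδ hp'
  rw [e] at hs
  have h2 : (2 : K) ≠ 0 := by
    intro h2
    have := congrArg s h2
    rw [map_ofNat, map_zero] at this
    exact two_ne_zero this
  refine ⟨mkL (contDiff_nn hs) contDiff_mm (nn_add_one _) mm_add_one (h.pt hδ hp ht),
    fun θ k => Pt.evA_cO _ k, fun j => ⟨?_, ?_⟩⟩
  · refine mkL_reg0 _ _ _ _ _ j (hp.okp h2 j) ?_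
    rw [ht]
    exact hp.ht j
  · exact mkL_reg1 _ _ _ _ _ j

/-- a loop near a cusp of the second kind -/
theorem loopA (hδ : Good δ) (hp : Rel (cf p)) (ht : (t : K) = tp (cf p))
    (h : Near δ (fun j => dp (s (cf p j))) i) :
    ∃ Γ : Torus (Opn (t : K) (cf p)) 1, (∀ θ k, Γ.e θ (cO (t : K) (cf p) k) = s k) ∧
      ∀ j, Γ.reg (symb (ent t p j 0)) = R1 (dp (s (p j))) (tp fun j => dp (s (cf p j))) ∧
        Γ.reg (symb (ent t p j 1)) = -R0 (dp (s (p j))) (tp fun j => dp (s (cf p j))) := by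
  have hp1 := hp.map s
  have hp' := hp1.dual
  have hs := h.small hδ hp'
  have e1 := tp_dual hp1
  rw [tp_map, ← ht] at e1
  have ht0 : s (t : K) ≠ 0 := (map_ne_zero s).2 t.ne_zero
  set τ := tp (fun j => dp (s (cf p j))) with hτ
  have hτ0 : τ ≠ 0 := tp_ne hp'
  have et : s (t : K) = -τ⁻¹ := by
    rw [e1, inv_neg, inv_inv, neg_neg]
  have h2 : (2 : K) ≠ 0 := by
    intro h2
    have := congrArg s h2
    rw [map_ofNat, map_zero] at this
    exact two_ne_zero this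
  -- the nonvanishing of the sum
  have hS : ∀ θ, 1 + nn τ θ + mm θ ≠ 0 := fun θ =>
    sum_ne' hs hτ0 (h.okn hδ hp' i θ).1
  -- nonvanishing conditions
  have hF : ∀ j θ, dp (s (cf p j)) ^ 2 * (1 + dp (s (cf p j))) * (1 + nn τ θ) * (1 + mm θ) *
      (1 + nn τ θ + mm θ) = (1 - dp (s (cf p j))) * nn τ θ * mm θ := by
    intro j θ
    have h3 := nn_eqn hs θ
    have h4 := hp'.ht j
    rw [← hτ] at h4
    linear_combination (dp (s (cf p j)) ^ 2 * (1 + dp (s (cf p j)))) * h3 + nn τ θ * mm θ * h4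
  have okm : ∀ j θ, Ok (s (cf p j)) (dl (nn τ θ) (mm θ)) := by
    intro j θ
    have h3 := ok_dual (hp'.okp two_ne_zero j) (hF j θ) (h.okn hδ hp' j θ).1
      (h.okn hδ hp' j θ).2 (h.gne hδ hp' j) (hS θ)
    rw [dp_dp] at h3
    exact h3
  have hF' : ∀ j θ, dp (s (cf p j)) ^ 2 * (1 + dp (s (cf p j))) * (1 + mm θ) * (1 + nn τ θ) *
      (1 + mm θ + nn τ θ) = (1 - dp (s (cf p j))) * mm θ * nn τ θ := by
    intro j θ
    linear_combination hF j θ
  have hS' : ∀ θ, 1 + mm θ + nn τ θ ≠ 0 := by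
    intro θ h3
    exact hS θ (by linear_combination h3)
  have okn : ∀ j θ, Ok (s (cf p j)) (dl (mm θ) (nn τ θ)) := by
    intro j θ
    have h3 := ok_dual (hp'.okp two_ne_zero j) (hF' j θ) (h.okn hδ hp' j θ).2
      (h.okn hδ hp' j θ).1 (h.gne hδ hp' j) (hS' θ)
    rw [dp_dp] at h3
    exact h3
  have hP : ∀ θ, Pt s (t : K) (cf p) (dl (mm θ) (nn τ θ)) (dl (nn τ θ) (mm θ)) := by
    intro θ
    refine ⟨?_, fun j => okn j θ, fun j => okm j θ⟩
    have h3 := nn_eqn hs θ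
    have h4 := hS θ
    have h5 := hS' θ
    rw [et]
    have a1 : dl (mm θ) (nn τ θ) = -((1 + nn τ θ) / (1 + nn τ θ + mm θ)) := by
      unfold dl
      rw [show 1 + mm θ + nn τ θ = 1 + nn τ θ + mm θ from by ring]
    have a2 : dl (nn τ θ) (mm θ) = -((1 + mm θ) / (1 + nn τ θ + mm θ)) := rfl
    have b1 : 1 + dl (mm θ) (nn τ θ) = mm θ / (1 + nn τ θ + mm θ) := by
      rw [a1]
      field_simp
      ring
    have b2 : 1 + dl (nn τ θ) (mm θ) = nn τ θ / (1 + nn τ θ + mm θ) := by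
      rw [a2]
      field_simp
      ring
    have b3 : 1 + dl (mm θ) (nn τ θ) + dl (nn τ θ) (mm θ) = -(1 / (1 + nn τ θ + mm θ)) := by
      rw [a1, a2]
      field_simp
      ring
    rw [b3, b1, b2, a1, a2]
    generalize nn τ θ = n at *
    generalize mm θ = m at *
    have h6 : (1 + n) * (1 + m) = τ * n * m / (1 + n + m) := by
      rw [eq_div_iff h4]
      exact h3
    have e3 : -τ⁻¹ * -((1 + n) / (1 + n + m)) * -((1 + m) / (1 + n + m)) =
        -τ⁻¹ * ((1 + n) * (1 + m)) / ((1 + n + m) * (1 + n + m)) := by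
      field_simp
    rw [e3, h6]
    field_simp
  have cm : ContDiff ℝ 2 fun θ => dl (nn τ θ) (mm θ) := by
    simp only [dl, div_eq_mul_inv]
    exact ((contDiff_const.add contDiff_mm).mul (((contDiff_const.add (contDiff_nn hs)).add
      contDiff_mm).inv hS)).neg
  have cn : ContDiff ℝ 2 fun θ => dl (mm θ) (nn τ θ) := by
    simp only [dl, div_eq_mul_inv]
    exact ((contDiff_const.add (contDiff_nn hs)).mul (((contDiff_const.add contDiff_mm).add
      (contDiff_nn hs)).inv hS')).neg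
  -- the values of the isogenies
  have v1 : ∀ j θ, psi (s (p j)) (dl (nn τ θ) (mm θ)) =
      dl (psi (dp (s (p j))) (nn τ θ)) (psi (dp (s (p j))) (mm θ)) := by
    intro j θ
    have h3 := psi_eqn (hp'.okp two_ne_zero j) (hp'.ht j) (nn_eqn hs θ) (h.okn hδ hp' j θ).1
      (h.okn hδ hp' j θ).2
    have h4 := psi_dual (hp'.okp two_ne_zero j) (hF j θ) (h.okn hδ hp' j θ).1
      (h.okn hδ hp' j θ).2 (h.gne hδ hp' j) (hS θ) h3
    rw [dp_dp] at h4
    exact h4
  have v2 : ∀ j θ, psi (s (p j)) (dl (mm θ) (nn τ θ)) =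
      dl (psi (dp (s (p j))) (mm θ)) (psi (dp (s (p j))) (nn τ θ)) := by
    intro j θ
    have h5 : (1 + mm θ) * (1 + nn τ θ) * (1 + mm θ + nn τ θ) = τ * mm θ * nn τ θ := by
      linear_combination nn_eqn hs θ
    have h3 := psi_eqn (hp'.okp two_ne_zero j) (hp'.ht j) h5 (h.okn hδ hp' j θ).2
      (h.okn hδ hp' j θ).1
    have h4 := psi_dual (hp'.okp two_ne_zero j) (hF' j θ) (h.okn hδ hp' j θ).2
      (h.okn hδ hp' j θ).1 (h.gne hδ hp' j) (hS' θ) h3
    rw [dp_dp] at h4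
    exact h4
  have vs : ∀ j θ, 1 + psi (dp (s (p j))) (nn τ θ) + psi (dp (s (p j))) (mm θ) ≠ 0 := by
    intro j θ
    have h3 := psi_eqn (hp'.okp two_ne_zero j) (hp'.ht j) (nn_eqn hs θ) (h.okn hδ hp' j θ).1
      (h.okn hδ hp' j θ).2
    exact sum_ne h3 (tt_ne (hp'.okp two_ne_zero j)) (psi_ne (h.okn hδ hp' j θ).1)
      (psi_ne (h.okn hδ hp' j θ).2)
  have ddl : ∀ N M : ℂ, 1 + N + M ≠ 0 → dl (dl M N) (dl N M) = N := by
    intro N M h3
    have h4 : 1 + M + N ≠ 0 := fun h4 => h3 (by linear_combination h4)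
    have a1 : dl M N = -((1 + N) / (1 + N + M)) := by
      unfold dl
      rw [show 1 + M + N = 1 + N + M from by ring]
    have a2 : dl N M = -((1 + M) / (1 + N + M)) := rfl
    have b1 : 1 + dl N M = N / (1 + N + M) := by
      rw [a2]
      field_simp
      ring
    have b3 : 1 + dl M N + dl N M = -(1 / (1 + N + M)) := by
      rw [a1, a2]
      field_simp
      ring
    show -((1 + dl N M) / (1 + dl M N + dl N M)) = N
    rw [b1, b3]
    field_simp
  refine ⟨mkL cn cm (fun x => by rw [nn_add_one, mm_add_one])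
    (fun x => by rw [nn_add_one, mm_add_one]) hP, fun θ k => Pt.evA_cO _ k, fun j => ⟨?_, ?_⟩⟩
  · rw [mkL_reg0 cn cm _ _ hP j (hp.okp h2 j) (by rw [ht]; exact hp.ht j)]
    unfold R1
    congr 1
    · funext θ
      rw [v1, v2]
      exact ddl _ _ (vs j θ)
    · funext θ
      rw [v1, v2]
      refine ddl _ _ fun h3 => vs j θ (by linear_combination h3)
  · rw [mkL_reg1 cn cm _ _ hP j]
    unfold R0
    rw [Pool.Agent.TH690.UR.pr_symm]
    simp only [v1, v2]

end loops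

section main

theorem sum5 {M : Matrix (Fin 3 × Fin 2) (Fin 3 × Fin 2) ℝ} {L : Fin 3 × Fin 2 → ℝ}
    (hL : ∀ x, 0 < L x) (h1 : ∀ x, 7 * π * L x ≤ |M x x|)
    (h2 : ∀ x y, y ≠ x → |M x y| ≤ 5 / 4 * π * L x) : M.det ≠ 0 := by
  refine det_ne_zero_of_sum_row_lt_diag fun x => ?_
  have h3 : ∑ y ∈ Finset.univ.erase x, ‖M x y‖ ≤ ∑ y ∈ Finset.univ.erase x, 5 / 4 * π * L x :=
    Finset.sum_le_sum fun y hy => h2 x y (Finset.ne_of_mem_erase hy)
  rw [Finset.sum_const, Finset.card_erase_of_mem (Finset.mem_univ x), Finset.card_univ] at h3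
  have hc : Fintype.card (Fin 3 × Fin 2) = 6 := by decide
  rw [hc] at h3
  have h4 := h1 x
  have h5 : 0 < π * L x := mul_pos Real.pi_pos (hL x)
  rw [Real.norm_eq_abs]
  refine h3.trans_lt (lt_of_lt_of_le ?_ h4)
  simp only [nsmul_eq_mul]
  push_cast
  linarith

/-- The main theorem on the regulators. -/
theorem exists_c : ∃ c : ℝ, 3 < c ∧ ∀ (K : Type*) [Field K] (p : Fin 3 → Kˣ) (t : Kˣ),
    Rel (cf p) → (t : K) = tp (cf p) → ∀ s : Fin 3 × Fin 2 → (K →+* ℂ),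
    (∀ i j, j ≠ i → c ≤ ‖s (i, 0) (p j)‖) → (∀ i j, j ≠ i → c * ‖s (i, 1) (p j)‖ ≤ 1) →
    ‖s (0, 0) t‖ < 1 / 100 ∧ ∃ Γ : Fin 3 × Fin 2 → Torus (Opn (t : K) (cf p)) 1,
      (∀ x θ k, (Γ x).e θ (cO (t : K) (cf p) k) = s x k) ∧
      (Matrix.of fun x y : Fin 3 × Fin 2 => (Γ x).reg (symb (ent t p y.1 y.2))).det ≠ 0 := by
  obtain ⟨δ, hδ⟩ := exists_good
  have hd0 := hδ.pos
  have hd1 : δ ≤ 1 / 100 := hδ.le
  have hc0 : 0 < 4 / δ := by positivity
  refine ⟨4 / δ, ?_, fun K _ p t hp ht s hB hA => ?_⟩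
  · rw [lt_div_iff₀ hd0]
    linarith
  have nB : ∀ i, Near δ (fun j => s (i, 0) (cf p j)) i := fun i =>
    near_of hδ.pos hδ.le (hp.map _) (hB i)
  have nA : ∀ i, Near δ (fun j => dp (s (i, 1) (cf p j))) i := by
    intro i
    refine near_of hδ.pos hδ.le (hp.map _).dual fun j hj => ?_
    have h1 := hA i j hj
    have h2 : s (i, 1) (cf p j) ≠ 0 := (map_ne_zero _).2 (hp.ne j)
    have h3 : 0 < ‖s (i, 1) (cf p j)‖ := norm_pos_iff.2 h2
    unfold dp
    rw [norm_neg, norm_div, norm_one, le_div_iff₀ h3]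
    exact h1
  choose ΓB hB1 hB2 using fun i => loopB hδ hp ht (nB i)
  choose ΓA hA1 hA2 using fun i => loopA hδ hp ht (nA i)
  have hsm : ‖s (0, 0) t‖ < 1 / 100 := by
    have h1 := (nB 0).small hδ (hp.map _)
    have e := tp_map (s (0, 0)) (cf p)
    rw [← ht] at e
    rw [e] at h1
    exact h1
  refine ⟨hsm, fun x => if x.2 = 0 then ΓB x.1 else ΓA x.1, ?_, ?_⟩
  · rintro ⟨i, c⟩ θ k
    fin_cases c
    · exact hB1 i θ k
    · exact hA1 i θ k
  · have bB := fun i => (nB i).bounds hδ (hp.map _)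
    have bA := fun i => (nA i).bounds hδ (hp.map _).dual
    refine sum5 (L := fun x => if x.2 = 0 then -Real.log ‖tp fun j => s (x.1, 0) (cf p j)‖ else
      -Real.log ‖tp fun j => dp (s (x.1, 1) (cf p j))‖) ?_ ?_ ?_
    · rintro ⟨i, c⟩
      fin_cases c
      · exact (bB i).1
      · exact (bA i).1
    · rintro ⟨i, c⟩
      fin_cases c
      · show _ ≤ |(ΓB i).reg (symb (ent t p i 0))|
        rw [(hB2 i i).1]
        have h := (bB i).2.1
        have e := tp_map (s (i, 0)) (cf p)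
        rw [← ht] at e
        rw [e] at h
        refine le_trans ?_ (le_abs_self _)
        show 7 * π * (-Real.log ‖tp fun j => s (i, 0) (cf p j)‖) ≤ _
        rw [e]
        exact h
      · show _ ≤ |(ΓA i).reg (symb (ent t p i 1))|
        rw [(hA2 i i).2, abs_neg]
        exact (bA i).2.1.trans (le_abs_self _)
    · rintro ⟨i, c⟩ ⟨j, d⟩ hne
      fin_cases c
      · have e := tp_map (s (i, 0)) (cf p)
        rw [← ht] at e
        have h := bB i
        rw [e] at h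
        show |(ΓB i).reg (symb (ent t p j d))| ≤
          5 / 4 * π * (-Real.log ‖tp fun j => s (i, 0) (cf p j)‖)
        rw [e]
        fin_cases d
        · have hj : j ≠ i := fun hj => hne (by rw [hj])
          show |(ΓB i).reg (symb (ent t p j 0))| ≤ _
          rw [(hB2 i j).1]
          exact (h.2.2.2 j hj).1
        · show |(ΓB i).reg (symb (ent t p j 1))| ≤ _
          rw [(hB2 i j).2]
          by_cases hj : j = i
          · rw [hj]
            exact h.2.2.1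
          · exact (h.2.2.2 j hj).2
      · have h := bA i
        show |(ΓA i).reg (symb (ent t p j d))| ≤
          5 / 4 * π * (-Real.log ‖tp fun j => dp (s (i, 1) (cf p j))‖)
        fin_cases d
        · show |(ΓA i).reg (symb (ent t p j 0))| ≤ _
          rw [(hA2 i j).1]
          by_cases hj : j = i
          · rw [hj]
            exact h.2.2.1
          · exact (h.2.2.2 j hj).2
        · have hj : j ≠ i := fun hj => hne (by rw [hj])
          show |(ΓA i).reg (symb (ent t p j 1))| ≤ _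
          rw [(hA2 i j).2, abs_neg]
          exact (h.2.2.2 j hj).1

end main

end Pool.Agent.R388.SX
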