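import Pool.Agent.R388.SX.Unr
import Pool.Agent.R388.SX.Alg
import Pool.Agent.TH826.MK.Variety
set_option autoImplicit false

/-!
The elliptic curves `Y² + (1 - t) X Y - t Y = X³ - t X²` with a point of order 5 and rational points
of order 2, and the symbols obtained from the isogenies of degree 2.
-/

namespace Pool.Agent.R388.SX

open Polynomial

open scoped WithZero

open Pool.Agent.TH826.MK (KQ symb Unramified unitPart val_le_one_of_integral)

variable {K : Type*} [Field K]

/-- The Weierstrass curve `Y² + (1 - t) X Y - t Y = X³ - t X²`. -/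
def crv (t : K) : WeierstrassCurve K where
  a₁ := 1 - t
  a₂ := -t
  a₃ := -t
  a₄ := 0
  a₆ := 0

theorem disc_crv (t : K) : (crv t).Δ = t ^ 5 * (t ^ 2 - 11 * t - 1) := by
  simp only [WeierstrassCurve.Δ, WeierstrassCurve.b₂, WeierstrassCurve.b₄, WeierstrassCurve.b₆,
    WeierstrassCurve.b₈, crv]
  ring

/-- The affine coordinate ring of the curve. -/
abbrev CR (t : K) : Type _ := WeierstrassCurve.Affine.CoordinateRing (crv t)

/-- The constants. -/
noncomputable def cst (t : K) : K →+* CR t :=
  (WeierstrassCurve.Affine.CoordinateRing.mk (crv t)).comp (C.comp C)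

/-- The first coordinate. -/
noncomputable def cX (t : K) : CR t :=
  WeierstrassCurve.Affine.CoordinateRing.mk (crv t) (C X)

/-- The second coordinate. -/
noncomputable def cY (t : K) : CR t :=
  WeierstrassCurve.Affine.CoordinateRing.mk (crv t) X

theorem cY_eqn (t : K) :
    cY t ^ 2 + cst t (1 - t) * cX t * cY t - cst t t * cY t = cX t ^ 3 - cst t t * cX t ^ 2 := by
  have h : (WeierstrassCurve.Affine.CoordinateRing.mk (crv t)) (X ^ 2 +
      C (C (1 - t) * X + C (-t)) * X - C (X ^ 3 + C (-t) * X ^ 2 + C 0 * X + C 0)) = 0 :=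
    AdjoinRoot.mk_self
  have e1 : ∀ k : K, (WeierstrassCurve.Affine.CoordinateRing.mk (crv t)) (C (C k)) = cst t k :=
    fun _ => rfl
  have e2 : (WeierstrassCurve.Affine.CoordinateRing.mk (crv t)) (C X) = cX t := rfl
  have e3 : (WeierstrassCurve.Affine.CoordinateRing.mk (crv t)) X = cY t := rfl
  simp only [C_add, C_mul, C_pow] at h
  rw [map_sub, map_add, map_add, map_add, map_add, map_mul, map_mul, map_mul, map_add, map_mul,
    map_pow, map_pow, map_pow, e1, e1, e1, e2, e3, map_neg, map_zero] at h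
  linear_combination h

section functions

variable (t : K)

/-- `X - t` -/
noncomputable def fw : CR t := cX t - cst t t

/-- The numerator `Y` of the function `m = Y / (X - t)`. -/
noncomputable def fm : CR t := cY t

/-- The numerator of the function `n = - (Y + (1 - t) X - t) / (X - t)`. -/
noncomputable def fn : CR t := -(cY t + cst t (1 - t) * cX t - cst t t)

theorem f_rel : (fw t + fn t) * (fw t + fm t) * (fw t + fn t + fm t) =
    cst t t * fn t * fm t * fw t := by
  have h := cY_eqn t
  have h1 : cst t (1 - t) = 1 - cst t t := by rw [map_sub, map_one]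
  unfold fw fm fn
  rw [h1] at h ⊢
  linear_combination (-(cst t t) ^ 2) * h

/-- The two functions `n` (for `false`) and `m` (for `true`), multiplied by `X - t`. -/
noncomputable def fu (b : Bool) : CR t := cond b (fm t) (fn t)

/-- The form `p² u + (p² - 1) w`. -/
noncomputable def lA (p : K) (u : CR t) : CR t := cst t (p ^ 2) * u + cst t (p ^ 2 - 1) * fw t

/-- The form `(1 + p) u + p w`. -/
noncomputable def lB (p : K) (u : CR t) : CR t := cst t (1 + p) * u + cst t p * fw t

/-- The form `p u + w`. -/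
noncomputable def lC (p : K) (u : CR t) : CR t := cst t p * u + fw t

variable (p : Fin 3 → K)

/-- The product of all linear forms which are inverted. -/
noncomputable def del : CR t :=
  fw t * (∏ b, fu t b * (fw t + fu t b)) *
    ∏ x : Fin 3 × Bool, lA t (p x.1) (fu t x.2) * lB t (p x.1) (fu t x.2) * lC t (p x.1) (fu t x.2)

/-- The polynomial `del Z - 1`. -/
noncomputable def oeq : (CR t)[X] := C (del t p) * X - 1

/-- The coordinate ring `R[Z] / (del Z - 1)` of the open part of the curve on which the linear forms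
do not vanish. -/
def Opn : Type _ := AdjoinRoot (oeq t p)

noncomputable instance instOpn : CommRing (Opn t p) := AdjoinRoot.instCommRing (oeq t p)

/-- The restriction of functions to the open part. -/
noncomputable def toO : CR t →+* Opn t p := AdjoinRoot.of (oeq t p)

noncomputable instance instAlgOpn : Algebra (CR t) (Opn t p) :=
  inferInstanceAs (Algebra (CR t) (AdjoinRoot (oeq t p)))

instance instLocOpn : IsLocalization.Away (del t p) (Opn t p) :=
  IsLocalization.adjoin_inv (del t p)

/-- The constants in the ring of the open part. -/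
noncomputable def cO : K →+* Opn t p := (toO t p).comp (cst t)

theorem isUnit_del : IsUnit (toO t p (del t p)) := IsLocalization.Away.algebraMap_isUnit (del t p)

variable {t p}

theorem isUnit_of {a : CR t} (h : a ∣ del t p) : IsUnit (toO t p a) :=
  isUnit_of_dvd_unit (map_dvd _ h) (isUnit_del t p)

theorem dvd_w : fw t ∣ del t p := (dvd_mul_right _ _).trans (dvd_mul_right _ _)

theorem dvd_u (b : Bool) : fu t b ∣ del t p := by
  have h : fu t b * (fw t + fu t b) ∣ ∏ b, fu t b * (fw t + fu t b) :=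
    Finset.dvd_prod_of_mem (fun b => fu t b * (fw t + fu t b)) (Finset.mem_univ b)
  exact (((dvd_mul_right _ _).trans h).trans (dvd_mul_left _ _)).trans (dvd_mul_right _ _)

theorem dvd_1 (b : Bool) : fw t + fu t b ∣ del t p := by
  have h : fu t b * (fw t + fu t b) ∣ ∏ b, fu t b * (fw t + fu t b) :=
    Finset.dvd_prod_of_mem (fun b => fu t b * (fw t + fu t b)) (Finset.mem_univ b)
  exact (((dvd_mul_left _ _).trans h).trans (dvd_mul_left _ _)).trans (dvd_mul_right _ _)

theorem dvd_x (x : Fin 3 × Bool) : lA t (p x.1) (fu t x.2) * lB t (p x.1) (fu t x.2) *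
    lC t (p x.1) (fu t x.2) ∣ del t p := by
  have h := Finset.dvd_prod_of_mem (fun x : Fin 3 × Bool => lA t (p x.1) (fu t x.2) *
    lB t (p x.1) (fu t x.2) * lC t (p x.1) (fu t x.2)) (Finset.mem_univ x)
  exact h.trans (dvd_mul_left _ _)

theorem dvd_A (i : Fin 3) (b : Bool) : lA t (p i) (fu t b) ∣ del t p :=
  ((dvd_mul_right _ _).trans (dvd_mul_right _ _)).trans (dvd_x (i, b))

theorem dvd_B (i : Fin 3) (b : Bool) : lB t (p i) (fu t b) ∣ del t p :=
  ((dvd_mul_left _ _).trans (dvd_mul_right _ _)).trans (dvd_x (i, b))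

theorem dvd_C (i : Fin 3) (b : Bool) : lC t (p i) (fu t b) ∣ del t p :=
  (dvd_mul_left _ _).trans (dvd_x (i, b))

variable (t p)

/-- The unit `X - t`. -/
noncomputable def uW : (Opn t p)ˣ := (isUnit_of dvd_w).unit

/-- The units given by the numerators of `n` and `m`. -/
noncomputable def uU (b : Bool) : (Opn t p)ˣ := (isUnit_of (dvd_u b)).unit

/-- The units given by the numerators of `1 + n` and `1 + m`. -/
noncomputable def u1 (b : Bool) : (Opn t p)ˣ := (isUnit_of (dvd_1 b)).unit

/-- The units given by the forms `p² u + (p² - 1) w`. -/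
noncomputable def uA (i : Fin 3) (b : Bool) : (Opn t p)ˣ := (isUnit_of (dvd_A i b)).unit

/-- The units given by the forms `(1 + p) u + p w`. -/
noncomputable def uB (i : Fin 3) (b : Bool) : (Opn t p)ˣ := (isUnit_of (dvd_B i b)).unit

/-- The units given by the forms `p u + w`. -/
noncomputable def uC (i : Fin 3) (b : Bool) : (Opn t p)ˣ := (isUnit_of (dvd_C i b)).unit

theorem coe_uW : (uW t p : Opn t p) = toO t p (fw t) := rfl
theorem coe_uU (b : Bool) : (uU t p b : Opn t p) = toO t p (fu t b) := rfl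
theorem coe_u1 (b : Bool) : (u1 t p b : Opn t p) = toO t p (fw t + fu t b) := rfl
theorem coe_uA (i : Fin 3) (b : Bool) : (uA t p i b : Opn t p) = toO t p (lA t (p i) (fu t b)) :=
  rfl
theorem coe_uB (i : Fin 3) (b : Bool) : (uB t p i b : Opn t p) = toO t p (lB t (p i) (fu t b)) :=
  rfl
theorem coe_uC (i : Fin 3) (b : Bool) : (uC t p i b : Opn t p) = toO t p (lC t (p i) (fu t b)) :=
  rfl

end functions

section entries

/-- the underlying elements of `K` -/
def cf (p : Fin 3 → Kˣ) : Fin 3 → K := fun i => (p i : K)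

variable (t : Kˣ) (p : Fin 3 → Kˣ) (i : Fin 3) (b : Bool)

/-- `u A / (w B)` -/
def gPsi {R : Type*} [CommRing R] (u A w B : Rˣ) : Rˣ := u * A / (w * B)

/-- `c u C / (w B)` -/
def gPsi1 {R : Type*} [CommRing R] (c u C w B : Rˣ) : Rˣ := c * u * C / (w * B)

/-- `-(M₁² N₁ / (c N M))` -/
def gDual {R : Type*} [CommRing R] (c N M N1 M1 : Rˣ) : Rˣ := -(M1 ^ 2 * N1 / (c * N * M))

/-- The function `ψ (u) = u (p² u + p² - 1) / ((1 + p) u + p)` of `u = n` or `u = m`. -/
noncomputable def Psi : (Opn (t : K) (cf p))ˣ :=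
  gPsi (uU _ _ b) (uA _ _ i b) (uW _ _) (uB _ _ i b)

/-- The constant units. -/
noncomputable def cU (k : Kˣ) : (Opn (t : K) (cf p))ˣ :=
  Units.map (cO (t : K) (cf p)).toMonoidHom k

/-- The function `1 + ψ (u) = p (u + 1) (p u + 1) / ((1 + p) u + p)`. -/
noncomputable def Psi1 : (Opn (t : K) (cf p))ˣ :=
  gPsi1 (cU t p (p i)) (u1 _ _ b) (uC _ _ i b) (uW _ _) (uB _ _ i b)

/-- The parameter `- p⁵ t²` of the isogenous curve. -/
def tu : Kˣ := -(p i ^ 5 * t ^ 2)

/-- The entries of the symbols: `{ψ(n), ψ(m)}` for `c = 1` and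
`{-(1 + ψ(m)) / (1 + ψ(n) + ψ(m)), -(1 + ψ(n)) / (1 + ψ(n) + ψ(m))}` for `c = 0`, where
`(1 + ψ(n)) (1 + ψ(m)) (1 + ψ(n) + ψ(m)) = t' ψ(n) ψ(m)`. -/
noncomputable def ent (i : Fin 3) (c : Fin 2) : Fin 2 → (Opn (t : K) (cf p))ˣ :=
  if c = 1 then ![Psi t p i false, Psi t p i true] else
    ![gDual (cU t p (tu t p i)) (Psi t p i false) (Psi t p i true) (Psi1 t p i false)
        (Psi1 t p i true),
      gDual (cU t p (tu t p i)) (Psi t p i false) (Psi t p i true) (Psi1 t p i true)
        (Psi1 t p i false)]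

variable {t p}

theorem Psi_mul : (Psi t p i b : Opn (t : K) (cf p)) * (uW (t : K) (cf p) * uB (t : K) (cf p) i b) =
    uU (t : K) (cf p) b * uA (t : K) (cf p) i b := by
  unfold Psi gPsi
  rw [← Units.val_mul, ← Units.val_mul, ← Units.val_mul, div_mul_cancel]

theorem Psi1_mul :
    (Psi1 t p i b : Opn (t : K) (cf p)) * (uW (t : K) (cf p) * uB (t : K) (cf p) i b) =
    cO (t : K) (cf p) (p i) * u1 (t : K) (cf p) b * uC (t : K) (cf p) i b := by
  unfold Psi1 gPsi1
  rw [← Units.val_mul, ← Units.val_mul, div_mul_cancel, Units.val_mul, Units.val_mul]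
  rfl

theorem toO_lA (q : K) (u : CR (t : K)) : toO (t : K) (cf p) (lA (t : K) q u) =
    cO (t : K) (cf p) q ^ 2 * toO (t : K) (cf p) u +
      (cO (t : K) (cf p) q ^ 2 - 1) * uW (t : K) (cf p) := by
  have e : cO (t : K) (cf p) (q ^ 2 - 1) = cO (t : K) (cf p) q ^ 2 - 1 := by
    rw [map_sub, map_one, map_pow]
  unfold lA
  rw [map_add, map_mul, map_mul, ← e, ← map_pow]
  rfl

theorem toO_lB (q : K) (u : CR (t : K)) : toO (t : K) (cf p) (lB (t : K) q u) =
    (1 + cO (t : K) (cf p) q) * toO (t : K) (cf p) u +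
      cO (t : K) (cf p) q * uW (t : K) (cf p) := by
  have e : cO (t : K) (cf p) (1 + q) = 1 + cO (t : K) (cf p) q := by
    rw [map_add, map_one]
  unfold lB
  rw [map_add, map_mul, map_mul, ← e]
  rfl

theorem toO_lC (q : K) (u : CR (t : K)) : toO (t : K) (cf p) (lC (t : K) q u) =
    cO (t : K) (cf p) q * toO (t : K) (cf p) u + uW (t : K) (cf p) := by
  unfold lC
  rw [map_add, map_mul]
  rfl

theorem coe_Psi1 : (Psi1 t p i b : Opn (t : K) (cf p)) = 1 + Psi t p i b := by
  refine (uW (t : K) (cf p) * uB (t : K) (cf p) i b).isUnit.mul_right_cancel ?_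
  have e : cO (t : K) (cf p) (p i) = cO (t : K) (cf p) (cf p i) := rfl
  rw [Units.val_mul, add_mul, one_mul, Psi_mul, Psi1_mul, coe_u1, coe_uC, coe_uB, coe_uU,
    coe_uA, toO_lA, toO_lB, toO_lC, map_add, ← coe_uW, e]
  exact ring_psi1 _ _ _

theorem tempered1 (hp : Okp (p i : K)) (ht : (t : K) * (p i : K) ^ 2 * (1 + p i) = 1 - p i) :
    (1 + (Psi t p i false : Opn (t : K) (cf p))) * (1 + Psi t p i true) *
      (1 + Psi t p i false + Psi t p i true) =
      cO (t : K) (cf p) (tu t p i) * Psi t p i false * Psi t p i true := by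
  have hw := coe_uW (t : K) (cf p)
  have hF := congrArg (toO (t : K) (cf p)) (f_rel (t : K))
  have hn := coe_uU (t : K) (cf p) false
  have hm := coe_uU (t : K) (cf p) true
  have hF2 : (uW (t : K) (cf p) + uU (t : K) (cf p) false : Opn (t : K) (cf p)) *
      (uW (t : K) (cf p) + uU (t : K) (cf p) true) *
      (uW (t : K) (cf p) + uU (t : K) (cf p) false + uU (t : K) (cf p) true) =
      cO (t : K) (cf p) t * uU (t : K) (cf p) false * uU (t : K) (cf p) true *
        uW (t : K) (cf p) := by
    rw [hw, hn, hm]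
    rw [map_mul, map_mul, map_mul, map_mul, map_mul, map_add, map_add, map_add, map_add] at hF
    exact hF
  have hA : ∀ b, (uA (t : K) (cf p) i b : Opn (t : K) (cf p)) =
      cO (t : K) (cf p) (p i) ^ 2 * uU (t : K) (cf p) b +
        (cO (t : K) (cf p) (p i) ^ 2 - 1) * uW (t : K) (cf p) := fun b => toO_lA (p i : K) _
  have hB : ∀ b, (uB (t : K) (cf p) i b : Opn (t : K) (cf p)) =
      (1 + cO (t : K) (cf p) (p i)) * uU (t : K) (cf p) b +
        cO (t : K) (cf p) (p i) * uW (t : K) (cf p) := fun b => toO_lB (p i : K) _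
  have hC : ∀ b, (uC (t : K) (cf p) i b : Opn (t : K) (cf p)) =
      cO (t : K) (cf p) (p i) * uU (t : K) (cf p) b + uW (t : K) (cf p) :=
    fun b => toO_lC (p i : K) _
  have h1 : ∀ b, (u1 (t : K) (cf p) b : Opn (t : K) (cf p)) =
      uW (t : K) (cf p) + uU (t : K) (cf p) b := by
    intro b
    rw [coe_u1, coe_uU, coe_uW, map_add]
  have htp := congrArg (cO (t : K) (cf p)) ht
  have htt0 : (1 + (p i : K)) ^ 2 * (tu t p i : K) = -((p i : K) * (1 - p i) ^ 2) := by
    rw [← ht]
    unfold tu
    push_cast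
    ring
  have htt : (1 + cO (t : K) (cf p) (p i)) ^ 2 * cO (t : K) (cf p) (tu t p i) =
      -(cO (t : K) (cf p) (p i) * (1 - cO (t : K) (cf p) (p i)) ^ 2) := by
    have h := congrArg (cO (t : K) (cf p)) htt0
    rw [map_mul, map_pow, map_add, map_one, map_neg, map_mul, map_pow, map_sub, map_one] at h
    exact h
  rw [map_mul, map_mul, map_pow, map_add, map_sub, map_one] at htp
  have P0 := Psi_mul (t := t) (p := p) i false
  have P1 := Psi_mul (t := t) (p := p) i true
  have Q0 := Psi1_mul (t := t) (p := p) i false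
  have Q1 := Psi1_mul (t := t) (p := p) i true
  rw [coe_Psi1] at Q0 Q1
  have hu : IsUnit (1 + cO (t : K) (cf p) (p i)) := by
    rw [← map_one (cO (t : K) (cf p)), ← map_add]
    exact (IsUnit.mk0 _ hp.p1).map _
  exact ring_eqn (uW (t : K) (cf p)).isUnit (uB (t : K) (cf p) i false).isUnit
    (uB (t : K) (cf p) i true).isUnit hu hF2 htp htt (hA false) (hA true) (hB false) (hB true)
    (hC false) (hC true) (h1 false) (h1 true) P0 P1 Q0 Q1

/-- The unit `1 + ψ(n) + ψ(m)`. -/
theorem exists_sum (hp : Okp (p i : K)) (ht : (t : K) * (p i : K) ^ 2 * (1 + p i) = 1 - p i) :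
    ∃ S : (Opn (t : K) (cf p))ˣ, (S : Opn (t : K) (cf p)) =
      1 + Psi t p i false + Psi t p i true ∧
      cU t p (tu t p i) * Psi t p i false * Psi t p i true =
        Psi1 t p i false * Psi1 t p i true * S := by
  have h := tempered1 i hp ht
  refine ⟨cU t p (tu t p i) * Psi t p i false * Psi t p i true /
    (Psi1 t p i false * Psi1 t p i true), ?_, ?_⟩
  · refine (Psi1 t p i false * Psi1 t p i true).isUnit.mul_left_cancel ?_
    rw [← Units.val_mul, mul_div_cancel, Units.val_mul, Units.val_mul, Units.val_mul, coe_Psi1,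
      coe_Psi1, h]
    rfl
  · rw [mul_div_cancel]

/-- The entries of the symbols, in terms of `S = 1 + ψ(n) + ψ(m)`. -/
theorem ent_zero {S : (Opn (t : K) (cf p))ˣ}
    (hS : cU t p (tu t p i) * Psi t p i false * Psi t p i true =
        Psi1 t p i false * Psi1 t p i true * S) :
    ent t p i 0 = ![-(Psi1 t p i true / S), -(Psi1 t p i false / S)] := by
  have e : ent t p i 0 = ![-(Psi1 t p i true ^ 2 * Psi1 t p i false /
        (cU t p (tu t p i) * Psi t p i false * Psi t p i true)),
      -(Psi1 t p i false ^ 2 * Psi1 t p i true /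
        (cU t p (tu t p i) * Psi t p i false * Psi t p i true))] := if_neg (by decide)
  rw [e, hS]
  have e1 : ∀ a b S : (Opn (t : K) (cf p))ˣ, a ^ 2 * b / (b * a * S) = a / S := by
    intro a b S
    rw [div_eq_div_iff_mul_eq_mul, pow_two]
    simp only [mul_comm, mul_left_comm]
  rw [e1, mul_comm (Psi1 t p i false) (Psi1 t p i true), e1]

theorem ent_one : ent t p i 1 = ![Psi t p i false, Psi t p i true] := if_pos rfl

theorem tempered0 (hp : Okp (p i : K)) (ht : (t : K) * (p i : K) ^ 2 * (1 + p i) = 1 - p i) :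
    (1 + (ent t p i 0 0 : Opn (t : K) (cf p))) * (1 + ent t p i 0 1) *
      (1 + ent t p i 0 0 + ent t p i 0 1) =
      cO (t : K) (cf p) (-(tu t p i : K)⁻¹) * ent t p i 0 0 * ent t p i 0 1 := by
  obtain ⟨S, hS1, hS2⟩ := exists_sum i hp ht
  rw [ent_zero i hS2]
  have h := tempered1 i hp ht
  have hX : ((-(Psi1 t p i true / S) : (Opn (t : K) (cf p))ˣ) : Opn (t : K) (cf p)) * S =
      -(Psi1 t p i true : Opn (t : K) (cf p)) := by
    rw [← Units.val_mul, neg_mul, div_mul_cancel, Units.val_neg]
  have hY : ((-(Psi1 t p i false / S) : (Opn (t : K) (cf p))ˣ) : Opn (t : K) (cf p)) * S =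
      -(Psi1 t p i false : Opn (t : K) (cf p)) := by
    rw [← Units.val_mul, neg_mul, div_mul_cancel, Units.val_neg]
  have h2 := ring_dual (coe_Psi1 i false) (coe_Psi1 i true) hS1 h S.isUnit hX hY
  have hT : cO (t : K) (cf p) (-(tu t p i : K)⁻¹) * cO (t : K) (cf p) (tu t p i) = -1 := by
    rw [← map_mul, neg_mul, inv_mul_cancel₀ (tu t p i).ne_zero, map_neg, map_one]
  have hu : IsUnit (cO (t : K) (cf p) (tu t p i)) := (tu t p i).isUnit.map _
  refine hu.mul_left_cancel ?_
  have e0 : (![-(Psi1 t p i true / S), -(Psi1 t p i false / S)] : Fin 2 → (Opn (t : K) (cf p))ˣ) 0 =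
    -(Psi1 t p i true / S) := rfl
  have e1 : (![-(Psi1 t p i true / S), -(Psi1 t p i false / S)] : Fin 2 → (Opn (t : K) (cf p))ˣ) 1 =
    -(Psi1 t p i false / S) := rfl
  rw [e0, e1, h2, ← mul_assoc, ← mul_assoc, mul_comm (cO (t : K) (cf p) (tu t p i))
    (cO (t : K) (cf p) (-(tu t p i : K)⁻¹)), hT, neg_mul, one_mul, neg_mul]

end entries

section unramified

variable {t : Kˣ} {p : Fin 3 → Kˣ} {L : Type*} [Field L] (f : Opn (t : K) (cf p) →+* L)

/-- The symbols are unramified if all `p_i` and `t` are units of the ring of integers. -/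
theorem symb_unramified (i : Fin 3) (c : Fin 2) (hp : Okp (p i : K))
    (ht : (t : K) * (p i : K) ^ 2 * (1 + p i) = 1 - p i)
    (hi1 : IsIntegral ℤ (tu t p i : K)) (hi2 : IsIntegral ℤ ((tu t p i : K)⁻¹)) :
    KQ.map 2 f (symb (ent t p i c)) ∈ Unramified L 2 := by
  rw [KQ.map_symb]
  unfold Unramified
  simp only [Submodule.mem_iInf]
  intro v _
  have e : (fun l => Units.map (f : Opn (t : K) (cf p) →* L) (ent t p i c l)) =
      ![Units.map (f : Opn (t : K) (cf p) →* L) (ent t p i c 0),
        Units.map (f : Opn (t : K) (cf p) →* L) (ent t p i c 1)] := by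
    funext l
    fin_cases l <;> rfl
  rw [e]
  have hc : ∀ k : K, IsIntegral ℤ k → v (f (cO (t : K) (cf p) k)) ≤ 1 := fun k hk =>
    val_le_one_of_integral v (map_isIntegral_int (f.comp (cO (t : K) (cf p))) hk)
  fin_cases c
  · have h := congrArg f (tempered0 i hp ht)
    simp only [map_mul, map_add, map_one] at h
    exact mem_unitPart_of_eqn v (hc _ hi2.neg) h
  · have h := congrArg f (tempered1 i hp ht)
    simp only [map_mul, map_add, map_one] at h
    have h2 := mem_unitPart_of_eqn v (x := Units.map (f : Opn (t : K) (cf p) →* L)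
      (Psi t p i false)) (y := Units.map (f : Opn (t : K) (cf p) →* L) (Psi t p i true))
      (hc _ hi1) h
    exact h2

end unramified

end Pool.Agent.R388.SX
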