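import Pool.Agent.R388.SX.Near
import Pool.Agent.R388.SX.Irr
set_option autoImplicit false

/-!
The sextic fields.
-/

namespace Pool.Agent.R388.SX

open Polynomial NumberField

open scoped ComplexConjugate

section field

variable {F : Type*} [Field F]

/-- The quadratic form `x² + 2 x - 1`. -/
def qA (x : F) : F := x ^ 2 + 2 * x - 1

/-- the second unit -/
def qf (m x : F) : F := (1 + x) * (2 * m * x - qA x) / (2 * qA x)

/-- the third unit -/
def rf (m x : F) : F := -((1 + x) * (2 * m * x + qA x) / (2 * qA x))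

/-- the equation -/
def EQ (m x : F) : Prop := x ^ 6 + 8 * x ^ 5 + (17 - 4 * m ^ 2) * x ^ 4 -
  (17 - 4 * m ^ 2) * x ^ 2 + 8 * x - 1 = 0

variable {m x : F}

theorem EQ.form (h : EQ m x) : (x ^ 2 + 4 * x - 1) * qA x ^ 2 = 4 * m ^ 2 * x ^ 2 * (x ^ 2 - 1) := by
  unfold EQ at h
  unfold qA
  linear_combination h

theorem EQ.x_ne (h : EQ m x) : x ≠ 0 := by
  intro h0
  unfold EQ at h
  rw [h0] at h
  have h1 : (1 : F) = 0 := by linear_combination -h
  exact one_ne_zero h1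

theorem EQ.x_inv (h : EQ m x) :
    x⁻¹ = x ^ 5 + 8 * x ^ 4 + (17 - 4 * m ^ 2) * x ^ 3 - (17 - 4 * m ^ 2) * x + 8 := by
  refine inv_eq_of_mul_eq_one_right ?_
  unfold EQ at h
  linear_combination h

variable (h2 : (2 : F) ≠ 0)

include h2

theorem EQ.sq_ne (h : EQ m x) : x ^ 2 - 1 ≠ 0 := by
  intro h0
  have h1 := h.form
  have h3 := h.x_ne
  rw [h0, mul_zero] at h1
  unfold qA at h1
  have h4 : (2 : F) ^ 4 * x ^ 3 = 0 := by
    have e : x ^ 2 = 1 := by linear_combination h0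
    have e1 : x ^ 2 + 4 * x - 1 = 4 * x := by linear_combination e
    have e2 : x ^ 2 + 2 * x - 1 = 2 * x := by linear_combination e
    rw [e1, e2] at h1
    linear_combination h1
  exact mul_ne_zero (pow_ne_zero 4 h2) (pow_ne_zero 3 h3) h4

theorem EQ.A_ne (h : EQ m x) (hm : m ≠ 0) : qA x ≠ 0 := by
  intro h0
  have h1 := h.form
  rw [h0] at h1
  have h3 : 4 * m ^ 2 * x ^ 2 * (x ^ 2 - 1) ≠ 0 := by
    refine mul_ne_zero (mul_ne_zero (mul_ne_zero ?_ (pow_ne_zero 2 hm)) (pow_ne_zero 2 h.x_ne))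
      (h.sq_ne h2)
    have e : (4 : F) = 2 * 2 := by norm_num
    rw [e]
    exact mul_ne_zero h2 h2
  exact h3 (by rw [← h1]; ring)

omit h2 in
theorem EQ.key (h : EQ m x) : (2 * m * x - qA x) * (2 * m * x + qA x) * (x ^ 2 - 1) =
    4 * x * qA x ^ 2 := by
  have h1 := h.form
  unfold qA at *
  linear_combination -h1

theorem EQ.ne (h : EQ m x) (hm : m ≠ 0) : 2 * m * x - qA x ≠ 0 ∧ 2 * m * x + qA x ≠ 0 := by
  have h1 := h.key
  have h3 : 4 * x * qA x ^ 2 ≠ 0 := by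
    refine mul_ne_zero (mul_ne_zero ?_ h.x_ne) (pow_ne_zero 2 (h.A_ne h2 hm))
    have e : (4 : F) = 2 * 2 := by norm_num
    rw [e]
    exact mul_ne_zero h2 h2
  rw [← h1] at h3
  exact ⟨left_ne_zero_of_mul (left_ne_zero_of_mul h3),
    right_ne_zero_of_mul (left_ne_zero_of_mul h3)⟩

theorem EQ.one_add (h : EQ m x) : 1 + x ≠ 0 := by
  intro h0
  exact h.sq_ne h2 (by linear_combination (x - 1) * h0)

theorem EQ.qr_ne (h : EQ m x) (hm : m ≠ 0) : qf m x ≠ 0 ∧ rf m x ≠ 0 := by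
  have h1 := h.ne h2 hm
  have h3 := h.A_ne h2 hm
  have h4 := h.one_add h2
  exact ⟨div_ne_zero (mul_ne_zero h4 h1.1) (mul_ne_zero h2 h3),
    neg_ne_zero.2 (div_ne_zero (mul_ne_zero h4 h1.2) (mul_ne_zero h2 h3))⟩

theorem EQ.sum (h : EQ m x) (hm : m ≠ 0) : x + qf m x + rf m x = -1 := by
  have h3 := h.A_ne h2 hm
  unfold qf rf
  generalize qA x = A at *
  field_simp
  ring

theorem EQ.prod (h : EQ m x) (hm : m ≠ 0) : qf m x * rf m x * (x - 1) = -((1 + x) * x) := by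
  have h3 := h.A_ne h2 hm
  have h1 := h.key
  unfold qf rf
  generalize qA x = A at *
  have e : (1 + x) * (2 * m * x - A) / (2 * A) * -((1 + x) * (2 * m * x + A) / (2 * A)) * (x - 1) =
      -((1 + x) * ((2 * m * x - A) * (2 * m * x + A) * (x ^ 2 - 1)) / (2 * A) ^ 2) := by
    field_simp
    ring
  rw [e, h1, neg_inj, div_eq_iff (pow_ne_zero 2 (mul_ne_zero h2 h3))]
  ring

theorem EQ.inv (h : EQ m x) (hm : m ≠ 0) : x⁻¹ + (qf m x)⁻¹ + (rf m x)⁻¹ = 1 := by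
  have h1 := h.sum h2 hm
  have h3 := h.prod h2 hm
  obtain ⟨h4, h5⟩ := h.qr_ne h2 hm
  have h6 := h.x_ne
  have h7 := h.one_add h2
  generalize qf m x = q at *
  generalize rf m x = r at *
  have e : x⁻¹ + q⁻¹ + r⁻¹ - 1 = (q * r + x * r + x * q - x * q * r) / (x * q * r) := by
    field_simp
  have e2 : q * r + x * r + x * q - x * q * r = 0 := by
    linear_combination x * h1 - h3
  rw [e2, zero_div] at e
  exact sub_eq_zero.1 e

end field

section integral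

variable {K : Type*} [Field K] {m : ℤ} {x : K}

theorem int_quad {a b q : K} (ha : IsIntegral ℤ a) (hb : IsIntegral ℤ b)
    (h : q ^ 2 - a * q + b = 0) : IsIntegral ℤ q := by
  let a' : integralClosure ℤ K := ⟨a, ha⟩
  let b' : integralClosure ℤ K := ⟨b, hb⟩
  have h1 : IsIntegral (integralClosure ℤ K) q := by
    refine ⟨X ^ 2 - C a' * X + C b', ?_, ?_⟩
    · monicity!
    · simp only [eval₂_add, eval₂_sub, eval₂_mul, eval₂_pow, eval₂_X, eval₂_C]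
      exact h
  exact isIntegral_trans (R := ℤ) q h1

theorem int_cubic {a b c : ℤ} {q : K} (h : q ^ 3 + a * q ^ 2 + b * q + c = 0) :
    IsIntegral ℤ q := by
  refine ⟨X ^ 3 + C a * X ^ 2 + C b * X + C c, ?_, ?_⟩
  · monicity!
  · simp only [eval₂_add, eval₂_mul, eval₂_pow, eval₂_X, eval₂_C]
    simp only [eq_intCast]
    exact h

theorem int_cast (k : ℤ) : IsIntegral ℤ (k : K) := by
  have h := isIntegral_algebraMap (R := ℤ) (A := K) (x := k)
  simpa using h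

theorem EQ.x_int (h : EQ (m : K) x) : IsIntegral ℤ x := by
  refine ⟨X ^ 6 + C 8 * X ^ 5 + C (17 - 4 * m ^ 2) * X ^ 4 - C (17 - 4 * m ^ 2) * X ^ 2 +
    C 8 * X - 1, Pm_monic m, ?_⟩
  have h1 := h
  unfold EQ at h1
  simp only [eval₂_add, eval₂_sub, eval₂_mul, eval₂_pow, eval₂_X, eval₂_C, eval₂_one]
  rw [← h1]
  simp

theorem EQ.x_inv_int (h : EQ (m : K) x) : IsIntegral ℤ x⁻¹ := by
  rw [h.x_inv]
  have h1 := h.x_int
  have e8 : IsIntegral ℤ (8 : K) := by simpa using int_cast (K := K) 8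
  have ec : IsIntegral ℤ (17 - 4 * (m : K) ^ 2) := by
    have h3 := int_cast (K := K) (17 - 4 * m ^ 2)
    push_cast at h3
    exact h3
  exact ((((h1.pow 5).add (e8.mul (h1.pow 4))).add (ec.mul (h1.pow 3))).sub (ec.mul h1)).add e8

/-- all units -/
theorem EQ.units_int (h2 : (2 : K) ≠ 0) (h : EQ (m : K) x) (hm : (m : K) ≠ 0) :
    (IsIntegral ℤ (qf (m : K) x) ∧ IsIntegral ℤ (qf (m : K) x)⁻¹) ∧
    (IsIntegral ℤ (rf (m : K) x) ∧ IsIntegral ℤ (rf (m : K) x)⁻¹) := by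
  have hA := h.A_ne h2 hm
  obtain ⟨hn1, hn2⟩ := h.ne h2 hm
  have hf := h.form
  have hk := h.key
  obtain ⟨hq0, hr0⟩ := h.qr_ne h2 hm
  have hx := h.x_ne
  -- the unit `ρ`
  set ρ : K := (2 * m * x - qA x) / (2 * m * x + qA x) with hρ
  have hρ0 : ρ ≠ 0 := div_ne_zero hn1 hn2
  have eρ : ρ * (2 * m * x + qA x) = 2 * m * x - qA x := div_mul_cancel₀ _ hn2
  have cub : ρ ^ 3 + ((2 * m + 1 : ℤ) : K) * ρ ^ 2 + ((-(2 * m - 1) : ℤ) : K) * ρ +
      ((1 : ℤ) : K) = 0 := by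
    refine (mul_eq_zero.1 ?_).resolve_right (pow_ne_zero 3 hn2)
    push_cast
    have e : (ρ ^ 3 + (2 * (m : K) + 1) * ρ ^ 2 + -(2 * m - 1) * ρ + 1) *
        (2 * m * x + qA x) ^ 3 = (ρ * (2 * m * x + qA x)) ^ 3 +
        (2 * m + 1) * (ρ * (2 * m * x + qA x)) ^ 2 * (2 * m * x + qA x) -
        (2 * m - 1) * (ρ * (2 * m * x + qA x)) * (2 * m * x + qA x) ^ 2 +
        (2 * m * x + qA x) ^ 3 := by
      ring
    rw [e, eρ]
    have e2 : qA x = x ^ 2 + 2 * x - 1 := rfl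
    rw [e2] at hf ⊢
    linear_combination (4 * (m : K)) * hf
  have cub' : (ρ⁻¹) ^ 3 + ((-(2 * m - 1) : ℤ) : K) * (ρ⁻¹) ^ 2 + ((2 * m + 1 : ℤ) : K) * ρ⁻¹ +
      ((1 : ℤ) : K) = 0 := by
    have e : (ρ⁻¹) ^ 3 + ((-(2 * m - 1) : ℤ) : K) * (ρ⁻¹) ^ 2 + ((2 * m + 1 : ℤ) : K) * ρ⁻¹ +
      ((1 : ℤ) : K) = (ρ⁻¹) ^ 3 * (ρ ^ 3 + ((2 * m + 1 : ℤ) : K) * ρ ^ 2 +
        ((-(2 * m - 1) : ℤ) : K) * ρ + ((1 : ℤ) : K)) := by
      push_cast
      field_simp
      ring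
    rw [e, cub, mul_zero]
  have iρ := int_cubic cub
  have iρ' := int_cubic cub'
  -- the number `y = 2 / (1 - ρ)`
  set y : K := (2 * m * x + qA x) / qA x with hy
  have ey : y * qA x = 2 * m * x + qA x := div_mul_cancel₀ _ hA
  have e1 : y * (1 - ρ) = 2 := by
    refine mul_right_cancel₀ (mul_ne_zero hA hn2) ?_
    have e : y * (1 - ρ) * (qA x * (2 * m * x + qA x)) =
        (y * qA x) * ((2 * m * x + qA x) - ρ * (2 * m * x + qA x)) := by ring
    rw [e, ey, eρ]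
    ring
  have cuby : y ^ 3 + ((-(3 + m) : ℤ) : K) * y ^ 2 + ((4 + 2 * m : ℤ) : K) * y +
      ((-2 : ℤ) : K) = 0 := by
    refine (mul_eq_zero.1 ?_).resolve_right (pow_ne_zero 3 hA)
    push_cast
    have e : (y ^ 3 + -(3 + (m : K)) * y ^ 2 + (4 + 2 * m) * y + -2) * qA x ^ 3 =
        (y * qA x) ^ 3 - (3 + m) * (y * qA x) ^ 2 * qA x + (4 + 2 * m) * (y * qA x) * qA x ^ 2 -
          2 * qA x ^ 3 := by
      ring
    rw [e, ey]
    refine (mul_eq_zero.1 (?_ : (2 : K) * _ = 0)).resolve_left h2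
    have e2 : qA x = x ^ 2 + 2 * x - 1 := rfl
    rw [e2] at hf ⊢
    linear_combination (2 * (m : K)) * hf
  have iy := int_cubic cuby
  have ia : IsIntegral ℤ (y - ρ - 1) := (iy.sub iρ).sub isIntegral_one
  have ea : (1 - ρ) * (y - ρ - 1) = 1 + ρ ^ 2 := by linear_combination e1
  have h1ρ : 1 - ρ ≠ 0 := by
    intro h0
    rw [h0, mul_zero] at e1
    exact h2 e1.symm
  have eq1 : qf (m : K) x * (1 - ρ) = ρ * (1 + x) := by
    refine mul_right_cancel₀ (mul_ne_zero (mul_ne_zero h2 hA) hn2) ?_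
    have e : qf (m : K) x * (1 - ρ) * (2 * qA x * (2 * m * x + qA x)) =
        (qf (m : K) x * (2 * qA x)) * ((2 * m * x + qA x) - ρ * (2 * m * x + qA x)) := by ring
    have e3 : qf (m : K) x * (2 * qA x) = (1 + x) * (2 * m * x - qA x) :=
      div_mul_cancel₀ _ (mul_ne_zero h2 hA)
    have e4 : ρ * (1 + x) * (2 * qA x * (2 * m * x + qA x)) =
        (ρ * (2 * m * x + qA x)) * (1 + x) * (2 * qA x) := by ring
    rw [e, e3, e4, eρ]
    ring
  have er : rf (m : K) x = -(qf (m : K) x / ρ) := by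
    unfold rf qf
    rw [neg_inj, eq_div_iff hρ0]
    have e : (1 + x) * (2 * m * x + qA x) / (2 * qA x) * ρ =
        (1 + x) * (ρ * (2 * m * x + qA x)) / (2 * qA x) := by ring
    rw [e, eρ]
  have eρx : ρ * (x ^ 2 - 1) = x * (1 - ρ) ^ 2 := by
    refine mul_right_cancel₀ (pow_ne_zero 2 hn2) ?_
    have e : ρ * (x ^ 2 - 1) * (2 * m * x + qA x) ^ 2 =
        (ρ * (2 * m * x + qA x)) * (2 * m * x + qA x) * (x ^ 2 - 1) := by ring
    have e3 : x * (1 - ρ) ^ 2 * (2 * m * x + qA x) ^ 2 =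
        x * ((2 * m * x + qA x) - ρ * (2 * m * x + qA x)) ^ 2 := by ring
    rw [e, e3, eρ, hk]
    ring
  have equad : qf (m : K) x ^ 2 - (y - ρ - 1) * qf (m : K) x + ρ = 0 := by
    refine (mul_eq_zero.1 (?_ : (1 - ρ) ^ 2 * _ = 0)).resolve_left (pow_ne_zero 2 h1ρ)
    have e : (1 - ρ) ^ 2 * (qf (m : K) x ^ 2 - (y - ρ - 1) * qf (m : K) x + ρ) =
        (qf (m : K) x * (1 - ρ)) ^ 2 - ((1 - ρ) * (y - ρ - 1)) * (qf (m : K) x * (1 - ρ)) +
          (1 - ρ) ^ 2 * ρ := by ring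
    rw [e, eq1, ea]
    linear_combination ρ * eρx
  have iq := int_quad ia iρ equad
  have iq' : IsIntegral ℤ (qf (m : K) x)⁻¹ := by
    refine int_quad (ia.mul iρ') iρ' ?_
    have e : (qf (m : K) x)⁻¹ ^ 2 - (y - ρ - 1) * ρ⁻¹ * (qf (m : K) x)⁻¹ + ρ⁻¹ =
        (qf (m : K) x)⁻¹ ^ 2 * ρ⁻¹ * (qf (m : K) x ^ 2 - (y - ρ - 1) * qf (m : K) x + ρ) := by
      generalize qf (m : K) x = q at *
      field_simp
      ring
    rw [e, equad, mul_zero]
  refine ⟨⟨iq, iq'⟩, ?_, ?_⟩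
  · rw [er, div_eq_mul_inv]
    exact (iq.mul iρ').neg
  · have e : (rf (m : K) x)⁻¹ = -(ρ * (qf (m : K) x)⁻¹) := by
      rw [er, inv_neg, inv_div, div_eq_mul_inv]
    rw [e]
    exact (iρ.mul iq').neg

end integral

end Pool.Agent.R388.SX
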