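import Pool.Agent.R388.CU.Unr
set_option autoImplicit false

/-!
Symbols `{x, y}` whose entries satisfy `(1 + x) (1 + y) (1 + x + y) = t x y` with `t` integral.
-/

namespace Pool.Agent.R388.SX

open scoped WithZero

open Pool.Agent.TH826.MK (symb unitPart)

open Pool.Agent.R388.CU (add_l add_r mem_of_units mem_of_neg_one_left mem_of_neg_one_right
  mem_of_add_lt)

variable {L : Type*} [Field L] (v : Valuation L ℤᵐ⁰)

/-- If `(1 + x) (1 + y) (1 + x + y) = t x y` and `t` is integral at `v`, then the symbol `{x, y}`
lies in the unit part. -/
theorem mem_unitPart_of_eqn {x y : Lˣ} {t : L} (ht : v t ≤ 1)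
    (h : (1 + (x : L)) * (1 + y) * (1 + x + y) = t * x * y) : symb ![x, y] ∈ unitPart v 2 := by
  have hx0 : v (x : L) ≠ 0 := (Valuation.ne_zero_iff v).2 x.ne_zero
  have hy0 : v (y : L) ≠ 0 := (Valuation.ne_zero_iff v).2 y.ne_zero
  have hv : v (1 + (x : L)) * v (1 + (y : L)) * v (1 + (x : L) + y) ≤ v (x : L) * v (y : L) := by
    rw [← map_mul, ← map_mul, h, map_mul, map_mul, mul_assoc]
    calc v t * (v (x : L) * v (y : L)) ≤ 1 * (v (x : L) * v (y : L)) := by gcongr
      _ = _ := one_mul _
  have hpx : 0 < v (x : L) := zero_lt_iff.2 hx0
  have hpy : 0 < v (y : L) := zero_lt_iff.2 hy0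
  have small : ∀ z : L, v z < 1 → v (1 + z) = 1 := fun z hz => Valuation.map_one_add_of_lt v hz
  have large : ∀ z : L, 1 < v z → v (1 + z) = v z := by
    intro z hz
    refine add_l v ?_
    rw [Valuation.map_one]
    exact hz
  by_cases hc1 : v ((x : L) + 1) < 1
  · exact mem_of_neg_one_left v hc1
  by_cases hc2 : v ((y : L) + 1) < 1
  · exact mem_of_neg_one_right v hc2
  by_cases hc3 : v ((x : L) + y) < v (x : L)
  · exact mem_of_add_lt v hc3
  rw [not_lt] at hc1 hc2 hc3
  rw [add_comm (x : L) 1] at hc1
  rw [add_comm (y : L) 1] at hc2
  have ex : 1 + (x : L) + y = 1 + (x + y) := by ring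
  have ey : 1 + (x : L) + y = (1 + y) + x := by ring
  by_cases hx1 : v (x : L) = 1
  · by_cases hy1 : v (y : L) = 1
    · exact mem_of_units v hx1 hy1
    · exfalso
      rcases lt_or_gt_of_ne hy1 with hy | hy
      · have e : v (1 + (x : L) + y) = v (1 + (x : L)) := add_r v (hy.trans_le hc1)
        rw [small _ hy, mul_one, hx1, one_mul, e] at hv
        exact absurd ((one_le_mul hc1 hc1).trans hv) (not_le.2 hy)
      · have e : v (1 + (x : L) + y) = v (y : L) := by
          refine add_l v (lt_of_le_of_lt ?_ hy)
          refine (v.map_add _ _).trans ?_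
          rw [hx1, map_one, max_self]
        rw [large _ hy, e, hx1, one_mul] at hv
        have : v (y : L) < v (1 + (x : L)) * v (y : L) * v (y : L) := by
          calc v (y : L) = 1 * v (y : L) * 1 := by rw [one_mul, mul_one]
            _ ≤ v (1 + (x : L)) * v (y : L) * 1 := by gcongr
            _ < v (1 + (x : L)) * v (y : L) * v (y : L) := by
              refine mul_lt_mul_of_pos_left hy ?_
              exact mul_pos (one_pos.trans_le hc1) hpy
        exact absurd hv (not_le.2 this)
  · exfalso
    rcases lt_or_gt_of_ne hx1 with hx | hx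
    · rw [small _ hx, one_mul] at hv
      rcases lt_trichotomy (v (y : L)) 1 with hy | hy | hy
      · have e : v (1 + (x : L) + y) = 1 := by
          rw [ex]
          refine small _ ?_
          exact (v.map_add _ _).trans_lt (max_lt hx hy)
        rw [small _ hy, e, one_mul] at hv
        have : v (x : L) * v (y : L) < 1 := by
          calc v (x : L) * v (y : L) < v (x : L) * 1 := mul_lt_mul_of_pos_left hy hpx
            _ < 1 := by rwa [mul_one]
        exact absurd hv (not_le.2 this)
      · have e : v (1 + (x : L) + y) = v (1 + (y : L)) := by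
          rw [ey]
          exact add_r v (hx.trans_le hc2)
        rw [e, hy, mul_one] at hv
        exact absurd ((one_le_mul hc2 hc2).trans hv) (not_le.2 hx)
      · have e : v (1 + (x : L) + y) = v (y : L) := by
          refine add_l v ?_
          rw [small _ hx]
          exact hy
        rw [large _ hy, e] at hv
        have : v (x : L) * v (y : L) < v (y : L) * v (y : L) :=
          mul_lt_mul_of_pos_right (hx.trans hy) hpy
        exact absurd hv (not_le.2 this)
    · rw [large _ hx] at hv
      rcases lt_trichotomy (v (y : L)) 1 with hy | hy | hy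
      · have e : v (1 + (x : L) + y) = v (x : L) := by
          rw [add_r v, large _ hx]
          rw [large _ hx]
          exact hy.trans hx
        rw [small _ hy, mul_one, e] at hv
        have : v (x : L) * v (y : L) < v (x : L) * v (x : L) :=
          mul_lt_mul_of_pos_left (hy.trans hx) hpx
        exact absurd hv (not_le.2 this)
      · have e : v (1 + (x : L) + y) = v (x : L) := by
          rw [add_r v, large _ hx]
          rw [large _ hx]
          exact hy ▸ hx
        rw [e, hy, mul_one] at hv
        have : v (x : L) < v (x : L) * v (1 + (y : L)) * v (x : L) := by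
          calc v (x : L) = v (x : L) * 1 * 1 := by rw [mul_one, mul_one]
            _ ≤ v (x : L) * v (1 + (y : L)) * 1 := by gcongr
            _ < v (x : L) * v (1 + (y : L)) * v (x : L) := by
              refine mul_lt_mul_of_pos_left hx ?_
              exact mul_pos hpx (one_pos.trans_le hc2)
        exact absurd hv (not_le.2 this)
      · have e : v (1 + (x : L) + y) = v ((x : L) + y) := by
          rw [ex]
          exact large _ (hx.trans_le hc3)
        rw [large _ hy, e] at hv
        have : v (x : L) * v (y : L) < v (x : L) * v (y : L) * v ((x : L) + y) := by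
          calc v (x : L) * v (y : L) = v (x : L) * v (y : L) * 1 := (mul_one _).symm
            _ < v (x : L) * v (y : L) * v ((x : L) + y) := by
              refine mul_lt_mul_of_pos_left (hx.trans_le hc3) ?_
              exact mul_pos hpx hpy
        exact absurd hv (not_le.2 this)

end Pool.Agent.R388.SX
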